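import Pool.Agent.P.MP_b2ff63_pr.Hyp3

open MeasureTheory
open scoped ENNReal

namespace Pool.Agent.P.MP_b2ff63_pr
open Pool.Agent.Lib.GRW

theorem num_bound {q A : ℝ} (hq : 400 ≤ q) (hA : 0 ≤ A) :
    (30 * (1 / (q ^ 4) ^ 3) * (8 * (q ^ 3) ^ 3 * (1356 * 164 * q ^ 3 + 1)) + A) /
      (64 / 10000 * (1 / (2 * (q ^ 4) ^ 2)) * (q ^ 3) ^ 3) ≤ (400 * A + 10 ^ 11) / q := by
  have h0 : 0 < q := by linarith
  have h3 : 1 ≤ q ^ 3 := one_le_pow₀ (by linarith)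
  have e1 : 64 / 10000 * (1 / (2 * (q ^ 4) ^ 2)) * (q ^ 3) ^ 3 = 32 / 10000 * q := by
    field_simp; ring
  have e2 : 30 * (1 / (q ^ 4) ^ 3) * (8 * (q ^ 3) ^ 3 * (1356 * 164 * q ^ 3 + 1)) =
      240 * (1356 * 164) + 240 / q ^ 3 := by
    field_simp; ring
  have e3 : 240 / q ^ 3 ≤ 240 := div_le_self (by norm_num) h3
  rw [e1, e2, div_le_div_iff₀ (by positivity) h0]
  nlinarith

variable {Ω : Type} [MeasurableSpace Ω] {P : Measure Ω} {X : ℕ → Ω → O3.mg.V}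

theorem bound_q (hX : IsGRW O3.mg.G (O3.hub 0) P X) (m t : ℕ) {q : ℕ} (hq : 400 ≤ q) :
    P {ω | (q ^ 3) ^ 3 ≤ O3.cF (box 3) t (fun s => X s ω) ∧ O3.cK (box 3) t (fun s => X s ω) < m} ≤
      ENNReal.ofReal ((400 * (1 + m + |C0|) + 10 ^ 11) / q) := by
  have hq' : (400 : ℝ) ≤ q := by exact_mod_cast hq
  have hρ : (400 : ℝ) ≤ (q : ℝ) ^ 4 := hq'.trans (le_self_pow₀ (by linarith) (by norm_num))
  have hn : 7 * ((box 3).card + 1) ≤ q ^ 3 := by
    rw [card_box]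
    exact le_trans (by norm_num) (Nat.pow_le_pow_left hq 3)
  refine (OG.prob_bound (hyp3 hρ) (ff_ge (by positivity)) b3_nonneg (by norm_num) b3_sum
    (by positivity) hn m hX t).trans (ENNReal.ofReal_le_ofReal ?_)
  refine le_trans ?_ (num_bound hq' (by positivity))
  push_cast
  refine div_le_div_of_nonneg_right ?_ (by positivity)
  linarith [start_le hρ, le_abs_self C0]

theorem null_m (hX : IsGRW O3.mg.G (O3.hub 0) P X) (m : ℕ) :
    P {ω | (∀ N, ∃ t, N ≤ O3.cF (box 3) t (fun s => X s ω)) ∧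
      ∀ t, O3.cK (box 3) t (fun s => X s ω) < m} = 0 := by
  set c : ℝ := 400 * (1 + m + |C0|) + 10 ^ 11
  have h1 : ∀ q : ℕ, 400 ≤ q → P {ω | (∀ N, ∃ t, N ≤ O3.cF (box 3) t (fun s => X s ω)) ∧
      ∀ t, O3.cK (box 3) t (fun s => X s ω) < m} ≤ ENNReal.ofReal (c / q) := fun q hq => by
    have hm : Monotone fun t => {ω | (q ^ 3) ^ 3 ≤ O3.cF (box 3) t (fun s => X s ω) ∧
        ∀ t, O3.cK (box 3) t (fun s => X s ω) < m} := fun s t hst ω hω =>
      ⟨hω.1.trans (O3.cF_mono _ _ hst), hω.2⟩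
    refine le_trans (measure_mono fun ω hω => ?_) (hm.measure_iUnion.le.trans (iSup_le fun t =>
      le_trans (measure_mono fun ω hω => ?_) (bound_q hX m t hq)))
    · obtain ⟨t, ht⟩ := hω.1 ((q ^ 3) ^ 3)
      exact Set.mem_iUnion.2 ⟨t, ht, hω.2⟩
    · exact ⟨hω.1, hω.2 t⟩
  have h2 : Filter.Tendsto (fun q : ℕ => ENNReal.ofReal (c / q)) Filter.atTop (nhds 0) := by
    rw [← ENNReal.ofReal_zero]
    exact ENNReal.tendsto_ofReal (tendsto_const_div_atTop_nhds_zero_nat c)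
  exact le_antisymm (ge_of_tendsto h2 (Filter.eventually_atTop.2 ⟨400, h1⟩)) zero_le

theorem not_transient (hX : IsGRW O3.mg.G (O3.hub 0) P X) :
    ∀ᵐ ω ∂P, ∃ v, {t | X t ω = v}.Infinite := by
  have h1 : ∀ᵐ ω ∂P, ∀ m : ℕ, ¬ ((∀ N, ∃ t, N ≤ O3.cF (box 3) t (fun s => X s ω)) ∧
      ∀ t, O3.cK (box 3) t (fun s => X s ω) < m) :=
    ae_all_iff.2 fun m => by
      rw [ae_iff]; simpa only [not_not] using null_m hX m
  filter_upwards [h1, hX.ae_valid] with ω hω hv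
  by_contra hf
  push Not at hf
  have hfin : (⋃ z ∈ box 3, {t | X t ω = O3.hub z}).Finite :=
    (box 3).finite_toSet.biUnion fun z _ => hf _
  refine hω (hfin.toFinset.card + 1) ⟨fun N => ?_, fun t => Nat.lt_succ_of_le ?_⟩
  · obtain ⟨t, ht⟩ := O3.infinite_hubs hv hf (N + (box 3).card)
    refine ⟨t, ?_⟩
    rw [← O3.card_Hs]
    have := Finset.le_card_sdiff (box 3) (O3.Hs (fun s => X s ω) t)
    omega
  · classical
    unfold OG.cK OG.rK
    rw [Finset.sum_boole]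
    refine Finset.card_le_card fun u hu => ?_
    obtain ⟨z, hz, e⟩ := (Finset.mem_filter.1 hu).2
    exact hfin.mem_toFinset.2 (Set.mem_biUnion hz e)

end Pool.Agent.P.MP_b2ff63_pr
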