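import Pool.Agent.P.MP_b2ff63_pr.Final

namespace Pool.Agent.P.MP_b2ff63_pr

/-- There is a walk of length at most `n`. -/
def Nr {V : Type} (G : SimpleGraph V) (n : ℕ) (u v : V) : Prop := ∃ p : G.Walk u v, p.length ≤ n

namespace Nr
variable {V : Type} {G : SimpleGraph V} {m n : ℕ} {u v w : V}

theorem refl (n : ℕ) (u : V) : Nr G n u u := ⟨.nil, Nat.zero_le _⟩
theorem symm (h : Nr G n u v) : Nr G n v u := let ⟨p, hp⟩ := h; ⟨p.reverse, by simpa using hp⟩
theorem trans (h : Nr G m u v) (h' : Nr G n v w) : Nr G (m + n) u w :=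
  let ⟨p, hp⟩ := h; let ⟨q, hq⟩ := h'
  ⟨p.append q, by rw [SimpleGraph.Walk.length_append]; omega⟩
theorem mono (h : Nr G m u v) (hmn : m ≤ n) : Nr G n u v := let ⟨p, hp⟩ := h; ⟨p, hp.trans hmn⟩
theorem adj (h : G.Adj u v) : Nr G 1 u v := ⟨h.toWalk, by simp⟩
theorem dist_le (h : Nr G n u v) : G.dist u v ≤ n :=
  let ⟨p, hp⟩ := h; (SimpleGraph.dist_le p).trans hp
end Nr

theorem MG.nr_pt {W E : Type} (M : MG W E) (e : E) {k : ℕ} (hk : k ≤ M.len e) :
    Nr M.G k (Sum.inl (M.a e)) (M.pt e k) := by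
  induction k with
  | zero => rw [M.pt_zero]; exact Nr.refl _ _
  | succ k ih => exact (ih (by omega)).trans (Nr.adj ⟨e, k, hk, rfl⟩)

theorem MG.nr_ab {W E : Type} (M : MG W E) (e : E) :
    Nr M.G (M.len e) (Sum.inl (M.a e)) (Sum.inl (M.b e)) := M.pt_len e ▸ M.nr_pt e le_rfl

theorem MG.degree_le {W E : Type} (M : MG W E) {D : ℕ} (h2 : 2 ≤ D)
    (hD : ∀ w, (M.inc w).card ≤ D) (v : M.V) : M.G.degree v ≤ D := by
  classical
  rw [← SimpleGraph.card_neighborFinset_eq_degree]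
  rcases v with w | p
  · refine le_trans (Finset.card_le_card (t := (M.inc w).image fun e => M.pt e (M.nj e w))
      fun v hv => ?_) (Finset.card_image_le.trans (hD w))
    obtain ⟨e, he, rfl⟩ := M.adj_inl.1 ((M.G.mem_neighborFinset _ _).1 hv)
    exact Finset.mem_image_of_mem _ he
  · refine le_trans (Finset.card_le_card
      (t := {M.pt p.1.1 (p.1.2 - 1), M.pt p.1.1 (p.1.2 + 1)}) fun v hv => ?_)
      (Finset.card_le_two.trans h2)
    rw [SimpleGraph.mem_neighborFinset, M.inr_eq_pt, M.adj_int p.2] at hv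
    simpa using hv

namespace OG
variable {Z L : Type} [DecidableEq Z] [DecidableEq L] (O : OG Z L)

theorem degree_le (v : O.mg.V) : O.mg.G.degree v ≤ 102 := by
  refine O.mg.degree_le (by norm_num) (fun w => ?_) v
  rcases w with x | ⟨l, j, c⟩
  · exact (O.card_hub x).le
  · exact Finset.card_image_le.trans ((Finset.card_le_univ _).trans (by simp))

theorem len_le (e : EE L) : O.mg.len e ≤ 10 ^ 7 := by
  obtain ⟨l, _ | ⟨j, k⟩⟩ := e
  · show 2 ≤ 10 ^ 7
    norm_num
  · show glen k ≤ 10 ^ 7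
    fin_cases k <;> simp [glen]

theorem nr_gvx (l : L) (j : Fin 16) (c : Fin 6) :
    Nr O.mg.G (5 * 10 ^ 7) (O.hub (O.inn l)) (Sum.inl (O.gvx l j c)) := by
  have h : ∀ k, Nr O.mg.G (10 ^ 7) (Sum.inl (O.gvx l j (ga k))) (Sum.inl (O.gvx l j (gb k))) :=
    fun k => (O.mg.nr_ab (l, some (j, k))).mono (O.len_le _)
  have h1 : Nr O.mg.G (10 ^ 7) (O.hub (O.inn l)) (Sum.inl (O.gvx l j 1)) := h 0
  have h2 := h1.trans (h 1)
  have h3 := h2.trans (h 3)
  have h4 := h3.trans (h 4)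
  have h5 := h4.trans (h 6)
  fin_cases c
  · exact Nr.refl _ _
  · exact h1.mono (by norm_num)
  · exact h2.mono (by norm_num)
  · exact h3.mono (by norm_num)
  · exact h4.mono (by norm_num)
  · exact h5.mono (by norm_num)

/-- Projection to the base graph. -/
def proj : O.mg.V → Z
  | Sum.inl (Sum.inl z) => z
  | Sum.inl (Sum.inr q) => O.inn q.1
  | Sum.inr p => O.inn p.1.1.1

theorem nr_proj (v : O.mg.V) : Nr O.mg.G (6 * 10 ^ 7) (O.hub (O.proj v)) v := by
  rcases v with (z | ⟨l, j, c⟩) | p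
  · exact Nr.refl _ _
  · have := O.nr_gvx l j (up c)
    rw [gvx_up] at this
    exact this.mono (by norm_num)
  · have h1 : Nr O.mg.G (5 * 10 ^ 7) (O.hub (O.inn p.1.1.1)) (Sum.inl (O.mg.a p.1.1)) := by
      obtain ⟨⟨⟨l, _ | ⟨j, k⟩⟩, n⟩, hp⟩ := p
      · exact Nr.refl _ _
      · exact O.nr_gvx l j _
    have h2 := h1.trans ((O.mg.nr_pt p.1.1 p.2.2.le).mono (p.2.2.le.trans (O.len_le _)))
    rw [← O.mg.inr_eq_pt] at h2
    exact h2.mono (by norm_num)

theorem proj_cases {u : O.mg.V} {l : L}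
    (h : u = O.hub (O.inn l) ∨ u = O.hub (O.out l) ∨ O.lat u = some l) :
    O.proj u = O.inn l ∨ O.proj u = O.out l := by
  rcases h with rfl | rfl | h
  · exact Or.inl rfl
  · exact Or.inr rfl
  · rcases u with (z | q) | p
    · simp [lat] at h
    · exact Or.inl (congrArg O.inn (Option.some_injective _ h))
    · exact Or.inl (congrArg O.inn (Option.some_injective _ h))

theorem nr_main (l : L) : Nr O.mg.G 2 (O.hub (O.inn l)) (O.hub (O.out l)) := O.mg.nr_ab (l, none)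

end OG

def d1 (x y : Z3) : ℕ := (x 0 - y 0).natAbs + (x 1 - y 1).natAbs + (x 2 - y 2).natAbs

theorem d1_cast (x y : Z3) : (d1 x y : ℝ) = ∑ i, |(x i : ℝ) - y i| := by
  simp [d1, Fin.sum_univ_three]

theorem d1_tri (x y z : Z3) : d1 x z ≤ d1 x y + d1 y z := by unfold d1; omega

theorem d1_ev (x : Z3) (i : Fin 3) : d1 x (x + ev i) = 1 ∧ d1 (x + ev i) x = 1 := by
  fin_cases i <;> simp [d1, ev]

theorem d1_self (x : Z3) : d1 x x = 0 := by simp [d1]

theorem d1_edge (l : L3) : d1 (O3.inn l) (O3.out l) = 1 ∧ d1 (O3.out l) (O3.inn l) = 1 := by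
  simp only [O3, inn3, out3]
  split_ifs
  · exact d1_ev _ _
  · exact (d1_ev _ _).symm

theorem d1_walk {u v : O3.mg.V} (p : O3.mg.G.Walk u v) :
    d1 (O3.proj u) (O3.proj v) ≤ p.length := by
  induction p with
  | nil => rw [d1_self]; exact Nat.zero_le _
  | @cons a b c h p ih =>
    obtain ⟨l, h1, h2⟩ := O3.adj_lat h
    have : d1 (O3.proj a) (O3.proj b) ≤ 1 := by
      rcases O3.proj_cases h1 with q | q <;> rcases O3.proj_cases h2 with r | r <;> rw [q, r]
      · rw [d1_self]; norm_num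
      · exact (d1_edge l).1.le
      · exact (d1_edge l).2.le
      · rw [d1_self]; norm_num
    have := d1_tri (O3.proj a) (O3.proj b) (O3.proj c)
    rw [SimpleGraph.Walk.length_cons]
    omega

theorem nr_ev (x : Z3) (i : Fin 3) : Nr O3.mg.G 2 (O3.hub x) (O3.hub (x + ev i)) := by
  have := O3.nr_main (x, i)
  by_cases h : 0 ≤ x i
  · simpa only [O3, inn3, out3, h, if_true] using this
  · simpa only [O3, inn3, out3, h, if_false] using this.symm

theorem nr_hub (n : ℕ) : ∀ x y : Z3, d1 x y = n → Nr O3.mg.G (2 * n) (O3.hub x) (O3.hub y) := by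
  induction n with
  | zero =>
    intro x y h
    have : x = y := funext fun i => by
      unfold d1 at h
      fin_cases i <;> simp <;> omega
    rw [this]; exact Nr.refl _ _
  | succ n ih =>
    intro x y h
    have h1 : ∃ i, x i ≠ y i := by
      by_contra hh
      push Not at hh
      rw [funext hh, d1_self] at h
      omega
    obtain ⟨i, hi⟩ := h1
    rcases lt_or_gt_of_ne hi with q | q
    · have : d1 (x + ev i) y = n := by
        unfold d1 at h ⊢
        fin_cases i <;> simp [ev] at q ⊢ <;> omega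
      exact ((nr_ev x i).trans (ih _ _ this)).mono (by omega)
    · have : d1 x (y + ev i) = n := by
        unfold d1 at h ⊢
        fin_cases i <;> simp [ev] at q ⊢ <;> omega
      exact ((ih _ _ this).trans (nr_ev y i).symm).mono (by omega)

theorem nr_all (u v : O3.mg.V) :
    Nr O3.mg.G (2 * d1 (O3.proj u) (O3.proj v) + 12 * 10 ^ 7) u v :=
  (((O3.nr_proj u).symm.trans (nr_hub _ _ _ rfl)).trans (O3.nr_proj v)).mono (by omega)

theorem connected3 : O3.mg.G.Connected :=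
  haveI : Nonempty O3.mg.V := ⟨O3.hub 0⟩
  ⟨fun u v => let ⟨p, _⟩ := nr_all u v; ⟨p⟩⟩

theorem rough3 (u v : O3.mg.V) :
    (2 : ℝ)⁻¹ * O3.mg.G.dist u v - 6 * 10 ^ 7 ≤ ∑ i, |(O3.proj u i : ℝ) - O3.proj v i| ∧
      ∑ i, |(O3.proj u i : ℝ) - O3.proj v i| ≤ 2 * O3.mg.G.dist u v + 6 * 10 ^ 7 := by
  rw [← d1_cast]
  have h1 : (O3.mg.G.dist u v : ℝ) ≤ 2 * d1 (O3.proj u) (O3.proj v) + 12 * 10 ^ 7 := by
    exact_mod_cast (nr_all u v).dist_le
  obtain ⟨p, hp⟩ := (connected3 u v).exists_walk_length_eq_dist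
  have h2 : (d1 (O3.proj u) (O3.proj v) : ℝ) ≤ O3.mg.G.dist u v := by
    exact_mod_cast hp ▸ d1_walk p
  have h3 : (0 : ℝ) ≤ O3.mg.G.dist u v := Nat.cast_nonneg _
  constructor <;> linarith

end Pool.Agent.P.MP_b2ff63_pr
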