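import Mathlib

namespace Pool.Agent.P.MP_b2ff63_pr

/-- Local vertices: 0 inner hub, 5 outer hub, 1..4 internal. Local edges 0..6. -/
def ga : Fin 7 → Fin 6 := ![0, 1, 1, 2, 3, 3, 4]
def gb : Fin 7 → Fin 6 := ![1, 2, 2, 3, 4, 4, 5]
def glen : Fin 7 → ℕ := ![2, 20000, 20000, 2, 20000, 20000, 9979996]
def goth (k : Fin 7) (c : Fin 6) : Fin 6 := if ga k = c then gb k else ga k
def ginc (c : Fin 6) : Finset (Fin 7) := Finset.univ.filter fun k => ga k = c ∨ gb k = c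
def up (c : Fin 4) : Fin 6 := ⟨c + 1, by omega⟩

def lam : Fin 6 → ℚ := ![0, 2 / 10000000, 10002 / 10000000, 10004 / 10000000, 20004 / 10000000, 1]
def cM : ℚ := 1456 / 1000
def cB : ℚ := 45 / 100
def cE : ℚ := 2912 / 10000000
def cC : ℚ := 37 / 100
def cG : ℚ := 99 / 100
def cMu : ℚ := 1 / 10000000
def cFee : ℚ := 2 / 10000

def rho (σ : Finset (Fin 7)) : ℚ :=
  if 6 ∈ σ then (7 - σ.card : ℕ) / 1000
  else if σ = ∅ ∨ (0 ∈ σ ∧ 1 ∈ σ ∧ 2 ∈ σ) then 0 else cM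

def one (σ : Finset (Fin 7)) (i j : Fin 7) : Prop := (i ∈ σ ∧ j ∉ σ) ∨ (i ∉ σ ∧ j ∈ σ)

instance (σ : Finset (Fin 7)) (i j : Fin 7) : Decidable (one σ i j) := by
  unfold one; infer_instance

def phi (c : Fin 6) (σ : Finset (Fin 7)) : ℚ :=
  if c = 1 then
    (if 0 ∈ σ ∧ 1 ∈ σ ∧ 2 ∈ σ then cE else if σ = {0} then cM / 4 + cE else cM)
  else if c = 2 then
    (if σ = {0, 1} ∨ σ = {0, 2} then cM / 4 + cE
      else if 0 ∈ σ ∧ 3 ∈ σ ∧ one σ 1 2 then cE else cM)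
  else if c = 3 then
    (if 0 ∈ σ ∧ 3 ∈ σ ∧ one σ 1 2 then
      (if 4 ∈ σ ∧ 5 ∈ σ then 2 * cE else if 4 ∉ σ ∧ 5 ∉ σ then cM / 2 + cE else cM) else cM)
  else (if 0 ∈ σ ∧ 3 ∈ σ ∧ one σ 1 2 ∧ one σ 4 5 then cM / 2 + cE else cM)

def gv (c : Fin 6) (σ : Finset (Fin 7)) : ℚ :=
  if c = 0 then rho σ else if c = 5 then 1 + rho σ
  else if 6 ∈ σ then lam c + rho σ else phi c σ

theorem gLG : ∀ (c : Fin 4) (σ : Finset (Fin 7)),
    ∑ k ∈ ginc (up c) \ σ, (gv (goth k (up c)) (insert k σ) + if k = 6 then cB else 0) ≤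
      (ginc (up c) \ σ).card * gv (up c) σ := by decide +kernel

theorem gLS : ∀ (c : Fin 4) (σ : Finset (Fin 7)), ginc (up c) ⊆ σ →
    ∑ k ∈ ginc (up c), (gv (goth k (up c)) σ - gv (up c) σ) / glen k ≤ 0 := by decide +kernel

theorem gLO : ∀ σ : Finset (Fin 7), 0 ∉ σ → gv 1 (insert 0 σ) ≤ rho σ + cC := by decide +kernel

theorem gLI : ∀ σ : Finset (Fin 7), 6 ∉ σ → gv 4 (insert 6 σ) ≤ 1 + rho σ - cG := by
  decide +kernel

theorem gLSy : ∀ σ : Finset (Fin 7), 0 ∈ σ →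
    (gv 1 σ - rho σ) / 2 ≤ cMu + if 6 ∈ σ then 0 else cFee := by decide +kernel

theorem gLSx : ∀ σ : Finset (Fin 7), 6 ∈ σ → (gv 4 σ - rho σ - 1) / 9979996 ≤ - cMu := by
  decide +kernel

theorem gv_nonneg : ∀ (c : Fin 6) (σ : Finset (Fin 7)), 0 ≤ gv c σ := by decide +kernel

theorem rho_nonneg : ∀ σ : Finset (Fin 7), 0 ≤ rho σ := by decide +kernel

theorem rho_empty : rho ∅ = 0 := by decide +kernel

theorem lam_harm : ∀ c : Fin 4,
    ∑ k ∈ ginc (up c), (lam (goth k (up c)) - lam (up c)) / glen k = 0 := by decide +kernel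

theorem lam_mem : ∀ c : Fin 6, 0 ≤ lam c ∧ lam c ≤ 1 := by decide +kernel

theorem lam_one : lam 1 / 2 = cMu := by decide +kernel
theorem lam_four : (lam 4 - 1) / 9979996 = - cMu := by decide +kernel
theorem lam_zero : lam 0 = 0 := by decide +kernel
theorem lam_five : lam 5 = 1 := by decide +kernel
theorem gv_zero (σ : Finset (Fin 7)) : gv 0 σ = rho σ := by simp [gv]
theorem gv_five (σ : Finset (Fin 7)) : gv 5 σ = 1 + rho σ := by
  unfold gv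
  rw [if_neg (by decide), if_pos rfl]

end Pool.Agent.P.MP_b2ff63_pr
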