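import Pool.Agent.P.MP_b2ff63_pr.Lattice

namespace Pool.Agent.P.MP_b2ff63_pr

noncomputable def box (ν : ℕ) : Finset Z3 := Fintype.piFinset fun _ => Finset.Icc (-(ν : ℤ)) ν

theorem mem_box {ν : ℕ} {x : Z3} : x ∈ box ν ↔ ∀ i, -(ν : ℤ) ≤ x i ∧ x i ≤ ν := by
  simp [box]

theorem card_box (ν : ℕ) : (box ν).card = (2 * ν + 1) ^ 3 := by
  have : ((ν : ℤ) + 1 - -(ν : ℤ)).toNat = 2 * ν + 1 := by omega
  simp only [box, Fintype.card_piFinset, Int.card_Icc, this, Finset.prod_const, Finset.card_univ,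
    Fintype.card_fin]

theorem nsq_of_not_mem {ν : ℕ} {x : Z3} (h : x ∉ box ν) : ((ν : ℝ) + 1) ^ 2 ≤ nsq x := by
  rw [mem_box] at h
  push Not at h
  obtain ⟨i, hi⟩ := h
  refine le_trans ?_ (sq_le_nsq x i)
  have : ((ν : ℤ) + 1) ^ 2 ≤ x i ^ 2 := by
    by_cases h : -(ν : ℤ) ≤ x i
    · have := hi h
      nlinarith
    · nlinarith
  exact_mod_cast this

theorem sum_box (ν : ℕ) : ∑ z ∈ box ν, 6 / (nsq z + 5) ≤ 2 + 156 * ν := by
  induction ν with
  | zero =>
    have := Finset.sum_le_card_nsmul (box 0) (fun z => 6 / (nsq z + 5)) 2 fun z _ => by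
      rw [div_le_iff₀ (by linarith [nsq_nonneg z])]; linarith [nsq_nonneg z]
    rw [card_box] at this
    simpa using this
  | succ k ih =>
    have hs : box k ⊆ box (k + 1) := fun x hx => mem_box.2 fun i => by
      have := mem_box.1 hx i
      push_cast; omega
    rw [← Finset.sum_sdiff hs]
    have h1 := Finset.sum_le_card_nsmul (box (k + 1) \ box k) (fun z => 6 / (nsq z + 5))
      (6 / ((k : ℝ) + 1) ^ 2) fun z hz => by
        have := nsq_of_not_mem (Finset.mem_sdiff.1 hz).2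
        exact div_le_div_of_nonneg_left (by norm_num) (by positivity) (by linarith)
    have h2 : ((box (k + 1) \ box k).card : ℝ) = 24 * ((k : ℝ) + 1) ^ 2 + 2 := by
      rw [Finset.cast_card_sdiff hs, card_box, card_box]; push_cast; ring
    rw [nsmul_eq_mul, h2] at h1
    have h3 : (24 * ((k : ℝ) + 1) ^ 2 + 2) * (6 / ((k : ℝ) + 1) ^ 2) ≤ 156 := by
      rw [← mul_div_assoc, div_le_iff₀ (by positivity)]
      nlinarith [Nat.cast_nonneg (α := ℝ) k]
    push_cast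
    linarith

noncomputable def b3 (y z : Z3) : ℝ := 6 / (nsq (z - y) + 5)

theorem b3_nonneg (y z : Z3) : 0 ≤ b3 y z := div_nonneg (by norm_num) (by linarith [nsq_nonneg (z - y)])

theorem b3_sum (y : Z3) (S : Finset Z3) (ν : ℕ) (h1 : 1 ≤ ν) (hS : S.card ≤ ν ^ 3) :
    ∑ z ∈ S, b3 y z ≤ 164 * ν := by
  have hν : (1 : ℝ) ≤ ν := by exact_mod_cast h1
  rw [← Finset.sum_filter_add_sum_filter_not S fun z => z - y ∈ box ν]
  have a1 : ∑ z ∈ S.filter (fun z => z - y ∈ box ν), b3 y z ≤ 2 + 156 * ν := by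
    refine le_trans ?_ (sum_box ν)
    have e := Finset.sum_image (s := S.filter fun z => z - y ∈ box ν) (g := fun z => z - y)
      (f := fun z => 6 / (nsq z + 5)) fun a _ b _ h => sub_left_injective h
    unfold b3
    rw [← e]
    refine Finset.sum_le_sum_of_subset_of_nonneg (fun x hx => ?_) fun z _ _ =>
      div_nonneg (by norm_num) (by linarith [nsq_nonneg z])
    obtain ⟨z, hz, rfl⟩ := Finset.mem_image.1 hx
    exact (Finset.mem_filter.1 hz).2
  have a2 := Finset.sum_le_card_nsmul (S.filter fun z => ¬ z - y ∈ box ν) (b3 y)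
    (6 / (ν : ℝ) ^ 2) fun z hz => by
      have := nsq_of_not_mem (Finset.mem_filter.1 hz).2
      exact div_le_div_of_nonneg_left (by norm_num) (by positivity) (by nlinarith)
  have a3 : ((S.filter fun z => ¬ z - y ∈ box ν).card : ℝ) ≤ (ν : ℝ) ^ 3 := by
    exact_mod_cast (Finset.card_filter_le _ _).trans hS
  have a4 : (ν : ℝ) ^ 3 * (6 / (ν : ℝ) ^ 2) = 6 * ν := by field_simp
  have a5 := mul_le_mul_of_nonneg_right a3 (by positivity : 0 ≤ 6 / (ν : ℝ) ^ 2)
  rw [nsmul_eq_mul] at a2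
  linarith

noncomputable def ff (lam : ℝ) (x : Z3) : ℝ := lam * nsq x - hh x

theorem hh_pos (x : Z3) : 0 < hh x := isq_pos (lt_max_of_lt_right one_pos)
theorem hh_le (x : Z3) : hh x ≤ 1 := isq_le_one (le_max_right _ _)

theorem nsq_le_out (l : L3) : nsq (O3.inn l) ≤ nsq (O3.out l) := by
  simp only [O3, inn3, out3]
  split_ifs with h
  · have : (0 : ℝ) ≤ l.1 l.2 := by exact_mod_cast h
    rw [nsq_add]; linarith
  · have : (l.1 l.2 : ℝ) ≤ -1 := by exact_mod_cast (by omega : l.1 l.2 ≤ -1)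
    rw [nsq_add]; linarith

theorem hh_anti {x y : Z3} (h : nsq x ≤ nsq y) : hh y ≤ hh x :=
  isq_anti (lt_max_of_lt_right one_pos) (max_le_max (by linarith) le_rfl)

theorem w_nonneg {lam : ℝ} (hl : 0 ≤ lam) (l : L3) : 0 ≤ O3.w (ff lam) l := by
  have h := nsq_le_out l
  have := hh_anti h
  have := mul_le_mul_of_nonneg_left h hl
  unfold OG.w ff; linarith

theorem Lap_ff (lam : ℝ) (x : Z3) : O3.Lap (ff lam) x = 6 * lam - O3.Lap hh x := by
  simp only [Lap_eq, ff, nsq_add, nsq_sub, Fin.sum_univ_three]; ring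

theorem Lap_hh_ge (x : Z3) : -6 ≤ O3.Lap hh x := by
  simp only [Lap_eq, Fin.sum_univ_three]
  linarith [hh_le x, hh_pos (x + ev 0), hh_pos (x + ev 1), hh_pos (x + ev 2), hh_pos (x - ev 0),
    hh_pos (x - ev 1), hh_pos (x - ev 2)]

theorem Lap_shift (y x : Z3) : O3.Lap (fun z => gg (z - y)) x = O3.Lap gg (x - y) := by
  simp only [Lap_eq, add_sub_right_comm, sub_right_comm x _ y]

theorem step_ge {lam : ℝ} {x z : Z3} {c : ℝ} (hx : 16 ≤ nsq x) (hc : 1 ≤ c)
    (hc2 : c ^ 2 ≤ nsq x) (hz : nsq z = nsq x - 2 * c + 1) :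
    c * (lam + isq (nsq x) / (2 * nsq x)) + (c - 1) * lam ≤ ff lam x - ff lam z := by
  have h1 : 2 * c ≤ nsq x - 3 := abs_le_of_sq_le_sq' (by nlinarith) (by linarith) |>.2
  have h2 := isq_sub_ge (u := nsq x - 3) (d := 2 * c - 1) (s := nsq x) (by linarith) (by linarith)
    (by linarith)
  have h3 : 0 ≤ isq (nsq x) / (2 * nsq x) := div_nonneg (isq_pos (by linarith)).le (by linarith)
  have h4 : nsq z - 3 = nsq x - 3 - (2 * c - 1) := by rw [hz]; ring
  unfold ff hh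
  rw [max_eq_left (by linarith), max_eq_left (by linarith), h4, hz]
  nlinarith

theorem sum_In_ge {lam : ℝ} (hl : 0 ≤ lam) {x : Z3} (hx : 16 ≤ nsq x) :
    (∑ i, |(x i : ℝ)|) * (lam + isq (nsq x) / (2 * nsq x)) ≤ ∑ l ∈ O3.In x, O3.w (ff lam) l := by
  have e : ∑ l ∈ O3.In x, O3.w (ff lam) l = ∑ l ∈ O3.In x, (ff lam x - ff lam (O3.inn l)) :=
    Finset.sum_congr rfl fun l hl => by rw [OG.w, (O3.mem_In x l).1 hl]
  rw [e, sum_In x fun y => ff lam x - ff lam y, Finset.sum_mul]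
  refine Finset.sum_le_sum fun i _ => ?_
  rcases lt_trichotomy (x i) 0 with h | h | h
  · have h' : (x i : ℝ) ≤ -1 := by exact_mod_cast (by omega : x i ≤ -1)
    rw [if_pos h, if_neg (by omega), abs_of_neg (by linarith)]
    have := step_ge (lam := lam) (z := x + ev i) (c := -x i) hx (by linarith)
      (by simpa using sq_le_nsq x i) (by rw [nsq_add]; ring)
    nlinarith
  · simp [h]
  · have h' : (1 : ℝ) ≤ x i := by exact_mod_cast (by omega : 1 ≤ x i)
    rw [if_neg (by omega), if_pos h, abs_of_pos (by linarith)]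
    have := step_ge (lam := lam) (z := x - ev i) (c := x i) hx h' (sq_le_nsq x i) (nsq_sub x i)
    nlinarith

theorem ha3 {ρ : ℝ} (hρ : 0 < ρ) {x : Z3} (hx : 16 ≤ nsq x) :
    1 / (2 * ρ ^ 2) ≤ ∑ l ∈ O3.In x, O3.w (ff (1 / ρ ^ 3)) l := by
  refine le_trans ?_ (sum_In_ge (by positivity) hx)
  set W := ∑ i, |(x i : ℝ)| with hW
  have hW0 : 0 ≤ W := Finset.sum_nonneg fun _ _ => abs_nonneg _
  have hW2 : nsq x ≤ W ^ 2 := by
    simp only [hW, nsq, Fin.sum_univ_three]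
    rw [← sq_abs (x 0 : ℝ), ← sq_abs (x 1 : ℝ), ← sq_abs (x 2 : ℝ)]
    have a := abs_nonneg (x 0 : ℝ)
    have b := abs_nonneg (x 1 : ℝ)
    have c := abs_nonneg (x 2 : ℝ)
    nlinarith [mul_nonneg a b, mul_nonneg a c, mul_nonneg b c]
  have hp := isq_pos (by linarith : 0 < nsq x)
  have h3 : 0 ≤ isq (nsq x) / (2 * nsq x) := div_nonneg hp.le (by linarith)
  rcases le_total (ρ ^ 2) (nsq x) with h | h
  · have h1 : ρ ≤ W := abs_le_of_sq_le_sq' (by linarith) hW0 |>.2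
    have h2 : 1 / (2 * ρ ^ 2) ≤ ρ * (1 / ρ ^ 3) := by
      rw [div_le_iff₀ (by positivity)]; field_simp; norm_num
    have h4 := mul_le_mul_of_nonneg_right h1 (by positivity : 0 ≤ 1 / ρ ^ 3)
    nlinarith [mul_nonneg hW0 h3]
  · have h1 : 1 ≤ W * isq (nsq x) := by
      refine abs_le_of_sq_le_sq' ?_ (by positivity) |>.2
      have := isq_sq (by linarith : 0 < nsq x)
      nlinarith [sq_nonneg (isq (nsq x))]
    have h2 : 1 / (2 * ρ ^ 2) ≤ W * isq (nsq x) / (2 * nsq x) :=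
      div_le_div₀ (by positivity) h1 (by linarith) (by linarith)
    rw [mul_add, ← mul_div_assoc W (isq _)]
    linarith [mul_nonneg hW0 (by positivity : 0 ≤ 1 / ρ ^ 3)]

theorem Pz_empty (f : Z3 → ℝ) (x : Z3) : O3.Pz f ∅ x =
    737 / 100 * ∑ l ∈ O3.Out x, O3.w f l - 765 / 100 * ∑ l ∈ O3.In x, O3.w f l := by
  simp only [OG.Pz, OG.Oz, OG.Iz, OG.OU, OG.IU, Finset.notMem_empty, not_false_eq_true,
    Finset.filter_true, Finset.sum_product, Fintype.sum_option, OG.cO, cB, cC, Finset.sum_const,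
    Finset.card_univ, Fintype.card_option, Fintype.card_fin, nsmul_eq_mul, Finset.mul_sum]
  congr 1 <;> refine Finset.sum_congr rfl fun l _ => ?_ <;> push_cast <;> ring

theorem Lap_w (f : Z3 → ℝ) (x : Z3) :
    O3.Lap f x = ∑ l ∈ O3.Out x, O3.w f l - ∑ l ∈ O3.In x, O3.w f l := by
  unfold OG.Lap
  rw [sub_eq_add_neg, ← Finset.sum_neg_distrib]
  congr 1 <;> refine Finset.sum_congr rfl fun l hl => ?_
  · rw [OG.w, (O3.mem_Out x l).1 hl]
  · rw [OG.w, (O3.mem_In x l).1 hl]; ring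

theorem out_eq (l : L3) : O3.out l = O3.inn l + ev l.2 ∨ O3.out l = O3.inn l - ev l.2 := by
  simp only [O3, inn3, out3]
  split_ifs <;> simp

theorem hyp3 {ρ : ℝ} (hρ : 400 ≤ ρ) :
    O3.Hyp (ff (1 / ρ ^ 3)) (fun y z => gg (z - y)) (fun y l => b3 y (O3.inn l)) (box 3)
      (30 * (1 / ρ ^ 3)) (1 / 5) (1 / (2 * ρ ^ 2)) := by
  have h0 : 0 < ρ := by linarith
  have hb : ∀ x ∉ box 3, 16 ≤ nsq x := fun x hx => by
    have := nsq_of_not_mem hx
    norm_num at this; exact this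
  have hL : ∀ x ∉ box 3, O3.Lap (ff (1 / ρ ^ 3)) x ≤ 30 * (1 / ρ ^ 3) * (1 / 5) := fun x hx => by
    have := Lap_hh (x := x) (by linarith [hb x hx])
    rw [Lap_ff]; linarith
  refine ⟨w_nonneg (by positivity), fun x hx => ?_, fun y x => ?_, fun y l => ?_, fun y x => ?_,
    fun x => ?_, by positivity, hL, fun x _ => ?_, fun x hx => ha3 h0 (hb x hx)⟩
  · have h1 := hL x hx
    have h2 := ha3 h0 (hb x hx)
    have h3 : 200 * (1 / ρ ^ 3) ≤ 1 / (2 * ρ ^ 2) := by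
      rw [mul_one_div, div_le_div_iff₀ (by positivity) (by positivity)]
      nlinarith [sq_nonneg ρ]
    have h4 : 0 < 1 / ρ ^ 3 := by positivity
    rw [Lap_w] at h1
    rw [Pz_empty]; linarith
  · have := nsq_nonneg (x - y)
    exact ⟨(isq_pos (by linarith)).le, isq_le_one (by linarith)⟩
  · have h5 : 5 ≤ nsq (O3.inn l - y) + 5 := by linarith [nsq_nonneg (O3.inn l - y)]
    have h6 := sq_le_nsq (O3.inn l - y) l.2
    unfold gg b3
    rcases out_eq l with h | h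
    · have := isq_grad (c := (O3.inn l - y) l.2) h5 (by linarith)
      rw [h, add_sub_right_comm, nsq_add]
      have e : nsq (O3.inn l - y) + 2 * ((O3.inn l - y) l.2 : ℝ) + 1 + 5 =
        nsq (O3.inn l - y) + 5 + 2 * ((O3.inn l - y) l.2 : ℝ) + 1 := by ring
      rw [e]; exact this
    · have := isq_grad (c := -(O3.inn l - y) l.2) h5 (by linarith)
      rw [h, sub_right_comm, nsq_sub]
      have e : nsq (O3.inn l - y) - 2 * ((O3.inn l - y) l.2 : ℝ) + 1 + 5 =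
        nsq (O3.inn l - y) + 5 + 2 * -((O3.inn l - y) l.2 : ℝ) + 1 := by ring
      rw [e]; exact this
  · rw [Lap_shift]; exact Lap_gg _
  · rw [Lap_shift, sub_self]; exact Lap_gg_zero
  · rw [Lap_ff]; linarith [Lap_hh_ge x]

theorem ff_ge {lam : ℝ} (hl : 0 ≤ lam) (x : Z3) : -1 ≤ ff lam x := by
  have := mul_nonneg hl (nsq_nonneg x)
  unfold ff; linarith [hh_le x]

noncomputable def C0 : ℝ := ∑ x ∈ box 3, 8 * ∑ l ∈ O3.Out x, (nsq (O3.out l) + 1)

theorem start_le {ρ : ℝ} (hρ : 400 ≤ ρ) : ff (1 / ρ ^ 3) 0 + O3.Psi (ff (1 / ρ ^ 3)) ∅ ≤ C0 := by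
  have H := hyp3 hρ
  have h1 : ff (1 / ρ ^ 3) 0 ≤ 0 := by
    have : nsq 0 = 0 := by simp [nsq]
    unfold ff; rw [this]; linarith [hh_pos 0]
  have hl : 1 / ρ ^ 3 ≤ 1 := by
    rw [div_le_one (by positivity)]; exact one_le_pow₀ (by linarith)
  have h2 : O3.Psi (ff (1 / ρ ^ 3)) ∅ ≤ C0 := by
    unfold OG.Psi
    rw [finsum_eq_sum_of_support_subset (s := box 3) _ fun x hx => by
      by_contra h
      exact hx (max_eq_right (H.hK x h))]
    refine Finset.sum_le_sum fun x _ => ?_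
    have a1 : ∑ l ∈ O3.Out x, O3.w (ff (1 / ρ ^ 3)) l ≤ ∑ l ∈ O3.Out x, (nsq (O3.out l) + 1) :=
      Finset.sum_le_sum fun l _ => by
        have := ff_ge (lam := 1 / ρ ^ 3) (by positivity) (O3.inn l)
        have := mul_le_mul_of_nonneg_right hl (nsq_nonneg (O3.out l))
        have := hh_pos (O3.out l)
        unfold OG.w
        rw [ff]; linarith
    have a2 : 0 ≤ ∑ l ∈ O3.Out x, O3.w (ff (1 / ρ ^ 3)) l := Finset.sum_nonneg fun l _ => H.hw l
    have a3 : 0 ≤ ∑ l ∈ O3.In x, O3.w (ff (1 / ρ ^ 3)) l := Finset.sum_nonneg fun l _ => H.hw l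
    refine max_le ?_ (by linarith)
    rw [Pz_empty]; linarith
  linarith

end Pool.Agent.P.MP_b2ff63_pr
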