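import Mathlib

namespace Pool.Agent.P.MP_b2ff63_pr

noncomputable def isq (v : ℝ) : ℝ := (Real.sqrt v)⁻¹

theorem isq_pos {v : ℝ} (h : 0 < v) : 0 < isq v := inv_pos.2 (Real.sqrt_pos.2 h)

theorem isq_sq {v : ℝ} (h : 0 < v) : isq v ^ 2 * v = 1 := by
  unfold isq
  rw [inv_pow, Real.sq_sqrt h.le, inv_mul_cancel₀ h.ne']

theorem le_isq {v p : ℝ} (h : 0 < v) (hp : p ^ 2 * v ≤ 1) : p ≤ isq v := by
  refine abs_le_of_sq_le_sq' ?_ (isq_pos h).le |>.2
  rw [← isq_sq h] at hp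
  exact le_of_mul_le_mul_right hp h

theorem isq_le {v p : ℝ} (h : 0 < v) (h0 : 0 ≤ p) (hp : 1 ≤ p ^ 2 * v) : isq v ≤ p := by
  refine abs_le_of_sq_le_sq' ?_ h0 |>.2
  rw [← isq_sq h] at hp
  exact le_of_mul_le_mul_right hp h

theorem isq_anti {u v : ℝ} (h : 0 < u) (huv : u ≤ v) : isq v ≤ isq u :=
  inv_anti₀ (Real.sqrt_pos.2 h) (Real.sqrt_le_sqrt huv)

theorem isq_le_one {v : ℝ} (h : 1 ≤ v) : isq v ≤ 1 := isq_le (by linarith) zero_le_one (by simpa)

theorem isq_scale {m : ℝ} (h : 0 < m) (u : ℝ) : isq (m + u) = isq m * isq (1 + u / m) := by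
  unfold isq
  rw [← mul_inv, ← Real.sqrt_mul h.le]
  congr 2
  field_simp

theorem isq_lower {t : ℝ} (h1 : -1 < t) (h2 : t < 1) :
    1 - t / 2 + 3 * t ^ 2 / 8 - 5 * t ^ 3 / 16 ≤ isq (1 + t) := by
  refine le_isq (by linarith) ?_
  have : 1 - (1 - t / 2 + 3 * t ^ 2 / 8 - 5 * t ^ 3 / 16) ^ 2 * (1 + t) =
      t ^ 4 * (35 / 64 - 7 * t / 32 + 35 * t ^ 2 / 256 - 25 * t ^ 3 / 256) := by ring
  have h3 : 0 ≤ 35 / 64 - 7 * t / 32 + 35 * t ^ 2 / 256 - 25 * t ^ 3 / 256 := by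
    have : t ^ 3 ≤ t ^ 2 := by nlinarith [sq_nonneg t]
    nlinarith [sq_nonneg t]
  have := mul_nonneg (by positivity : 0 ≤ t ^ 4) h3
  linarith

theorem isq_upper {t : ℝ} (h : t ^ 2 ≤ 1 / 6) :
    isq (1 + t) ≤ 1 - t / 2 + 3 * t ^ 2 / 8 - 5 * t ^ 3 / 16 + t ^ 4 / 2 := by
  have h1 : - (41 / 100) ≤ t := by nlinarith
  have h2 : t ≤ 41 / 100 := by nlinarith
  have h4 : 0 ≤ t ^ 2 := sq_nonneg t
  have h5 : |t ^ 3| ≤ 41 / 100 * t ^ 2 := by
    rw [abs_le]; constructor <;> nlinarith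
  rw [abs_le] at h5
  refine isq_le (by linarith) (by nlinarith [sq_nonneg (t ^ 2)]) ?_
  have : (1 - t / 2 + 3 * t ^ 2 / 8 - 5 * t ^ 3 / 16 + t ^ 4 / 2) ^ 2 * (1 + t) - 1 =
      t ^ 4 * (29 / 64 + 23 * t / 32 - 67 * t ^ 2 / 256 + 41 * t ^ 3 / 256 - t ^ 4 / 16 +
        t ^ 5 / 4) := by ring
  have h6 : t ^ 4 ≤ 1 / 36 := by nlinarith
  have h7 : - (1 / 80) ≤ t ^ 5 := by
    have : t ^ 5 = t * t ^ 4 := by ring
    nlinarith [sq_nonneg (t ^ 2)]
  have h3 : 0 ≤ 29 / 64 + 23 * t / 32 - 67 * t ^ 2 / 256 + 41 * t ^ 3 / 256 - t ^ 4 / 16 +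
      t ^ 5 / 4 := by nlinarith
  have := mul_nonneg (by positivity : 0 ≤ t ^ 4) h3
  linarith

theorem pair_lower {m u : ℝ} (hm : 0 < m) (h : |u| < m) :
    isq m * (2 + 3 / 4 * (u / m) ^ 2) ≤ isq (m + u) + isq (m - u) := by
  rw [abs_lt] at h
  have h1 : -1 < u / m := by rw [lt_div_iff₀ hm]; linarith
  have h2 : u / m < 1 := by rw [div_lt_iff₀ hm]; linarith
  have a := isq_lower h1 h2
  have b := isq_lower (t := - (u / m)) (by linarith) (by linarith)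
  rw [sub_eq_add_neg, isq_scale hm, isq_scale hm (-u), ← mul_add, neg_div]
  refine mul_le_mul_of_nonneg_left ?_ (isq_pos hm).le
  nlinarith

theorem pair_upper {m u : ℝ} (hm : 0 < m) (h : (u / m) ^ 2 ≤ 1 / 6) :
    isq (m + u) + isq (m - u) ≤ isq m * (2 + 3 / 4 * (u / m) ^ 2 + (u / m) ^ 4) := by
  have a := isq_upper h
  have b := isq_upper (t := - (u / m)) (by rwa [neg_sq])
  rw [sub_eq_add_neg, isq_scale hm, isq_scale hm (-u), ← mul_add, neg_div]
  refine mul_le_mul_of_nonneg_left ?_ (isq_pos hm).le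
  nlinarith

theorem pred_upper {m : ℝ} (hm : 2 ≤ m) :
    isq (m - 1) ≤ isq m * (1 + 1 / m / 2 + (1 / m) ^ 2) := by
  have h0 : 0 < m := by linarith
  have h1 : 0 < 1 / m := by positivity
  have h2 : 1 / m ≤ 1 / 2 := one_div_le_one_div_of_le (by norm_num) hm
  rw [sub_eq_add_neg, isq_scale h0, neg_div]
  refine mul_le_mul_of_nonneg_left ?_ (isq_pos h0).le
  generalize 1 / m = t at *
  refine isq_le (by linarith) (by positivity) ?_
  have : (1 + t / 2 + t ^ 2) ^ 2 * (1 + -t) - 1 = t ^ 2 * (5 / 4 - 5 * t / 4 - t ^ 3) := by ring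
  have h3 : t ^ 3 ≤ 1 / 8 := by nlinarith [sq_nonneg t]
  have := mul_nonneg (sq_nonneg t) (by linarith : 0 ≤ 5 / 4 - 5 * t / 4 - t ^ 3)
  linarith

theorem pred_lower {m : ℝ} (hm : 2 ≤ m) : isq m * (1 + 1 / m / 2) ≤ isq (m - 1) := by
  have h0 : 0 < m := by linarith
  have h1 : 0 < 1 / m := by positivity
  have h2 : 1 / m ≤ 1 / 2 := one_div_le_one_div_of_le (by norm_num) hm
  rw [sub_eq_add_neg, isq_scale h0, neg_div]
  refine mul_le_mul_of_nonneg_left ?_ (isq_pos h0).le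
  generalize 1 / m = t at *
  refine le_isq (by linarith) ?_
  nlinarith [sq_nonneg t, mul_pos h1 (mul_pos h1 h1)]

/-- Lower bound for the decrease of the inverse square root. -/
theorem isq_sub_ge {u d s : ℝ} (hu : 0 < u - d) (hd : 0 ≤ d) (hs : u ≤ s) :
    d * (isq s / (2 * s)) ≤ isq (u - d) - isq u := by
  have h0 : 0 < u := by linarith
  have h1 : isq u * (1 + d / u / 2) ≤ isq (u - d) := by
    rw [sub_eq_add_neg, isq_scale h0, neg_div]
    refine mul_le_mul_of_nonneg_left ?_ (isq_pos h0).le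
    have h2 : 0 ≤ d / u := by positivity
    have h3 : d / u < 1 := by rw [div_lt_one h0]; linarith
    generalize d / u = t at *
    refine le_isq (by linarith) ?_
    nlinarith [sq_nonneg t, mul_nonneg h2 (mul_nonneg h2 h2)]
  have h2 := isq_anti h0 hs
  have h3 : isq s / (2 * s) ≤ isq u / (2 * u) :=
    div_le_div₀ (isq_pos h0).le h2 (by positivity) (by linarith)
  have h4 := mul_le_mul_of_nonneg_left h3 hd
  have : isq u * (1 + d / u / 2) = isq u + d * (isq u / (2 * u)) := by field_simp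
  linarith

/-- Gradient bound. -/
theorem isq_grad {u c : ℝ} (hu : 5 ≤ u) (hc : c ^ 2 ≤ u - 5) :
    |isq (u + 2 * c + 1) - isq u| ≤ 6 / u := by
  set r := Real.sqrt u with hr
  have h0 : 0 < u := by linarith
  have hr2 : r ^ 2 = u := Real.sq_sqrt h0.le
  have hr0 : 2 ≤ r := Real.le_sqrt_of_sq_le (by linarith)
  have hc1 : |c| ≤ r := abs_le_of_sq_le_sq' (by linarith) (by linarith) |> fun h => abs_le.2 h
  rw [abs_le] at hc1
  have hq : r / 2 ≤ Real.sqrt (u + 2 * c + 1) := Real.le_sqrt_of_sq_le (by nlinarith)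
  have hq2 : Real.sqrt (u + 2 * c + 1) ^ 2 = u + 2 * c + 1 := Real.sq_sqrt (by nlinarith)
  unfold isq
  rw [← hr]
  generalize Real.sqrt (u + 2 * c + 1) = q at *
  have hq0 : 0 < q := by linarith
  have hr1 : 0 < r := by linarith
  have e : q⁻¹ - r⁻¹ = - (2 * c + 1) / (q * r * (q + r)) := by
    have : - (2 * c + 1) = (r - q) * (q + r) := by nlinarith
    rw [this]; field_simp
  rw [e, abs_div, abs_of_pos (by positivity : 0 < q * r * (q + r)),
    div_le_div_iff₀ (by positivity) h0, ← hr2]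
  have h5 : |- (2 * c + 1)| ≤ 3 * r := by rw [abs_le]; constructor <;> linarith
  have h6 : r / 2 * r * r ≤ q * r * (q + r) := by
    have := mul_le_mul_of_nonneg_right hq hr1.le
    exact mul_le_mul this (by linarith) hr1.le (by positivity)
  have h7 := mul_le_mul_of_nonneg_right h5 (sq_nonneg r)
  nlinarith

end Pool.Agent.P.MP_b2ff63_pr
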