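import Pool.Agent.P.MP_b2ff63_pr.Walk
import Pool.Agent.P.MP_b2ff63_pr.Sqrt

namespace Pool.Agent.P.MP_b2ff63_pr

abbrev Z3 : Type := Fin 3 → ℤ
abbrev L3 : Type := Z3 × Fin 3

def ev (i : Fin 3) : Z3 := Pi.single i 1

def inn3 (l : L3) : Z3 := if 0 ≤ l.1 l.2 then l.1 else l.1 + ev l.2
def out3 (l : L3) : Z3 := if 0 ≤ l.1 l.2 then l.1 + ev l.2 else l.1
def Out3 (x : Z3) : Finset L3 :=
  (Finset.univ.filter fun i => 0 ≤ x i).image (fun i => (x, i)) ∪
    (Finset.univ.filter fun i => x i ≤ 0).image fun i => (x - ev i, i)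
def In3 (x : Z3) : Finset L3 :=
  (Finset.univ.filter fun i => x i < 0).image (fun i => (x, i)) ∪
    (Finset.univ.filter fun i => 0 < x i).image fun i => (x - ev i, i)

theorem ev_self (i : Fin 3) : ev i i = 1 := by simp [ev]

theorem add_ev_ne (x : Z3) (i : Fin 3) : x + ev i ≠ x := fun h => by
  have := congrFun h i
  simp [ev_self] at this

theorem mem_pair {x : Z3} {p q : Fin 3 → Prop} [DecidablePred p] [DecidablePred q] {l : L3} :
    l ∈ (Finset.univ.filter p).image (fun i => (x, i)) ∪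
      (Finset.univ.filter q).image (fun i => (x - ev i, i)) ↔
      (p l.2 ∧ l.1 = x) ∨ (q l.2 ∧ l.1 + ev l.2 = x) := by
  obtain ⟨z, i⟩ := l
  simp only [Finset.mem_union, Finset.mem_image, Finset.mem_filter, Finset.mem_univ, true_and,
    Prod.mk.injEq]
  constructor
  · rintro (⟨j, h, rfl, rfl⟩ | ⟨j, h, rfl, rfl⟩)
    · exact Or.inl ⟨h, rfl⟩
    · exact Or.inr ⟨h, by simp⟩
  · rintro (⟨h, rfl⟩ | ⟨h, rfl⟩)
    · exact Or.inl ⟨i, h, rfl, rfl⟩
    · exact Or.inr ⟨i, h, by simp, rfl⟩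

theorem sum_pair' (x : Z3) (p q : Fin 3 → Prop) [DecidablePred p] [DecidablePred q] (F : L3 → ℝ) :
    ∑ l ∈ (Finset.univ.filter p).image (fun i => (x, i)) ∪
      (Finset.univ.filter q).image (fun i => (x - ev i, i)), F l =
      ∑ i, ((if p i then F (x, i) else 0) + if q i then F (x - ev i, i) else 0) := by
  rw [Finset.sum_union, Finset.sum_image (fun a _ b _ h => (Prod.mk.inj h).2),
    Finset.sum_image (fun a _ b _ h => (Prod.mk.inj h).2), Finset.sum_filter, Finset.sum_filter,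
    Finset.sum_add_distrib]
  rw [Finset.disjoint_left]
  intro l h1 h2
  obtain ⟨i, -, rfl⟩ := Finset.mem_image.1 h1
  obtain ⟨j, -, e⟩ := Finset.mem_image.1 h2
  exact add_ev_ne x j (sub_eq_iff_eq_add.1 (Prod.mk.inj e).1).symm

/-- The cubic lattice with edges oriented towards the origin. -/
def O3 : OG Z3 L3 where
  inn := inn3
  out := out3
  ne := fun l => by
    unfold inn3 out3
    split_ifs
    · exact (add_ev_ne _ _).symm
    · exact add_ev_ne _ _
  In := In3
  Out := Out3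
  mem_In := fun x l => by
    unfold In3 out3
    rw [mem_pair]
    split_ifs with h
    · constructor
      · rintro (⟨h1, rfl⟩ | ⟨-, h1⟩)
        · omega
        · exact h1
      · rintro rfl
        exact Or.inr ⟨by simp [ev_self]; omega, rfl⟩
    · constructor
      · rintro (⟨-, h1⟩ | ⟨h1, rfl⟩)
        · exact h1
        · simp [ev_self] at h1; omega
      · rintro rfl
        exact Or.inl ⟨by omega, rfl⟩
  mem_Out := fun x l => by
    unfold Out3 inn3
    rw [mem_pair]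
    split_ifs with h
    · constructor
      · rintro (⟨-, h1⟩ | ⟨h1, rfl⟩)
        · exact h1
        · simp [ev_self] at h1; omega
      · rintro rfl
        exact Or.inl ⟨h, rfl⟩
    · constructor
      · rintro (⟨h1, rfl⟩ | ⟨-, h1⟩)
        · omega
        · exact h1
      · rintro rfl
        exact Or.inr ⟨by simp [ev_self]; omega, rfl⟩
  card := fun x => by
    have h1 := sum_pair' x (fun i => 0 ≤ x i) (fun i => x i ≤ 0) fun _ => 1
    have h2 := sum_pair' x (fun i => x i < 0) (fun i => 0 < x i) fun _ => 1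
    rw [Finset.sum_const, nsmul_eq_mul, mul_one] at h1 h2
    have h3 : ((Out3 x).card : ℝ) + (In3 x).card = ∑ _i : Fin 3, (2 : ℝ) := by
      unfold Out3 In3
      rw [h1, h2, ← Finset.sum_add_distrib]
      refine Finset.sum_congr rfl fun i _ => ?_
      split_ifs <;> first | omega | norm_num
    simp only [Finset.sum_const, Finset.card_univ, Fintype.card_fin, nsmul_eq_mul] at h3
    have : ((Out3 x).card : ℝ) + (In3 x).card = 6 := by rw [h3]; norm_num
    exact_mod_cast this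

theorem sum_Out (x : Z3) (F : Z3 → ℝ) : ∑ l ∈ O3.Out x, F (O3.out l) =
    ∑ i, ((if 0 ≤ x i then F (x + ev i) else 0) + if x i ≤ 0 then F (x - ev i) else 0) := by
  refine (sum_pair' x _ _ _).trans (Finset.sum_congr rfl fun i _ => ?_)
  congr 1
  · split_ifs with h
    · simp [O3, out3, h]
    · rfl
  · split_ifs with h
    · have : ¬ 0 ≤ (x - ev i) i := by simp [ev_self]; omega
      simp only [O3, out3, this, if_false]
    · rfl

theorem sum_In (x : Z3) (F : Z3 → ℝ) : ∑ l ∈ O3.In x, F (O3.inn l) =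
    ∑ i, ((if x i < 0 then F (x + ev i) else 0) + if 0 < x i then F (x - ev i) else 0) := by
  refine (sum_pair' x _ _ _).trans (Finset.sum_congr rfl fun i _ => ?_)
  congr 1
  · split_ifs with h
    · simp [O3, inn3, not_le.2 h]
    · rfl
  · split_ifs with h
    · have : 0 ≤ (x - ev i) i := by simp [ev_self]; omega
      simp only [O3, inn3, this, if_true]
    · rfl

theorem Lap_eq (F : Z3 → ℝ) (x : Z3) :
    O3.Lap F x = ∑ i, (F (x + ev i) + F (x - ev i)) - 6 * F x := by
  unfold OG.Lap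
  rw [sum_Out x fun y => F y - F x, sum_In x fun y => F y - F x, ← Finset.sum_add_distrib]
  have : 6 * F x = ∑ _i : Fin 3, 2 * F x := by simp; ring
  rw [this, ← Finset.sum_sub_distrib]
  refine Finset.sum_congr rfl fun i _ => ?_
  split_ifs <;> first | omega | ring

/-- Squared Euclidean norm. -/
def nsq (x : Z3) : ℝ := ∑ i, (x i : ℝ) ^ 2

theorem nsq_nonneg (x : Z3) : 0 ≤ nsq x := Finset.sum_nonneg fun _ _ => sq_nonneg _

theorem nsq_add (x : Z3) (i : Fin 3) : nsq (x + ev i) = nsq x + 2 * x i + 1 := by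
  fin_cases i <;> simp [nsq, ev, Fin.sum_univ_three] <;> ring

theorem nsq_sub (x : Z3) (i : Fin 3) : nsq (x - ev i) = nsq x - 2 * x i + 1 := by
  fin_cases i <;> simp [nsq, ev, Fin.sum_univ_three] <;> ring

theorem sq_le_nsq (x : Z3) (i : Fin 3) : (x i : ℝ) ^ 2 ≤ nsq x :=
  Finset.single_le_sum (f := fun i => (x i : ℝ) ^ 2) (fun _ _ => sq_nonneg _) (Finset.mem_univ i)

noncomputable def gg (x : Z3) : ℝ := isq (nsq x + 5)
noncomputable def hh (x : Z3) : ℝ := isq (max (nsq x - 3) 1)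

theorem Lap_gg (x : Z3) : O3.Lap gg x ≤ 0 := by
  have hs := nsq_nonneg x
  set m := nsq x + 6 with hm
  have h0 : 0 < m := by linarith
  have h1 : ∀ i, gg (x + ev i) + gg (x - ev i) ≤
      isq m * (2 + 3 / 4 * (2 * x i / m) ^ 2 + (2 * x i / m) ^ 4) := fun i => by
    have := pair_upper (u := 2 * x i) h0 (by
      rw [div_pow, div_le_iff₀ (by positivity)]
      nlinarith [sq_le_nsq x i, sq_nonneg (nsq x - 6)])
    unfold gg
    rw [nsq_add, nsq_sub]
    convert this using 3 <;> ring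
  have h2 := pred_lower (m := m) (by linarith)
  have h3 : gg x = isq (m - 1) := by unfold gg; congr 1; ring
  have h4 : ∑ i, (2 * x i / m) ^ 2 = 4 * nsq x / m ^ 2 := by
    simp only [nsq, Fin.sum_univ_three]; field_simp; ring
  have h5 : ∑ i, (2 * x i / m) ^ 4 ≤ (4 * nsq x / m ^ 2) ^ 2 := by
    rw [← h4]
    simp only [Fin.sum_univ_three]
    nlinarith [mul_nonneg (sq_nonneg (2 * x 0 / m)) (sq_nonneg (2 * x 1 / m)),
      mul_nonneg (sq_nonneg (2 * x 0 / m)) (sq_nonneg (2 * x 2 / m)),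
      mul_nonneg (sq_nonneg (2 * x 1 / m)) (sq_nonneg (2 * x 2 / m))]
  have h6 : 3 / 4 * (4 * nsq x / m ^ 2) + (4 * nsq x / m ^ 2) ^ 2 ≤ 3 * (1 / m) := by
    have e : 3 * (1 / m) - (3 / 4 * (4 * nsq x / m ^ 2) + (4 * nsq x / m ^ 2) ^ 2) =
        (18 * m ^ 2 - 16 * nsq x ^ 2) / m ^ 4 := by
      field_simp; rw [hm]; ring
    have : 0 ≤ (18 * m ^ 2 - 16 * nsq x ^ 2) / m ^ 4 := div_nonneg (by nlinarith) (by positivity)
    linarith
  rw [Lap_eq, h3]
  have hp := isq_pos h0
  simp only [Fin.sum_univ_three] at h4 h5 ⊢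
  have h8 : isq m * (3 / 4 * (4 * nsq x / m ^ 2) +
      ((2 * x 0 / m) ^ 4 + (2 * x 1 / m) ^ 4 + (2 * x 2 / m) ^ 4)) ≤ isq m * (3 * (1 / m)) :=
    mul_le_mul_of_nonneg_left (by linarith) hp.le
  rw [← h4] at h8
  linarith [h1 0, h1 1, h1 2]

theorem Lap_gg_zero : O3.Lap gg 0 ≤ - (1 / 5) := by
  have h1 : isq 6 ≤ 41 / 100 := isq_le (by norm_num) (by norm_num) (by norm_num)
  have h2 : 447 / 1000 ≤ isq 5 := le_isq (by norm_num) (by norm_num)
  have h0 : nsq 0 = 0 := by simp [nsq]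
  rw [Lap_eq]
  simp only [gg, nsq_add, nsq_sub, h0, Fin.sum_univ_three, Pi.zero_apply]
  norm_num
  linarith

theorem Lap_hh {x : Z3} (hx : 10 ≤ nsq x) : 0 ≤ O3.Lap hh x := by
  set m := nsq x - 2 with hm
  have h0 : 0 < m := by linarith
  have hb : ∀ i, |2 * (x i : ℝ)| ≤ m - 1 := fun i =>
    abs_le_of_sq_le_sq (by nlinarith [sq_le_nsq x i]) (by linarith)
  have h1 : ∀ i, isq m * (2 + 3 / 4 * (2 * x i / m) ^ 2) ≤ hh (x + ev i) + hh (x - ev i) :=
    fun i => by
      have := pair_lower (u := 2 * x i) h0 (by linarith [hb i])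
      have hb' := abs_le.1 (hb i)
      unfold hh
      rw [nsq_add, nsq_sub, max_eq_left (by linarith), max_eq_left (by linarith)]
      convert this using 3 <;> ring
  have h2 := pred_upper (m := m) (by linarith)
  have h3 : hh x = isq (m - 1) := by
    unfold hh; rw [max_eq_left (by linarith)]; congr 1; ring
  have h4 : ∑ i, (2 * x i / m) ^ 2 = 4 * nsq x / m ^ 2 := by
    simp only [nsq, Fin.sum_univ_three]; field_simp; ring
  have h6 : 3 / 4 * (4 * nsq x / m ^ 2) = 3 * (1 / m) + 6 * (1 / m) ^ 2 := by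
    field_simp; rw [hm]; ring
  rw [Lap_eq, h3]
  have hp := isq_pos h0
  simp only [Fin.sum_univ_three] at h4 ⊢
  have h8 : isq m * (3 / 4 * (4 * nsq x / m ^ 2)) = isq m * (3 * (1 / m) + 6 * (1 / m) ^ 2) := by
    rw [h6]
  rw [← h4] at h8
  have h9 : 0 ≤ isq m * (1 / m) ^ 2 := by positivity
  linarith [h1 0, h1 1, h1 2]

end Pool.Agent.P.MP_b2ff63_pr
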