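import Pool.Agent.P.MP_b2ff63_pr.Reduce
import Pool.Agent.P.MP_b2ff63_pr.Guard

namespace Pool.Agent.P.MP_b2ff63_pr

/-- A 6-regular oriented graph: every edge has an inner and an outer endpoint. -/
structure OG (Z L : Type) where
  inn : L → Z
  out : L → Z
  ne : ∀ l, inn l ≠ out l
  In : Z → Finset L
  Out : Z → Finset L
  mem_In : ∀ x l, l ∈ In x ↔ out l = x
  mem_Out : ∀ x l, l ∈ Out x ↔ inn l = x
  card : ∀ x, (Out x).card + (In x).card = 6

abbrev WW (Z L : Type) : Type := Z ⊕ (L × Fin 16 × Fin 4)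
abbrev EE (L : Type) : Type := L × Option (Fin 16 × Fin 7)

def emb {L : Type} (k : Fin 7) (p : L × Option (Fin 16)) : EE L := (p.1, p.2.map fun j => (j, k))

theorem emb_inj {L : Type} (k : Fin 7) : Function.Injective (emb (L := L) k) := by
  rintro ⟨l, o⟩ ⟨l', o'⟩ h
  simp only [emb, Prod.mk.injEq] at h
  obtain ⟨rfl, h⟩ := h
  cases o <;> cases o' <;> simp_all

namespace OG
variable {Z L : Type} [DecidableEq Z] [DecidableEq L] (O : OG Z L)

def gvx (l : L) (j : Fin 16) : Fin 6 → WW Z L :=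
  ![Sum.inl (O.inn l), Sum.inr (l, j, 0), Sum.inr (l, j, 1), Sum.inr (l, j, 2), Sum.inr (l, j, 3),
    Sum.inl (O.out l)]

omit [DecidableEq Z] [DecidableEq L] in
theorem gvx_up (l : L) (j : Fin 16) (c : Fin 4) : O.gvx l j (up c) = Sum.inr (l, j, c) := by
  fin_cases c <;> rfl

omit [DecidableEq Z] [DecidableEq L] in
theorem gvx_inj (l : L) (j : Fin 16) : Function.Injective (O.gvx l j) := by
  intro c c' h
  have := O.ne l
  fin_cases c <;> fin_cases c' <;> simp_all [gvx]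

omit [DecidableEq Z] [DecidableEq L] in
theorem gvx_eq_inl {l : L} {j : Fin 16} {c : Fin 6} {x : Z} : O.gvx l j c = Sum.inl x ↔
    (c = 0 ∧ O.inn l = x) ∨ (c = 5 ∧ O.out l = x) := by
  fin_cases c <;> simp [gvx]

omit [DecidableEq Z] [DecidableEq L] in
theorem gvx_eq_inr {l l' : L} {j j' : Fin 16} {c : Fin 6} {c' : Fin 4} :
    O.gvx l j c = Sum.inr (l', j', c') ↔ l = l' ∧ j = j' ∧ c = up c' := by
  fin_cases c <;> fin_cases c' <;> simp [gvx, up]

def ea : EE L → WW Z L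
  | (l, none) => Sum.inl (O.inn l)
  | (l, some (j, k)) => O.gvx l j (ga k)

def eb : EE L → WW Z L
  | (l, none) => Sum.inl (O.out l)
  | (l, some (j, k)) => O.gvx l j (gb k)

def elen : EE L → ℕ
  | (_, none) => 2
  | (_, some (_, k)) => glen k

def einc : WW Z L → Finset (EE L)
  | Sum.inl x => (O.Out x ×ˢ Finset.univ).image (emb 0) ∪ (O.In x ×ˢ Finset.univ).image (emb 6)
  | Sum.inr (l, j, c) => (ginc (up c)).image fun k => (l, some (j, k))

theorem mem_einc (w : WW Z L) (e : EE L) : e ∈ O.einc w ↔ O.ea e = w ∨ O.eb e = w := by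
  obtain ⟨l, o⟩ := e
  rcases w with x | ⟨l', j', c'⟩
  · simp only [einc, Finset.mem_union, Finset.mem_image, Finset.mem_product, Finset.mem_univ,
      and_true, O.mem_In, O.mem_Out, emb, Prod.mk.injEq, Prod.exists]
    rcases o with _ | ⟨j, k⟩
    · simp [ea, eb]
    · have h1 : ∀ k : Fin 7, (ga k = 0 ↔ 0 = k) ∧ ga k ≠ 5 ∧ gb k ≠ 0 ∧ (gb k = 5 ↔ 6 = k) := by
        decide
      simp [ea, eb, gvx_eq_inl, h1 k, and_comm]
  · rcases o with _ | ⟨j, k⟩
    · simp [einc, ea, eb]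
    · simp only [einc, Finset.mem_image, ginc, Finset.mem_filter, Finset.mem_univ, true_and,
        Prod.mk.injEq, Option.some.injEq, ea, eb, gvx_eq_inr]
      constructor
      · rintro ⟨k', h, rfl, rfl, rfl⟩
        simpa using h
      · rintro (⟨rfl, rfl, h⟩ | ⟨rfl, rfl, h⟩)
        · exact ⟨k, Or.inl h, rfl, rfl, rfl⟩
        · exact ⟨k, Or.inr h, rfl, rfl, rfl⟩

/-- The multigraph: one main edge and 16 valves for each edge of the oriented graph. -/
def mg : MG (WW Z L) (EE L) where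
  a := O.ea
  b := O.eb
  len := elen
  two_le := by
    rintro ⟨l, _ | ⟨j, k⟩⟩
    · exact le_rfl
    · show 2 ≤ glen k
      fin_cases k <;> simp [glen]
  ne := by
    rintro ⟨l, _ | ⟨j, k⟩⟩
    · exact fun h => O.ne l (Sum.inl_injective h)
    · exact fun h => (by decide : ∀ k, ga k ≠ gb k) k (O.gvx_inj l j h)
  inc := O.einc
  mem_inc := O.mem_einc
  inc_ne := by
    rintro (x | ⟨l, j, c⟩)
    · have := O.card x
      rcases Nat.eq_zero_or_pos (O.Out x).card with h | h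
      · obtain ⟨l, hl⟩ := Finset.card_pos.1 (by omega : 0 < (O.In x).card)
        exact ⟨emb 6 (l, none), Finset.mem_union_right _
          (Finset.mem_image_of_mem _ (by simpa using hl))⟩
      · obtain ⟨l, hl⟩ := Finset.card_pos.1 h
        exact ⟨emb 0 (l, none), Finset.mem_union_left _
          (Finset.mem_image_of_mem _ (by simpa using hl))⟩
    · exact Finset.image_nonempty.2 ((by decide : ∀ c, (ginc (up c)).Nonempty) c)

def OU (A : Finset (EE L)) (x : Z) : Finset (L × Option (Fin 16)) :=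
  (O.Out x ×ˢ Finset.univ).filter fun p => emb 0 p ∉ A
def IU (A : Finset (EE L)) (x : Z) : Finset (L × Option (Fin 16)) :=
  (O.In x ×ˢ Finset.univ).filter fun p => emb 6 p ∉ A

omit [DecidableEq Z] in
theorem mem_OU {A : Finset (EE L)} {x : Z} {p : L × Option (Fin 16)} :
    p ∈ O.OU A x ↔ O.inn p.1 = x ∧ emb 0 p ∉ A := by simp [OU, O.mem_Out]

omit [DecidableEq Z] in
theorem mem_IU {A : Finset (EE L)} {x : Z} {p : L × Option (Fin 16)} :
    p ∈ O.IU A x ↔ O.out p.1 = x ∧ emb 6 p ∉ A := by simp [IU, O.mem_In]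

theorem sum_hub (A : Finset (EE L)) (x : Z) (F : EE L → ℝ) :
    ∑ e ∈ O.mg.inc (Sum.inl x) \ A, F e =
      ∑ p ∈ O.OU A x, F (emb 0 p) + ∑ p ∈ O.IU A x, F (emb 6 p) := by
  have h : O.mg.inc (Sum.inl x) \ A = (O.OU A x).image (emb 0) ∪ (O.IU A x).image (emb 6) := by
    ext e
    simp only [mg, einc, OU, IU, Finset.mem_sdiff, Finset.mem_union, Finset.mem_image,
      Finset.mem_filter]
    constructor
    · rintro ⟨⟨p, hp, rfl⟩ | ⟨p, hp, rfl⟩, h⟩
      · exact Or.inl ⟨p, ⟨hp, h⟩, rfl⟩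
      · exact Or.inr ⟨p, ⟨hp, h⟩, rfl⟩
    · rintro (⟨p, ⟨hp, h⟩, rfl⟩ | ⟨p, ⟨hp, h⟩, rfl⟩)
      · exact ⟨Or.inl ⟨p, hp, rfl⟩, h⟩
      · exact ⟨Or.inr ⟨p, hp, rfl⟩, h⟩
  rw [h, Finset.sum_union, Finset.sum_image fun a _ b _ q => emb_inj 0 q,
    Finset.sum_image fun a _ b _ q => emb_inj 6 q]
  rw [Finset.disjoint_left]
  intro e h1 h2
  obtain ⟨p, hp, rfl⟩ := Finset.mem_image.1 h1
  obtain ⟨q, hq, e⟩ := Finset.mem_image.1 h2
  have : q.1 = p.1 := congrArg (Prod.fst : EE L → L) e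
  exact O.ne p.1 ((O.mem_OU.1 hp).1.trans (this ▸ (O.mem_IU.1 hq).1).symm)

theorem sum_hub_all (x : Z) (F : EE L → ℝ) :
    ∑ e ∈ O.mg.inc (Sum.inl x), F e =
      ∑ l ∈ O.Out x, (F (l, none) + ∑ j, F (l, some (j, 0))) +
        ∑ l ∈ O.In x, (F (l, none) + ∑ j, F (l, some (j, 6))) := by
  have := O.sum_hub ∅ x F
  rw [Finset.sdiff_empty] at this
  rw [this]
  simp [OU, IU, Finset.sum_product, emb]

theorem card_hub (x : Z) : (O.mg.inc (Sum.inl x)).card = 102 := by
  have h := O.sum_hub_all x fun _ => 1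
  have h2 : ((O.Out x).card : ℝ) + (O.In x).card = 6 := by exact_mod_cast O.card x
  simp only [Finset.sum_const, nsmul_eq_mul, mul_one, Finset.card_univ, Fintype.card_fin] at h
  have : ((O.mg.inc (Sum.inl x)).card : ℝ) = 102 := by rw [h]; push_cast; linarith
  exact_mod_cast this

theorem oth_out_main (l : L) : O.mg.oth (l, none) (Sum.inl (O.inn l)) = Sum.inl (O.out l) := by
  unfold MG.oth; exact if_pos rfl

theorem oth_in_main (l : L) : O.mg.oth (l, none) (Sum.inl (O.out l)) = Sum.inl (O.inn l) := by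
  unfold MG.oth; exact if_neg (fun h => O.ne l (Sum.inl_injective h))

theorem oth_g (l : L) (j : Fin 16) (k : Fin 7) (c : Fin 6) :
    O.mg.oth (l, some (j, k)) (O.gvx l j c) = O.gvx l j (goth k c) := by
  unfold MG.oth goth
  by_cases h : ga k = c
  · rw [if_pos h]; exact if_pos (congrArg (O.gvx l j) h)
  · rw [if_neg h]; exact if_neg (fun q => h (O.gvx_inj l j q))

theorem oth_out_g (l : L) (j : Fin 16) :
    O.mg.oth (l, some (j, 0)) (Sum.inl (O.inn l)) = Sum.inr (l, j, 0) := O.oth_g l j 0 0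

theorem oth_in_g (l : L) (j : Fin 16) :
    O.mg.oth (l, some (j, 6)) (Sum.inl (O.out l)) = Sum.inr (l, j, 3) := O.oth_g l j 6 5

/-- The state of one valve. -/
def sig (A : Finset (EE L)) (l : L) (j : Fin 16) : Finset (Fin 7) :=
  Finset.univ.filter fun k => (l, some (j, k)) ∈ A

omit [DecidableEq Z] in
theorem mem_sig {A : Finset (EE L)} {l : L} {j : Fin 16} {k : Fin 7} :
    k ∈ sig A l j ↔ (l, some (j, k)) ∈ A := by simp [sig]

theorem sum_int (A : Finset (EE L)) (l : L) (j : Fin 16) (c : Fin 4) (F : EE L → ℝ) :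
    ∑ e ∈ O.mg.inc (Sum.inr (l, j, c)) \ A, F e =
      ∑ k ∈ ginc (up c) \ sig A l j, F (l, some (j, k)) := by
  have h : O.mg.inc (Sum.inr (l, j, c)) \ A =
      (ginc (up c) \ sig A l j).image fun k => (l, some (j, k)) := by
    ext e
    simp only [mg, einc, Finset.mem_sdiff, Finset.mem_image, mem_sig]
    constructor
    · rintro ⟨⟨k, hk, rfl⟩, h⟩
      exact ⟨k, ⟨hk, h⟩, rfl⟩
    · rintro ⟨k, ⟨hk, h⟩, rfl⟩
      exact ⟨⟨k, hk, rfl⟩, h⟩
  rw [h, Finset.sum_image fun a _ b _ q => by simpa using q]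

end OG
end Pool.Agent.P.MP_b2ff63_pr
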