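import Pool.Agent.P.MP_b2ff63_pr.Step

namespace Pool.Agent.P.MP_b2ff63_pr
open Pool.Agent.Lib.GRW
namespace OG
variable {Z L : Type} [DecidableEq Z] [DecidableEq L] (O : OG Z L)

def hub (z : Z) : O.mg.V := Sum.inl (Sum.inl z)

/-- The oriented edge whose gadget contains a vertex that is not a hub. -/
def lat : O.mg.V → Option L
  | Sum.inl (Sum.inl _) => none
  | Sum.inl (Sum.inr q) => some q.1
  | Sum.inr p => some p.1.1.1

theorem end_cases {e : EE L} {v : WW Z L} (h : O.mg.a e = v ∨ O.mg.b e = v) :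
    v = Sum.inl (O.inn e.1) ∨ v = Sum.inl (O.out e.1) ∨ ∃ j c, v = Sum.inr (e.1, j, c) := by
  have key : ∀ l j c, O.gvx l j c = Sum.inl (O.inn l) ∨ O.gvx l j c = Sum.inl (O.out l) ∨
      ∃ j' c', O.gvx l j c = Sum.inr (l, j', c') := by
    intro l j c
    fin_cases c <;> simp [gvx]
  obtain ⟨l, _ | ⟨j, k⟩⟩ := e
  · rcases h with rfl | rfl
    · exact Or.inl rfl
    · exact Or.inr (Or.inl rfl)
  · rcases h with rfl | rfl
    · exact key l j _
    · exact key l j _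

theorem pt_lat (e : EE L) {k : ℕ} (hk : k ≤ O.mg.len e) :
    O.mg.pt e k = O.hub (O.inn e.1) ∨ O.mg.pt e k = O.hub (O.out e.1) ∨
      O.lat (O.mg.pt e k) = some e.1 := by
  rcases O.mg.pt_cases e hk with ⟨-, h⟩ | ⟨-, h⟩ | ⟨h', h⟩ <;> rw [h]
  · rcases O.end_cases (Or.inl rfl : O.mg.a e = _ ∨ _) with q | q | ⟨j, c, q⟩ <;> rw [q]
    · exact Or.inl rfl
    · exact Or.inr (Or.inl rfl)
    · exact Or.inr (Or.inr rfl)
  · rcases O.end_cases (Or.inr rfl : _ ∨ O.mg.b e = _) with q | q | ⟨j, c, q⟩ <;> rw [q]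
    · exact Or.inl rfl
    · exact Or.inr (Or.inl rfl)
    · exact Or.inr (Or.inr rfl)
  · exact Or.inr (Or.inr rfl)

theorem adj_lat {u v : O.mg.V} (h : O.mg.G.Adj u v) : ∃ l,
    (u = O.hub (O.inn l) ∨ u = O.hub (O.out l) ∨ O.lat u = some l) ∧
    (v = O.hub (O.inn l) ∨ v = O.hub (O.out l) ∨ O.lat v = some l) := by
  obtain ⟨e, k, hk, q⟩ := h
  rcases Sym2.eq_iff.1 q with ⟨rfl, rfl⟩ | ⟨rfl, rfl⟩
  · exact ⟨e.1, O.pt_lat e hk.le, O.pt_lat e hk⟩
  · exact ⟨e.1, O.pt_lat e hk, O.pt_lat e hk.le⟩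

open Classical in
/-- Hubs visited strictly before time `t`. -/
noncomputable def Hs (x : ℕ → O.mg.V) (t : ℕ) : Finset Z :=
  ((Finset.range t).image x).preimage O.hub fun _ _ _ _ h =>
    Sum.inl_injective (Sum.inl_injective h)

theorem mem_Hs {x : ℕ → O.mg.V} {t : ℕ} {z : Z} : z ∈ O.Hs x t ↔ ∃ s < t, x s = O.hub z := by
  simp [Hs]

theorem lat_valid {o : Z} {t : ℕ} {x : ℕ → O.mg.V} (h : Valid O.mg.G (O.hub o) t x) {l : L}
    (hl : O.lat (x t) = some l) : O.inn l ∈ O.Hs x t ∨ O.out l ∈ O.Hs x t := by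
  induction t with
  | zero => rw [h.1] at hl; simp [lat, hub] at hl
  | succ t ih =>
    obtain ⟨l', h1, h2⟩ := O.adj_lat (adj_of_mem_nextSet _ (h.2 t (Nat.lt_succ_self _)))
    have : l' = l := by
      rcases h2 with q | q | q
      · rw [q] at hl; simp [lat, hub] at hl
      · rw [q] at hl; simp [lat, hub] at hl
      · exact Option.some_injective _ (q.symm.trans hl)
    subst this
    simp only [mem_Hs] at ih ⊢
    rcases h1 with q | q | q
    · exact Or.inl ⟨t, Nat.lt_succ_self _, q⟩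
    · exact Or.inr ⟨t, Nat.lt_succ_self _, q⟩
    · rcases ih (h.mono (Nat.le_succ _)) q with ⟨s, hs, e⟩ | ⟨s, hs, e⟩
      · exact Or.inl ⟨s, hs.trans (Nat.lt_succ_self _), e⟩
      · exact Or.inr ⟨s, hs.trans (Nat.lt_succ_self _), e⟩

theorem Hs_mono (x : ℕ → O.mg.V) {s t : ℕ} (h : s ≤ t) : O.Hs x s ⊆ O.Hs x t := fun _ hz => by
  obtain ⟨u, hu, e⟩ := O.mem_Hs.1 hz
  exact O.mem_Hs.2 ⟨u, lt_of_lt_of_le hu h, e⟩

theorem tch_near {o : Z} {t : ℕ} {x : ℕ → O.mg.V} (h : Valid O.mg.G (O.hub o) t x) {e : EE L}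
    (he : e ∈ O.mg.tch x t) : O.inn e.1 ∈ O.Hs x t ∨ O.out e.1 ∈ O.Hs x t := by
  obtain ⟨k, hk, s, hs, q⟩ := O.mg.mem_tch.1 he
  have : ∃ j ≤ O.mg.len e, x s = O.mg.pt e j := by
    rcases Sym2.eq_iff.1 q with ⟨q, -⟩ | ⟨q, -⟩
    · exact ⟨k, hk.le, q⟩
    · exact ⟨k + 1, hk, q⟩
  obtain ⟨j, hj, q⟩ := this
  rcases O.pt_lat e hj with r | r | r
  · exact Or.inl (O.mem_Hs.2 ⟨s, hs, q.trans r⟩)
  · exact Or.inr (O.mem_Hs.2 ⟨s, hs, q.trans r⟩)
  · exact (O.lat_valid (h.mono hs.le) (q ▸ r)).imp (fun a => O.Hs_mono x hs.le a)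
      fun a => O.Hs_mono x hs.le a

theorem card_VA {o : Z} {t : ℕ} {x : ℕ → O.mg.V} (h : Valid O.mg.G (O.hub o) t x) :
    (O.VA (O.mg.tch x t)).card ≤ (O.Hs x t).card * 7 := by
  refine le_trans (Finset.card_le_card (t := (O.Hs x t).biUnion fun z =>
    insert z ((O.Out z).image O.out ∪ (O.In z).image O.inn)) fun y hy => ?_)
    (Finset.card_biUnion_le_card_mul _ _ _ fun z _ => ?_)
  · obtain ⟨e, he, hy⟩ := Finset.mem_biUnion.1 hy
    simp only [Finset.mem_insert, Finset.mem_singleton] at hy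
    simp only [Finset.mem_biUnion, Finset.mem_insert, Finset.mem_union, Finset.mem_image,
      O.mem_Out, O.mem_In]
    rcases O.tch_near h he with q | q <;> rcases hy with rfl | rfl
    · exact ⟨_, q, Or.inl rfl⟩
    · exact ⟨_, q, Or.inr (Or.inl ⟨_, rfl, rfl⟩)⟩
    · exact ⟨_, q, Or.inr (Or.inr ⟨_, rfl, rfl⟩)⟩
    · exact ⟨_, q, Or.inl rfl⟩
  · have h1 := Finset.card_insert_le z ((O.Out z).image O.out ∪ (O.In z).image O.inn)
    have h2 := Finset.card_union_le ((O.Out z).image O.out) ((O.In z).image O.inn)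
    have h3 := Finset.card_image_le (s := O.Out z) (f := O.out)
    have h4 := Finset.card_image_le (s := O.In z) (f := O.inn)
    have := O.card z
    omega

theorem sum_le_VA (A : Finset (EE L)) (b : Z → ℝ) (hb : ∀ z, 0 ≤ b z) :
    ∑ e ∈ A, b (O.inn e.1) ≤ 678 * ∑ z ∈ O.VA A, b z := by
  rw [← Finset.sum_fiberwise_of_maps_to (s := A) (t := O.VA A) (g := fun e => O.inn e.1)
    (fun e he => Finset.mem_biUnion.2 ⟨e, he, Finset.mem_insert_self _ _⟩), Finset.mul_sum]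
  refine Finset.sum_le_sum fun z _ => ?_
  rw [Finset.sum_congr rfl (g := fun _ => b z) fun e he => by rw [(Finset.mem_filter.1 he).2],
    Finset.sum_const, nsmul_eq_mul]
  refine mul_le_mul_of_nonneg_right ?_ (hb z)
  have h1 : (A.filter fun e => O.inn e.1 = z) ⊆ O.Out z ×ˢ Finset.univ := fun e he => by
    simp [O.mem_Out, (Finset.mem_filter.1 he).2]
  have h2 := Finset.card_le_card h1
  rw [Finset.card_product] at h2
  simp only [Finset.card_univ, Fintype.card_option, Fintype.card_prod, Fintype.card_fin] at h2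
  have h3 := O.card z
  have : (A.filter fun e => O.inn e.1 = z).card ≤ 678 := by omega
  exact_mod_cast this

theorem finite_lat (l : L) : {v : O.mg.V | O.lat v = some l}.Finite := by
  have h1 : {v : O.mg.V | O.lat v = some l} ⊆
      (Set.range fun q : Fin 16 × Fin 4 => (Sum.inl (Sum.inr (l, q)) : O.mg.V)) ∪
        ⋃ o : Option (Fin 16 × Fin 7), O.mg.pt (l, o) '' Set.Iio (O.mg.len (l, o)) := by
    rintro ((z | ⟨l', q⟩) | ⟨⟨⟨l', o⟩, k⟩, hk⟩) h
    · simp [lat] at h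
    · obtain rfl : l' = l := by simpa [lat] using h
      exact Or.inl ⟨q, rfl⟩
    · obtain rfl : l' = l := by simpa [lat] using h
      exact Or.inr (Set.mem_iUnion.2 ⟨o, k, hk.2, O.mg.pt_int hk⟩)
  exact ((Set.finite_range _).union
    (Set.finite_iUnion fun _ => (Set.finite_Iio _).image _)).subset h1

theorem infinite_hubs {o : Z} {x : ℕ → O.mg.V} (h : ∀ t, Valid O.mg.G (O.hub o) t x)
    (hf : ∀ v, {t | x t = v}.Finite) (N : ℕ) : ∃ t, N ≤ (O.Hs x t).card := by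
  by_contra hN
  push Not at hN
  have h1 : {z | ∃ t, x t = O.hub z}.Finite := by
    by_contra hinf
    obtain ⟨S, hS, hc⟩ := (Set.not_finite.1 hinf).exists_subset_card_eq N
    have hS' : ∀ z ∈ S, ∃ t, x t = O.hub z := fun z hz => hS hz
    choose! τ hτ using hS'
    have : S ⊆ O.Hs x (S.sup τ + 1) := fun z hz =>
      O.mem_Hs.2 ⟨τ z, Nat.lt_succ_of_le (Finset.le_sup (f := τ) hz), hτ z hz⟩
    have := Finset.card_le_card this
    have := hN (S.sup τ + 1)
    omega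
  have h2 : (Set.range x).Finite := by
    refine ((h1.image O.hub).union (h1.biUnion fun z _ =>
      ((O.Out z ∪ O.In z).finite_toSet.biUnion fun l _ => O.finite_lat l))).subset ?_
    rintro _ ⟨t, rfl⟩
    rcases hl : O.lat (x t) with _ | l
    · left
      rcases hx : x t with (z | q) | p
      · exact ⟨z, ⟨t, hx⟩, rfl⟩
      · rw [hx] at hl; simp [lat] at hl
      · rw [hx] at hl; simp [lat] at hl
    · right
      simp only [Set.mem_iUnion]
      rcases O.lat_valid (h t) hl with q | q <;> obtain ⟨s, -, e⟩ := O.mem_Hs.1 q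
      · exact ⟨_, ⟨s, e⟩, l, by simp [O.mem_Out], hl⟩
      · exact ⟨_, ⟨s, e⟩, l, by simp [O.mem_In], hl⟩
  have h3 : (Set.univ : Set ℕ).Finite :=
    (h2.biUnion fun v _ => hf v).subset fun t _ => Set.mem_biUnion ⟨t, rfl⟩ rfl
  exact Set.infinite_univ h3

end OG
end Pool.Agent.P.MP_b2ff63_pr
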