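import Pool.Agent.Lib.GRW.Parity
import Pool.Agent.Lib.GRW.Stop

/-! The charge of a vertex: steps made while stuck, out minus in. -/

open MeasureTheory
open scoped ENNReal

namespace Pool.Agent.P.MP_b2ff63_pr.Os
open Pool.Agent.Lib.GRW

variable {V : Type} {G : SimpleGraph V} [G.LocallyFinite] {v₀ : V}

open Classical in
/-- The charge of `v` at time `t`. -/
noncomputable def chg (G : SimpleGraph V) [G.LocallyFinite] (x : ℕ → V) : ℕ → V → ℤ
  | 0, v => if v = x 0 then -1 else 0
  | t + 1, v => chg G x t v + if (freshNbrs G x t).Nonempty then 0 else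
      (if v = x t then 1 else 0) - (if v = x (t + 1) then 1 else 0)

theorem used_succ_stuck {x : ℕ → V} {t : ℕ} (hx : x (t + 1) ∈ nextSet G x t)
    (hs : ¬ (freshNbrs G x t).Nonempty) (v : V) : used G x (t + 1) v = used G x t v := by
  ext u
  rw [mem_used_succ, or_iff_left_iff_imp]
  rintro ⟨ha, e⟩
  have h1 : x (t + 1) ∉ freshNbrs G x t := fun h => hs ⟨_, h⟩
  rw [mem_freshNbrs] at h1
  have h2 : ¬ ∀ s < t, s(x s, x (s + 1)) ≠ s(x t, x (t + 1)) :=
    fun h => h1 ⟨adj_of_mem_nextSet G hx, h⟩
  push Not at h2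
  obtain ⟨s, hs, q⟩ := h2
  exact mem_used.2 ⟨ha, s, hs, q.trans e⟩

open Classical in
theorem chg_parity {x : ℕ → V} {t : ℕ} (hx : Valid G v₀ t x) (v : V) :
    (((used G x t v).card : ℤ) + chg G x t v + if v = x t then 1 else 0) % 2 = 0 := by
  induction t with
  | zero =>
    have : used G x 0 v = ∅ := by
      ext u; simp [mem_used]
    rw [this, chg]
    split_ifs <;> simp
  | succ t ih =>
    have h1 := ih (hx.mono (Nat.le_succ _))
    have h2 := hx.2 t (Nat.lt_succ_self _)
    rw [chg]
    by_cases hs : (freshNbrs G x t).Nonempty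
    · rw [card_used_succ_fresh (fresh_of_mem_nextSet hs h2), if_pos hs]
      push_cast
      split_ifs at h1 ⊢ <;> omega
    · rw [used_succ_stuck h2 hs, if_neg hs]
      split_ifs at h1 ⊢ <;> omega

theorem used_mono (x : ℕ → V) (t : ℕ) (v : V) : used G x t v ⊆ used G x (t + 1) v :=
  fun _ hu => mem_used_succ.2 (Or.inl hu)

theorem chg_inv {x : ℕ → V} {t : ℕ} (hx : Valid G v₀ t x) (v : V) :
    chg G x t v ≤ 0 ∨ (chg G x t v = 1 ∧ v ≠ x t ∧ Odd (G.degree v) ∧
      G.neighborFinset v ⊆ used G x t v) := by
  classical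
  induction t with
  | zero =>
    left
    rw [chg]
    split_ifs <;> simp
  | succ t ih =>
    have hv := hx.mono (Nat.le_succ t)
    have h1 := ih hv
    have h2 := hx.2 t (Nat.lt_succ_self _)
    have ha := adj_of_mem_nextSet G h2
    rw [chg]
    by_cases hs : (freshNbrs G x t).Nonempty
    · rw [if_pos hs, add_zero]
      rcases h1 with h1 | ⟨a, b, c, d⟩
      · exact Or.inl h1
      · refine Or.inr ⟨a, fun e => ?_, c, d.trans (used_mono x t v)⟩
        have h3 := (mem_freshNbrs G).1 (fresh_of_mem_nextSet hs h2)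
        have h4 : x t ∈ used G x t v := d (by rw [e]; simpa using ha.symm)
        obtain ⟨s, hs', q⟩ := (mem_used.1 h4).2
        exact h3.2 s hs' (by rw [q, e, Sym2.eq_swap])
    · rw [if_neg hs]
      by_cases e1 : v = x t
      · have e2 : v ≠ x (t + 1) := e1 ▸ ha.ne
        rw [if_pos e1, if_neg e2]
        have h3 : chg G x t v ≤ 0 := h1.resolve_right fun h => h.2.1 e1
        rcases h3.lt_or_eq with h3 | h3
        · left; omega
        · have h4 := card_used_add_fresh (G := G) x t
          rw [Finset.not_nonempty_iff_eq_empty.1 hs, Finset.card_empty, add_zero, ← e1] at h4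
          have h5 := chg_parity hv v
          rw [if_pos e1, h3, h4] at h5
          refine Or.inr ⟨by omega, e2, Nat.odd_iff.2 (by omega), ?_⟩
          refine Finset.Subset.trans (fun u hu => ?_) (used_mono x t v)
          have h6 : used G x t v = G.neighborFinset v :=
            Finset.eq_of_subset_of_card_le
              (fun w hw => by simpa using (mem_used.1 hw).1)
              (by rw [h4, SimpleGraph.card_neighborFinset_eq_degree])
          rwa [h6]
      · rw [if_neg e1]
        by_cases e2 : v = x (t + 1)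
        · rw [if_pos e2]
          left
          rcases h1 with h1 | h1 <;> omega
        · rw [if_neg e2]
          rcases h1 with h1 | ⟨a, b, c, d⟩
          · left; omega
          · exact Or.inr ⟨by omega, e2, c, d.trans (used_mono x t v)⟩

open Classical in
/-- The increments of `f` along the steps made while stuck. -/
noncomputable def inc (G : SimpleGraph V) [G.LocallyFinite] (f : V → ℝ) (x : ℕ → V) (t : ℕ) : ℝ :=
  ∑ s ∈ Finset.range t, if (freshNbrs G x s).Nonempty then 0 else f (x (s + 1)) - f (x s)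

theorem sum_chg (f : V → ℝ) (x : ℕ → V) (t : ℕ) (S : Finset V) (hS : ∀ s ≤ t, x s ∈ S) :
    ∑ v ∈ S, f v * (chg G x t v : ℝ) = -f (x 0) - inc G f x t := by
  classical
  induction t with
  | zero =>
    simp only [chg, inc, Finset.range_zero, Finset.sum_empty, sub_zero]
    rw [Finset.sum_eq_single (x 0) (fun b _ hb => by simp [hb])
      (fun h => absurd (hS 0 le_rfl) h)]
    simp
  | succ t ih =>
    have h1 := ih fun s hs => hS s (hs.trans (Nat.le_succ _))
    unfold inc at h1 ⊢
    rw [Finset.sum_range_succ]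
    simp only [chg]
    by_cases hs : (freshNbrs G x t).Nonempty
    · simp only [if_pos hs, add_zero]
      exact h1
    · simp only [if_neg hs]
      push_cast
      simp only [mul_add, mul_sub, Finset.sum_add_distrib, Finset.sum_sub_distrib, mul_ite,
        mul_one, mul_zero, Finset.sum_ite_eq', hS t (Nat.le_succ _), hS (t + 1) le_rfl, if_true]
      rw [h1]
      ring

theorem inc_lower {f : V → ℝ} (hf : ∀ v, 0 ≤ f v) {C : ℝ}
    (hC : ∀ S : Finset V, (∀ v ∈ S, Odd (G.degree v)) → ∑ v ∈ S, f v ≤ C)
    {x : ℕ → V} {t : ℕ} (hx : Valid G v₀ t x) : 0 ≤ C + f v₀ + inc G f x t := by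
  classical
  have h1 := sum_chg (G := G) f x t ((Finset.range (t + 1)).image x)
    (fun s hs => Finset.mem_image.2 ⟨s, Finset.mem_range.2 (by omega), rfl⟩)
  have h2 := hC (((Finset.range (t + 1)).image x).filter fun v => Odd (G.degree v))
    (fun v hv => (Finset.mem_filter.1 hv).2)
  rw [Finset.sum_filter] at h2
  have h3 : ∑ v ∈ (Finset.range (t + 1)).image x, f v * (chg G x t v : ℝ) ≤
      ∑ v ∈ (Finset.range (t + 1)).image x, if Odd (G.degree v) then f v else 0 := by
    refine Finset.sum_le_sum fun v _ => ?_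
    rcases chg_inv hx v with h | ⟨a, -, c, -⟩
    · have h4 : (chg G x t v : ℝ) ≤ 0 := by exact_mod_cast h
      have h5 := mul_nonpos_of_nonneg_of_nonpos (hf v) h4
      have h6 := hf v
      split_ifs <;> linarith
    · rw [a, if_pos c]; simp
  rw [hx.1] at h1
  linarith

end Pool.Agent.P.MP_b2ff63_pr.Os
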