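import Mathlib

open scoped ENNReal

namespace Pool.Agent.P.MP_b2ff63_pr.Os

open Classical in
/-- Probability that the simple random walk started at `v` is at `o` at time `n`. -/
noncomputable def srwProb {V : Type} (G : SimpleGraph V) [G.LocallyFinite] (o : V) :
    ℕ → V → ℝ≥0∞
  | 0, v => if v = o then 1 else 0
  | n + 1, v => (G.degree v : ℝ≥0∞)⁻¹ * ∑ w ∈ G.neighborFinset v, srwProb G o n w

/-- The Green function: expected number of visits to `o` of the simple random walk from `v`. -/
noncomputable def green {V : Type} (G : SimpleGraph V) [G.LocallyFinite] (v o : V) : ℝ≥0∞ :=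
  ∑' n, srwProb G o n v

end Pool.Agent.P.MP_b2ff63_pr.Os
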