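import Pool.Agent.P.MP_b2ff63_pr.OsCharge
import Pool.Agent.P.MP_b2ff63_pr.OsDefs
import Pool.Agent.Lib.GRW.Exist

/-! Transience from a superharmonic function that is summable over the odd vertices. -/

open MeasureTheory
open scoped ENNReal

namespace Pool.Agent.P.MP_b2ff63_pr.Os
open Pool.Agent.Lib.GRW

variable {V : Type} {G : SimpleGraph V} [G.LocallyFinite] {v₀ : V}

open Classical in
/-- The rewards collected while stuck. -/
noncomputable def rew (G : SimpleGraph V) [G.LocallyFinite] (r : V → ℝ) (x : ℕ → V) (t : ℕ) : ℝ :=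
  ∑ s ∈ Finset.range t, if (freshNbrs G x s).Nonempty then 0 else r (x s)

theorem inc_congr (f : V → ℝ) {x y : ℕ → V} {t : ℕ} (h : ∀ s ≤ t, x s = y s) :
    inc G f x t = inc G f y t := by
  refine Finset.sum_congr rfl fun s hs => ?_
  have hs' := Finset.mem_range.1 hs
  rw [freshNbrs_congr G (x := x) (y := y) (t := s) fun u hu => h u (by omega), h s hs'.le,
    h (s + 1) hs']

theorem rew_congr (r : V → ℝ) {x y : ℕ → V} {t : ℕ} (h : ∀ s < t, x s = y s) :
    rew G r x t = rew G r y t := by
  refine Finset.sum_congr rfl fun s hs => ?_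
  have hs' := Finset.mem_range.1 hs
  rw [freshNbrs_congr G (x := x) (y := y) (t := s) fun u hu => h u (by omega), h s hs']

theorem rew_mono {r : V → ℝ} (hr : ∀ v, 0 ≤ r v) (x : ℕ → V) : Monotone (rew G r x) := by
  refine monotone_nat_of_le_succ fun t => ?_
  unfold rew
  rw [Finset.sum_range_succ]
  have := hr (x t)
  split_ifs <;> linarith

theorem finite_greedy {x : ℕ → V} (hx : ∀ t, Valid G v₀ t x) (o : V) :
    {s | x s = o ∧ (freshNbrs G x s).Nonempty}.Finite := by
  refine Set.Finite.of_finite_image (f := fun s => x (s + 1))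
    ((G.neighborFinset o).finite_toSet.subset ?_) ?_
  · rintro _ ⟨s, hs, rfl⟩
    have := adj_of_mem_nextSet G ((hx (s + 1)).2 s (Nat.lt_succ_self _))
    rw [hs.1] at this
    simpa using this
  · have key : ∀ s s', s < s' → x s = o → x s' = o → (freshNbrs G x s').Nonempty →
        x (s + 1) ≠ x (s' + 1) := by
      intro s s' h e e' hf q
      have h1 := (mem_freshNbrs G).1
        (fresh_of_mem_nextSet hf ((hx (s' + 1)).2 s' (Nat.lt_succ_self _)))
      exact h1.2 s h (by rw [e, e', q])
    intro s hs s' hs' q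
    rcases lt_trichotomy s s' with h | h | h
    · exact absurd q (key s s' h hs.1 hs'.1 hs'.2)
    · exact h
    · exact absurd q.symm (key s' s h hs'.1 hs.1 hs.2)

theorem rew_unbounded {r : V → ℝ} (hr : ∀ v, 0 ≤ r v) {x : ℕ → V} (hx : ∀ t, Valid G v₀ t x)
    {o : V} (hi : {t | x t = o}.Infinite) (n : ℕ) : ∃ t, n * r o ≤ rew G r x t := by
  have h1 := hi.sdiff (finite_greedy hx o)
  induction n with
  | zero => exact ⟨0, by simp [rew]⟩
  | succ n ih =>
    obtain ⟨t, ht⟩ := ih
    obtain ⟨s, hs, hts⟩ := h1.exists_gt t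
    refine ⟨s + 1, ?_⟩
    have h2 : ¬ (freshNbrs G x s).Nonempty := fun h => hs.2 ⟨hs.1, h⟩
    have h3 := rew_mono (G := G) hr x hts.le
    have h4 : rew G r x (s + 1) = rew G r x s + r o := by
      unfold rew
      rw [Finset.sum_range_succ, if_neg h2, show x s = o from hs.1]
    push_cast
    linarith

theorem finite_visits [Countable V] (hG : ∀ v, ∃ w, G.Adj v w) {f r : V → ℝ} (hf : ∀ v, 0 ≤ f v)
    (hr : ∀ v, 0 ≤ r v) (hs : ∀ v, (∑ w ∈ G.neighborFinset v, f w) / G.degree v + r v ≤ f v)
    {C : ℝ} (hC : ∀ S : Finset V, (∀ v ∈ S, Odd (G.degree v)) → ∑ v ∈ S, f v ≤ C)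
    {Ω : Type} [MeasurableSpace Ω] {P : Measure Ω} {X : ℕ → Ω → V} (h : IsGRW G v₀ P X)
    {o : V} (ho : 0 < r o) : ∀ᵐ ω ∂P, {t | X t ω = o}.Finite := by
  classical
  have hrew : ∀ x t, 0 ≤ rew G r x t := fun x t => by
    have := rew_mono (G := G) hr x (Nat.zero_le t)
    simpa [rew] using this
  have key : ∀ (t : ℕ) (d : ℝ), 0 < d → P {ω | d ≤ rew G r (fun s => X s ω) t} ≤
      ENNReal.ofReal ((C + f v₀) / d) := by
    intro t d hd
    have := h.measure_le_of_super (fun t x => C + f v₀ + inc G f x t + rew G r x t)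
      (fun t y z hyz => by
        rw [inc_congr f hyz, rew_congr r fun s hs => hyz s hs.le])
      (fun t x hx => add_nonneg (inc_lower hf hC hx) (hrew x t))
      (fun t x hx => by
        have hne := nextSet_nonempty G hG x t
        have hu : ∀ w, ∀ s ≤ t, Function.update x (t + 1) w s = x s := fun w s hs =>
          Function.update_of_ne (by omega) _ _
        by_cases hst : (freshNbrs G x t).Nonempty
        · have : (fun w => C + f v₀ + inc G f (Function.update x (t + 1) w) (t + 1) +
              rew G r (Function.update x (t + 1) w) (t + 1)) =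
              fun _ => (C + f v₀ + inc G f x t + rew G r x t) + 0 := by
            funext w
            have e1 := inc_congr (G := G) f (hu w)
            have e2 := rew_congr (G := G) r (t := t) fun s hs => hu w s hs.le
            unfold inc rew at *
            rw [Finset.sum_range_succ, Finset.sum_range_succ, e1, e2,
              freshNbrs_congr G (hu w), if_pos hst, if_pos hst]
            ring
          rw [this, avg_const_add hne]
          simp [avg]
        · have : (fun w => C + f v₀ + inc G f (Function.update x (t + 1) w) (t + 1) +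
              rew G r (Function.update x (t + 1) w) (t + 1)) =
              fun w => (C + f v₀ + inc G f x t + rew G r x t - f (x t) + r (x t)) + f w := by
            funext w
            have e1 := inc_congr (G := G) f (hu w)
            have e2 := rew_congr (G := G) r (t := t) fun s hs => hu w s hs.le
            unfold inc rew at *
            rw [Finset.sum_range_succ, Finset.sum_range_succ, e1, e2,
              freshNbrs_congr G (hu w), if_neg hst, if_neg hst, Function.update_self,
              hu w t le_rfl]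
            ring
          rw [this, avg_const_add hne]
          have e3 : avg G x t f = (∑ w ∈ G.neighborFinset (x t), f w) / G.degree (x t) := by
            unfold avg nextSet
            rw [if_neg hst, SimpleGraph.card_neighborFinset_eq_degree]
          have := hs (x t)
          rw [e3]
          linarith)
      t d hd {ω | d ≤ rew G r (fun s => X s ω) t}
      (fun ω hω hv => by
        have h1 := inc_lower hf hC hv
        have h2 : d ≤ rew G r (fun s => X s ω) t := hω
        linarith)
    simpa [inc, rew] using this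
  have key2 : ∀ d : ℝ, 0 < d → P (⋃ t, {ω | d ≤ rew G r (fun s => X s ω) t}) ≤
      ENNReal.ofReal ((C + f v₀) / d) := by
    intro d hd
    have hm : Monotone fun t => {ω | d ≤ rew G r (fun s => X s ω) t} :=
      fun t t' htt ω hω => le_trans hω (rew_mono hr _ htt)
    rw [hm.measure_iUnion]
    exact iSup_le fun t => key t d hd
  have key3 : P {ω | (∀ t, Valid G v₀ t fun s => X s ω) ∧ {t | X t ω = o}.Infinite} = 0 := by
    refine le_antisymm (ge_of_tendsto' (f := fun n : ℕ =>
      ENNReal.ofReal ((C + f v₀) / (((n + 1 : ℕ) : ℝ) * r o))) (x := Filter.atTop) ?_ fun n => ?_)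
      zero_le
    · rw [← ENNReal.ofReal_zero]
      refine ENNReal.tendsto_ofReal (Filter.Tendsto.div_atTop tendsto_const_nhds ?_)
      exact Filter.Tendsto.atTop_mul_const ho
        (tendsto_natCast_atTop_atTop.comp (Filter.tendsto_add_atTop_nat 1))
    · refine le_trans (measure_mono fun ω hω => ?_) (key2 _ (by positivity))
      obtain ⟨t, ht⟩ := rew_unbounded hr hω.1 hω.2 (n + 1)
      exact Set.mem_iUnion.2 ⟨t, ht⟩
  filter_upwards [h.ae_valid, measure_eq_zero_iff_ae_notMem.1 key3] with ω h1 h2
  by_contra h3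
  exact h2 ⟨h1, h3⟩

/-- The tail of the Green function. -/
noncomputable def tail (G : SimpleGraph V) [G.LocallyFinite] (o : V) (k : ℕ) (v : V) : ℝ≥0∞ :=
  ∑' n, srwProb G o (n + k) v

theorem tail_eq (o : V) (k : ℕ) (v : V) : tail G o k v = srwProb G o k v +
    (G.degree v : ℝ≥0∞)⁻¹ * ∑ w ∈ G.neighborFinset v, tail G o k w := by
  unfold tail
  rw [tsum_eq_zero_add' ENNReal.summable, zero_add,
    ← Summable.tsum_finsetSum fun _ _ => ENNReal.summable, ← ENNReal.tsum_mul_left]
  congr 1
  refine tsum_congr fun n => ?_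
  rw [show n + 1 + k = (n + k) + 1 by ring, srwProb]

theorem tail_le (o : V) (k : ℕ) (v : V) : tail G o k v ≤ green G v o :=
  ENNReal.tsum_comp_le_tsum_of_injective (add_left_injective k) fun n => srwProb G o n v

theorem green_adj {o v w : V} (h : G.Adj v w) (hv : green G v o ≠ ⊤) : green G w o ≠ ⊤ := by
  intro hw
  apply hv
  have e : ∀ u, green G u o = tail G o 0 u := fun u => rfl
  rw [e, tail_eq]
  have h1 : ∑ u ∈ G.neighborFinset v, tail G o 0 u = ⊤ :=
    ENNReal.sum_eq_top.2 ⟨w, by simpa using h, hw⟩
  rw [h1, ENNReal.mul_top (by simp), add_top]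

theorem green_fin (hc : G.Connected) {o : V} (ho : green G o o ≠ ⊤) (v : V) :
    green G v o ≠ ⊤ := by
  have key : ∀ {a b : V} (_ : G.Walk a b), green G a o ≠ ⊤ → green G b o ≠ ⊤ := by
    intro a b p
    induction p with
    | nil => exact id
    | cons h _ ih => exact fun ha => ih (green_adj h ha)
  obtain ⟨p⟩ := hc.preconnected o v
  exact key p ho

theorem srwProb_pos {v o : V} (p : G.Walk v o) : srwProb G o p.length v ≠ 0 := by
  induction p with
  | nil => simp [srwProb]
  | @cons a b c h p ih =>
    rw [SimpleGraph.Walk.length_cons, srwProb]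
    refine mul_ne_zero (by simp) fun e => ih ?_
    exact Finset.sum_eq_zero_iff.1 e b (by simpa using h)

theorem exists_adj (hc : G.Connected) [Nontrivial V] (v : V) : ∃ w, G.Adj v w := by
  obtain ⟨u, hu⟩ := exists_ne v
  obtain ⟨p⟩ := hc.preconnected v u
  cases p with
  | nil => exact absurd rfl hu
  | cons h _ => exact ⟨_, h⟩

theorem countable_of_connected (hc : G.Connected) : Countable V := by
  classical
  obtain ⟨o⟩ := hc.nonempty
  have key : ∀ n : ℕ, {v | ∃ p : G.Walk o v, p.length = n}.Finite := by
    intro n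
    induction n with
    | zero =>
      refine (Set.finite_singleton o).subset ?_
      rintro v ⟨p, hp⟩
      exact (SimpleGraph.Walk.eq_of_length_eq_zero hp).symm
    | succ n ih =>
      refine (ih.biUnion fun u _ => (G.neighborFinset u).finite_toSet).subset ?_
      rintro v ⟨p, hp⟩
      have hn : ¬ p.reverse.Nil := by
        rw [SimpleGraph.Walk.not_nil_iff_lt_length, SimpleGraph.Walk.length_reverse]; omega
      obtain ⟨u, h, q, e⟩ := SimpleGraph.Walk.not_nil_iff.1 hn
      have hl := congrArg SimpleGraph.Walk.length e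
      rw [SimpleGraph.Walk.length_reverse, SimpleGraph.Walk.length_cons] at hl
      refine Set.mem_biUnion (x := u) ⟨q.reverse, ?_⟩ (by simpa using h.symm)
      rw [SimpleGraph.Walk.length_reverse]; omega
  rw [← Set.countable_univ_iff]
  refine (Set.countable_iUnion fun n => (key n).countable).mono fun v _ => ?_
  obtain ⟨p⟩ := hc.preconnected o v
  exact Set.mem_iUnion.2 ⟨p.length, p, rfl⟩

theorem transient [Countable V] (hc : G.Connected) (hG : ∀ v, ∃ w, G.Adj v w) {o : V}
    (ho : green G o o ≠ ⊤) (hO : ∑' v : {v // Odd (G.degree v)}, green G v o ≠ ⊤)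
    {Ω : Type} [MeasurableSpace Ω] {P : Measure Ω} {X : ℕ → Ω → V} (h : IsGRW G v₀ P X) :
    ∀ᵐ ω ∂P, ∀ v, {t | X t ω = v}.Finite := by
  classical
  rw [ae_all_iff]
  intro v
  obtain ⟨p⟩ := hc.preconnected v o
  have ht : ∀ u, tail G o p.length u ≠ ⊤ :=
    fun u => ne_top_of_le_ne_top (green_fin hc ho u) (tail_le o _ u)
  have hp : ∀ u, srwProb G o p.length u ≠ ⊤ := fun u =>
    ne_top_of_le_ne_top (ht u) (by rw [tail_eq]; exact le_self_add)
  refine finite_visits hG (f := fun u => (tail G o p.length u).toReal)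
    (r := fun u => (srwProb G o p.length u).toReal)
    (C := (∑' v : {v // Odd (G.degree v)}, green G v o).toReal)
    (fun _ => ENNReal.toReal_nonneg) (fun _ => ENNReal.toReal_nonneg) (fun u => ?_)
    (fun S hS => ?_) h (ENNReal.toReal_pos (srwProb_pos p) (hp v))
  · have hd : (G.degree u : ℝ≥0∞) ≠ 0 := by
      obtain ⟨w, hw⟩ := hG u
      have : 0 < G.degree u := (G.degree_pos_iff_exists_adj u).2 ⟨w, hw⟩
      exact_mod_cast this.ne'
    have h1 : ∑ w ∈ G.neighborFinset u, tail G o p.length w ≠ ⊤ :=
      ENNReal.sum_ne_top.2 fun w _ => ht w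
    conv_rhs => rw [tail_eq]
    rw [ENNReal.toReal_add (hp u) (ENNReal.mul_ne_top (ENNReal.inv_ne_top.2 hd) h1),
      ENNReal.toReal_mul, ENNReal.toReal_inv, ENNReal.toReal_natCast,
      ENNReal.toReal_sum fun w _ => ht w, add_comm, div_eq_inv_mul]
  · rw [← ENNReal.toReal_sum fun w _ => ht w]
    refine ENNReal.toReal_mono hO ?_
    calc ∑ v ∈ S, tail G o p.length v ≤ ∑ v ∈ S, green G v o :=
          Finset.sum_le_sum fun u _ => tail_le o _ u
      _ = ∑ v ∈ S.subtype fun v => Odd (G.degree v), green G v o :=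
          (Finset.sum_subtype_of_mem (fun v => green G v o) hS).symm
      _ ≤ _ := ENNReal.sum_le_tsum _

end Pool.Agent.P.MP_b2ff63_pr.Os
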