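import Pool.Agent.P.MP_b2ff63_pr.Macro

namespace Pool.Agent.P.MP_b2ff63_pr

theorem finsum_change {ι : Type} (F F' : ι → ℝ) (hF : (Function.support F).Finite)
    (T : Finset ι) (h : ∀ i ∉ T, F' i = F i) :
    ∑ᶠ i, F' i = ∑ᶠ i, F i + ∑ i ∈ T, (F' i - F i) := by
  have h1 : (Function.support fun i => F' i - F i) ⊆ T := fun i hi => by
    by_contra hT
    exact hi (by simp [h i hT])
  rw [← finsum_eq_sum_of_support_subset _ h1,
    ← finsum_add_distrib hF (T.finite_toSet.subset h1)]
  congr 1; funext i; ring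

theorem psi_ineq {α β : Type} (s : Finset α) (t : Finset β) (a : α → ℝ) (w : β → ℝ) (b g P : ℝ)
    (hb : 0 ≤ b) (ha : ∀ i ∈ s, 0 ≤ a i) (hw : ∀ i ∈ t, 0 ≤ w i)
    (hP : P = ∑ i ∈ s, a i - b * ∑ i ∈ t, w i) :
    ∑ i ∈ s, (max (P - a i) 0 - max P 0 + a i) +
      ∑ i ∈ t, (max (P + b * w i) 0 - max P 0 - g * w i) ≤ - (g - 2 * b) * ∑ i ∈ t, w i := by
  classical
  have hI : 0 ≤ ∑ i ∈ t, w i := Finset.sum_nonneg hw
  have h2 : ∑ i ∈ t, (max (P + b * w i) 0 - max P 0 - g * w i) ≤ (b - g) * ∑ i ∈ t, w i := by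
    rw [Finset.mul_sum]
    refine Finset.sum_le_sum fun i hi => ?_
    have : 0 ≤ b * w i := mul_nonneg hb (hw i hi)
    have : max (P + b * w i) 0 ≤ max P 0 + b * w i :=
      max_le (by linarith [le_max_left P 0]) (by linarith [le_max_right P 0])
    linarith
  have h1 : ∑ i ∈ s, (max (P - a i) 0 - max P 0 + a i) ≤ b * ∑ i ∈ t, w i := by
    rcases le_total P 0 with h | h
    · have : ∑ i ∈ s, (max (P - a i) 0 - max P 0 + a i) = ∑ i ∈ s, a i :=
        Finset.sum_congr rfl fun i hi => by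
          rw [max_eq_right h, max_eq_right (by linarith [ha i hi])]; ring
      linarith
    · by_cases hex : ∃ i ∈ s, P < a i
      · obtain ⟨i₀, hi₀, hlt⟩ := hex
        have e1 := Finset.add_sum_erase s (fun i => max (P - a i) 0 - max P 0 + a i) hi₀
        have e2 := Finset.add_sum_erase s a hi₀
        have e3 : ∑ i ∈ s.erase i₀, (max (P - a i) 0 - max P 0 + a i) ≤ ∑ i ∈ s.erase i₀, a i :=
          Finset.sum_le_sum fun i hi => by
            have := ha i (Finset.mem_of_mem_erase hi)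
            have : max (P - a i) 0 ≤ max P 0 := max_le_max (by linarith) le_rfl
            linarith
        rw [max_eq_right (by linarith), max_eq_left h] at e1
        rw [max_eq_left h] at e3 ⊢
        linarith
      · push Not at hex
        have : ∑ i ∈ s, (max (P - a i) 0 - max P 0 + a i) = 0 :=
          Finset.sum_eq_zero fun i hi => by
            rw [max_eq_left h, max_eq_left (by linarith [hex i hi])]; ring
        rw [this]; positivity
  linarith

namespace OG
variable {Z L : Type} [DecidableEq Z] [DecidableEq L] (O : OG Z L) (f : Z → ℝ)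

def w (l : L) : ℝ := f (O.out l) - f (O.inn l)

noncomputable def cO : Option (Fin 16) → ℝ
  | none => 1 + (cB : ℝ)
  | some _ => (cC : ℝ)

theorem cO_nonneg (o : Option (Fin 16)) : 0 ≤ cO o := by
  cases o <;> simp [cO, cB, cC] <;> norm_num

noncomputable def Iz (A : Finset (EE L)) (x : Z) : ℝ := ∑ p ∈ O.IU A x, O.w f p.1
noncomputable def Oz (A : Finset (EE L)) (x : Z) : ℝ := ∑ p ∈ O.OU A x, O.w f p.1 * cO p.2
noncomputable def Pz (A : Finset (EE L)) (x : Z) : ℝ := O.Oz f A x - cB * O.Iz f A x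
noncomputable def psi (A : Finset (EE L)) (x : Z) : ℝ := max (O.Pz f A x) 0
noncomputable def Psi (A : Finset (EE L)) : ℝ := ∑ᶠ x, O.psi f A x
noncomputable def RR (A : Finset (EE L)) : ℝ :=
  ∑ᶠ q : L × Fin 16, O.w f q.1 * (rho (sig A q.1 q.2) : ℝ)
noncomputable def loc (v : WW Z L) (A : Finset (EE L)) : ℝ :=
  match v with
  | Sum.inl x => f x - 4 / 10000 * O.Iz f A x
  | Sum.inr (l, j, c) => f (O.inn l) + O.w f l * (gv (up c) (sig A l j) - rho (sig A l j))
noncomputable def ValF (v : WW Z L) (A : Finset (EE L)) : ℝ :=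
  O.loc f v A + O.Psi f A + O.RR f A

variable {O f}
omit [DecidableEq Z]

theorem OU_insert (e : EE L) (A : Finset (EE L)) (x : Z) :
    O.OU (insert e A) x = (O.OU A x).filter fun p => emb 0 p ≠ e := by
  ext p; simp only [mem_OU, Finset.mem_insert, Finset.mem_filter]; tauto

theorem IU_insert (e : EE L) (A : Finset (EE L)) (x : Z) :
    O.IU (insert e A) x = (O.IU A x).filter fun p => emb 6 p ≠ e := by
  ext p; simp only [mem_IU, Finset.mem_insert, Finset.mem_filter]; tauto

theorem Oz_insert_eq {e : EE L} {A : Finset (EE L)} {x : Z}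
    (h : ∀ p, O.inn p.1 = x → emb 0 p ≠ e) : O.Oz f (insert e A) x = O.Oz f A x := by
  unfold Oz
  rw [OU_insert, Finset.filter_true_of_mem fun p hp => h p (O.mem_OU.1 hp).1]

theorem Iz_insert_eq {e : EE L} {A : Finset (EE L)} {x : Z}
    (h : ∀ p, O.out p.1 = x → emb 6 p ≠ e) : O.Iz f (insert e A) x = O.Iz f A x := by
  unfold Iz
  rw [IU_insert, Finset.filter_true_of_mem fun p hp => h p (O.mem_IU.1 hp).1]

theorem Oz_insert_mem {A : Finset (EE L)} {x : Z} {p : L × Option (Fin 16)} (hp : p ∈ O.OU A x) :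
    O.Oz f (insert (emb 0 p) A) x = O.Oz f A x - O.w f p.1 * cO p.2 := by
  unfold Oz
  rw [OU_insert, ← Finset.add_sum_erase _ _ hp]
  have : (O.OU A x).filter (fun q => emb 0 q ≠ emb 0 p) = (O.OU A x).erase p := by
    ext q; simp [(emb_inj 0).eq_iff, and_comm]
  rw [this]; ring

theorem Iz_insert_mem {A : Finset (EE L)} {x : Z} {p : L × Option (Fin 16)} (hp : p ∈ O.IU A x) :
    O.Iz f (insert (emb 6 p) A) x = O.Iz f A x - O.w f p.1 := by
  unfold Iz
  rw [IU_insert, ← Finset.add_sum_erase _ _ hp]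
  have : (O.IU A x).filter (fun q => emb 6 q ≠ emb 6 p) = (O.IU A x).erase p := by
    ext q; simp [(emb_inj 6).eq_iff, and_comm]
  rw [this]; ring

theorem Iz_nonneg (hw : ∀ l, 0 ≤ O.w f l) (A : Finset (EE L)) (x : Z) : 0 ≤ O.Iz f A x :=
  Finset.sum_nonneg fun _ _ => hw _

theorem Oz_insert_le (hw : ∀ l, 0 ≤ O.w f l) (e : EE L) (A : Finset (EE L)) (x : Z) :
    O.Oz f (insert e A) x ≤ O.Oz f A x := by
  unfold Oz
  rw [OU_insert]
  exact Finset.sum_le_sum_of_subset_of_nonneg (Finset.filter_subset _ _)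
    fun _ _ _ => mul_nonneg (hw _) (cO_nonneg _)

theorem Iz_insert_ge (hw : ∀ l, 0 ≤ O.w f l) (e : EE L) (A : Finset (EE L)) (x : Z) :
    O.Iz f A x - O.w f e.1 ≤ O.Iz f (insert e A) x := by
  by_cases h : ∃ p ∈ O.IU A x, emb 6 p = e
  · obtain ⟨p, hp, rfl⟩ := h
    exact (Iz_insert_mem hp).ge
  · push Not at h
    unfold Iz
    rw [IU_insert, Finset.filter_true_of_mem h]
    linarith [hw e.1]

theorem psi_insert_inn (hw : ∀ l, 0 ≤ O.w f l) (e : EE L) (A : Finset (EE L)) :
    O.psi f (insert e A) (O.inn e.1) ≤ O.psi f A (O.inn e.1) := by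
  refine max_le_max ?_ le_rfl
  unfold Pz
  rw [Iz_insert_eq fun p hp q => O.ne p.1 (by rw [hp, ← q]; rfl)]
  linarith [Oz_insert_le hw e A (O.inn e.1)]

theorem psi_insert_out (hw : ∀ l, 0 ≤ O.w f l) (e : EE L) (A : Finset (EE L)) :
    O.psi f (insert e A) (O.out e.1) ≤ O.psi f A (O.out e.1) + cB * O.w f e.1 := by
  have hb : (0 : ℝ) ≤ cB := by simp [cB]; norm_num
  have h1 := mul_le_mul_of_nonneg_left (Iz_insert_ge hw e A (O.out e.1)) hb
  have h2 := mul_nonneg hb (hw e.1)
  unfold psi Pz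
  rw [Oz_insert_eq fun p hp q => O.ne p.1 (by rw [hp, ← q]; rfl)]
  refine max_le ?_ ?_
  · linarith [le_max_left (O.Oz f A (O.out e.1) - cB * O.Iz f A (O.out e.1)) 0]
  · linarith [le_max_right (O.Oz f A (O.out e.1) - cB * O.Iz f A (O.out e.1)) 0]

theorem psi_insert_out_eq {e : EE L} (he : ∀ p, emb 6 p ≠ e) (A : Finset (EE L)) :
    O.psi f (insert e A) (O.out e.1) = O.psi f A (O.out e.1) := by
  unfold psi Pz
  rw [Oz_insert_eq fun p hp q => O.ne p.1 (by rw [hp, ← q]; rfl), Iz_insert_eq fun p _ => he p]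

theorem psi_support {K : Finset Z} (hK : ∀ x ∉ K, O.Pz f ∅ x ≤ 0) (A : Finset (EE L)) :
    (Function.support (O.psi f A)).Finite := by
  induction A using Finset.induction_on with
  | empty =>
    refine K.finite_toSet.subset fun x hx => ?_
    by_contra h
    exact hx (max_eq_right (hK x h))
  | insert e A _ ih =>
    refine ((ih.insert (O.inn e.1)).insert (O.out e.1)).subset fun x hx => ?_
    by_contra h
    simp only [Set.mem_insert_iff, not_or] at h
    apply h.2.2
    rw [Function.mem_support] at hx ⊢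
    unfold psi Pz at hx ⊢
    rwa [Oz_insert_eq fun p hp q => h.2.1 (by rw [← hp, ← q]; rfl),
      Iz_insert_eq fun p hp q => h.1 (by rw [← hp, ← q]; rfl)] at hx

theorem Psi_insert {K : Finset Z} (hK : ∀ x ∉ K, O.Pz f ∅ x ≤ 0) (e : EE L) (A : Finset (EE L)) :
    O.Psi f (insert e A) = O.Psi f A + ((O.psi f (insert e A) (O.inn e.1) - O.psi f A (O.inn e.1))
      + (O.psi f (insert e A) (O.out e.1) - O.psi f A (O.out e.1))) := by
  classical
  unfold Psi
  rw [finsum_change _ (O.psi f (insert e A)) (psi_support hK A) {O.inn e.1, O.out e.1},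
    Finset.sum_pair (O.ne e.1)]
  intro x h
  simp only [Finset.mem_insert, Finset.mem_singleton, not_or] at h
  unfold psi Pz
  rw [Oz_insert_eq fun p hp q => h.1 (by rw [← hp, ← q]; rfl),
    Iz_insert_eq fun p hp q => h.2 (by rw [← hp, ← q]; rfl)]

theorem sig_insert_self (A : Finset (EE L)) (l : L) (j : Fin 16) (k : Fin 7) :
    sig (insert (l, some (j, k)) A) l j = insert k (sig A l j) := by
  ext k'; simp [mem_sig]

theorem RR_support (A : Finset (EE L)) :
    (Function.support fun q : L × Fin 16 => O.w f q.1 * (rho (sig A q.1 q.2) : ℝ)).Finite := by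
  refine ((A.image Prod.fst) ×ˢ (Finset.univ : Finset (Fin 16))).finite_toSet.subset
    fun q hq => ?_
  by_contra h
  apply hq
  have : sig A q.1 q.2 = ∅ := Finset.eq_empty_of_forall_notMem fun k hk =>
    h (by simpa using ⟨_, mem_sig.1 hk⟩)
  simp [this, rho_empty]

theorem RR_insert_main (A : Finset (EE L)) (l : L) : O.RR f (insert (l, none) A) = O.RR f A := by
  unfold RR
  congr 1; funext q; congr 3
  ext k; simp [mem_sig]

theorem RR_insert_g (A : Finset (EE L)) (l : L) (j : Fin 16) (k : Fin 7) :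
    O.RR f (insert (l, some (j, k)) A) =
      O.RR f A + O.w f l * (rho (insert k (sig A l j)) - rho (sig A l j)) := by
  unfold RR
  rw [finsum_change _ (fun q : L × Fin 16 =>
    O.w f q.1 * (rho (sig (insert (l, some (j, k)) A) q.1 q.2) : ℝ)) (RR_support A) {(l, j)},
    Finset.sum_singleton, sig_insert_self]
  · ring
  · rintro ⟨l', j'⟩ h
    congr 3
    ext k'
    simp only [mem_sig, Finset.mem_insert, Prod.mk.injEq, Option.some.injEq]
    simp only [Finset.mem_singleton, Prod.mk.injEq] at h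
    tauto

theorem loc_gvx (hw : ∀ l, 0 ≤ O.w f l) (l : L) (j : Fin 16) (c : Fin 6) (A : Finset (EE L)) :
    O.loc f (O.gvx l j c) A ≤
      f (O.inn l) + O.w f l * (gv c (sig A l j) - rho (sig A l j)) := by
  have h1 := Iz_nonneg hw A (O.inn l)
  have h2 := Iz_nonneg hw A (O.out l)
  fin_cases c
  · simp [gvx, loc, gv_zero]; positivity
  · exact le_rfl
  · exact le_rfl
  · exact le_rfl
  · exact le_rfl
  · simp [gvx, loc, gv_five, w]; positivity

end OG
end Pool.Agent.P.MP_b2ff63_pr
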