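import Pool.Agent.P.MP_b2ff63_pr.State

namespace Pool.Agent.P.MP_b2ff63_pr
open Pool.Agent.Lib.GRW

namespace MG
variable {W E : Type} [DecidableEq W] [DecidableEq E] (M : MG W E) (Val : W → Finset E → ℝ)

/-- Linear interpolation along a long edge. -/
noncomputable def itp (e : E) (k : ℕ) (A : Finset E) : ℝ :=
  Val (M.a e) A + (k : ℝ) * ((Val (M.b e) A - Val (M.a e) A) / M.len e)

open Classical in
/-- The potential of a history, from a potential of long-edge states. -/
noncomputable def pot (t : ℕ) (x : ℕ → M.V) : ℝ :=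
  match x t with
  | Sum.inl w => Val w (M.tch x t)
  | Sum.inr p =>
    if ¬ M.vis x t p.1.1 p.1.2 then Val (M.b p.1.1) (M.tch x t)
    else if ¬ M.vis x t p.1.1 (p.1.2 - 1) then Val (M.a p.1.1) (M.tch x t)
    else M.itp Val p.1.1 p.1.2 (M.tch x t)

/-- The expected potential after one long step. -/
noncomputable def mavg (w : W) (A : Finset E) : ℝ :=
  if (M.inc w \ A).Nonempty then
    (∑ e ∈ M.inc w \ A, Val (M.oth e w) (insert e A)) / (M.inc w \ A).card
  else Val w A + (∑ e ∈ M.inc w, (Val (M.oth e w) A - Val w A) / M.len e) / (M.inc w).card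

omit [DecidableEq W] [DecidableEq E] in
theorem pot_congr (t : ℕ) (x y : ℕ → M.V) (h : ∀ s ≤ t, x s = y s) :
    M.pot Val t x = M.pot Val t y := by
  unfold pot
  have : M.vis x t = M.vis y t := by
    funext e k; exact propext (M.vis_congr h e k)
  rw [h t le_rfl, M.tch_congr h, this]

omit [DecidableEq W] [DecidableEq E] in
theorem pot_inl {t : ℕ} {x : ℕ → M.V} {w : W} (h : x t = Sum.inl w) :
    M.pot Val t x = Val w (M.tch x t) := by
  unfold pot; rw [h]

omit [DecidableEq W] [DecidableEq E] in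
theorem pot_full {t : ℕ} {x : ℕ → M.V} {e : E} {k : ℕ} (hk : k ≤ M.len e) (hx : x t = M.pt e k)
    (h : M.Full x t e) : M.pot Val t x = M.itp Val e k (M.tch x t) := by
  have h2 := M.two_le e
  rcases M.pt_cases e hk with ⟨h0, h1⟩ | ⟨h0, h1⟩ | ⟨h0, h1⟩
  · rw [M.pot_inl Val (hx.trans h1), h0]; simp [itp]
  · rw [M.pot_inl Val (hx.trans h1), h0, itp]
    have : (M.len e : ℝ) ≠ 0 := by exact_mod_cast (by omega : M.len e ≠ 0)
    field_simp
    ring
  · unfold pot
    rw [hx, h1]
    simp only [h k h0.2, h (k - 1) (by omega), not_true, if_false]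

omit [DecidableEq W] [DecidableEq E] in
theorem pot_fwd {t : ℕ} {x : ℕ → M.V} {e : E} {k : ℕ} (h0 : 0 < k) (hk : k ≤ M.len e)
    (hx : x t = M.pt e k) (h : M.Fwd x t e k) :
    M.pot Val t x = Val (M.b e) (M.tch x t) := by
  rcases M.pt_cases e hk with ⟨h2, h1⟩ | ⟨h2, h1⟩ | ⟨h2, h1⟩
  · omega
  · exact M.pot_inl Val (hx.trans h1)
  · unfold pot
    rw [hx, h1]
    simp only [h k h2.2, lt_irrefl, not_false_eq_true, if_true]

omit [DecidableEq W] [DecidableEq E] in
theorem pot_bwd {t : ℕ} {x : ℕ → M.V} {e : E} {k : ℕ} (hk : k < M.len e)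
    (hx : x t = M.pt e k) (h : M.Bwd x t e k) :
    M.pot Val t x = Val (M.a e) (M.tch x t) := by
  rcases M.pt_cases e hk.le with ⟨h2, h1⟩ | ⟨h2, h1⟩ | ⟨h2, h1⟩
  · exact M.pot_inl Val (hx.trans h1)
  · omega
  · unfold pot
    rw [hx, h1]
    have : ¬ k ≤ k - 1 := by omega
    simp only [h k h2.2, h (k - 1) (by omega), le_refl, not_true, if_false, this,
      not_false_eq_true, if_true]

/-- The history extended by one step. -/
abbrev upd (x : ℕ → M.V) (t : ℕ) (v : M.V) : ℕ → M.V := Function.update x (t + 1) v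

omit [DecidableEq W] [DecidableEq E] in
theorem upd_le (x : ℕ → M.V) (t : ℕ) (v : M.V) : ∀ s ≤ t, M.upd x t v s = x s :=
  fun _ _ => Function.update_of_ne (by omega) _ _

omit [DecidableEq W] [DecidableEq E] in
theorem upd_succ (x : ℕ → M.V) (t : ℕ) (v : M.V) : M.upd x t v (t + 1) = v :=
  Function.update_self _ _ _

omit [DecidableEq W] [DecidableEq E] in
theorem vis_upd {x : ℕ → M.V} {t : ℕ} {v : M.V} {e : E} {k : ℕ} (hk : k < M.len e)
    (q : s(x t, v) = M.me e k) {i : ℕ} (hi : i < M.len e) :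
    M.vis (M.upd x t v) (t + 1) e i ↔ M.vis x t e i ∨ i = k := by
  rw [M.vis_step hk (by rw [M.upd_le x t v t le_rfl, M.upd_succ]; exact q) hi,
    M.vis_congr (M.upd_le x t v)]
  simp

omit [DecidableEq W] in
theorem tch_upd {x : ℕ → M.V} {t : ℕ} {v : M.V} {e : E} {k : ℕ} (hk : k < M.len e)
    (q : s(x t, v) = M.me e k) : M.tch (M.upd x t v) (t + 1) = insert e (M.tch x t) := by
  have := M.tch_step (x := M.upd x t v) (t := t) hk
    (by rw [M.upd_le x t v t le_rfl, M.upd_succ]; exact q)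
  rw [this, M.tch_congr (M.upd_le x t v)]

theorem avg_int {x : ℕ → M.V} {t : ℕ} (h : M.Inv x t) {e : E} {k : ℕ}
    (hk : 0 < k ∧ k < M.len e) (hx : x t = M.pt e k) :
    avg M.G x t (fun v => M.pot Val (t + 1) (M.upd x t v)) = M.pot Val t x := by
  have qf : s(x t, M.pt e (k + 1)) = M.me e k := by rw [hx]; rfl
  have qb : s(x t, M.pt e (k - 1)) = M.me e (k - 1) := by rw [hx]; exact M.me_bwd e hk.1
  have hk1 : k - 1 < M.len e := by omega
  unfold avg
  rcases h.at_int hk hx with h1 | h1 | h1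
  · have hm : e ∈ M.tch x t := M.mem_tch.2 ⟨k, hk.2, h1 k hk.2⟩
    have hne : M.pt e (k - 1) ≠ M.pt e (k + 1) := fun q => by
      have := M.pt_inj hk1.le hk.2 q; omega
    rw [M.next_full hk hx h1, Finset.sum_pair hne, Finset.card_pair hne,
      M.pot_full Val hk1.le (M.upd_succ _ _ _)
        (fun i hi => (M.vis_upd hk1 qb hi).2 (Or.inl (h1 i hi))),
      M.pot_full Val hk.2 (M.upd_succ _ _ _)
        (fun i hi => (M.vis_upd hk.2 qf hi).2 (Or.inl (h1 i hi))),
      M.pot_full Val hk.2.le hx h1, M.tch_upd hk1 qb, M.tch_upd hk.2 qf,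
      Finset.insert_eq_of_mem hm]
    unfold itp
    rw [Nat.cast_sub hk.1]
    push_cast
    ring
  · have hm : e ∈ M.tch x t := M.mem_tch.2 ⟨0, by omega, (h1 0 (by omega)).2 hk.1⟩
    rw [M.next_fwd hk hx h1, Finset.sum_singleton, Finset.card_singleton,
      M.pot_fwd Val (Nat.succ_pos k) hk.2 (M.upd_succ _ _ _)
        (fun i hi => by rw [M.vis_upd hk.2 qf hi, h1 i hi]; omega),
      M.pot_fwd Val hk.1 hk.2.le hx h1, M.tch_upd hk.2 qf, Finset.insert_eq_of_mem hm]
    simp
  · have hm : e ∈ M.tch x t := M.mem_tch.2 ⟨k, hk.2, (h1 k hk.2).2 le_rfl⟩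
    rw [M.next_bwd hk hx h1, Finset.sum_singleton, Finset.card_singleton,
      M.pot_bwd Val hk1 (M.upd_succ _ _ _)
        (fun i hi => by rw [M.vis_upd hk1 qb hi, h1 i hi]; omega),
      M.pot_bwd Val hk.2 hx h1, M.tch_upd hk1 qb, Finset.insert_eq_of_mem hm]
    simp

theorem avg_inl {x : ℕ → M.V} {t : ℕ} (h : M.Inv x t) {w : W} (hx : x t = Sum.inl w) :
    avg M.G x t (fun v => M.pot Val (t + 1) (M.upd x t v)) = M.mavg Val w (M.tch x t) := by
  have q : ∀ e ∈ M.inc w, s(x t, M.pt e (M.nj e w)) = M.me e (M.ix e w) := fun e he => by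
    rw [hx]; exact M.me_ix he
  unfold avg mavg
  rw [M.next_inl h hx, Finset.sum_image (fun a _ b _ hab => M.nx_inj w hab),
    Finset.card_image_of_injective _ (M.nx_inj w)]
  split_ifs with hU
  · congr 1
    refine Finset.sum_congr rfl fun e he => ?_
    rw [Finset.mem_sdiff] at he
    have hE : M.Emp x t e := fun i hi hv => he.2 (M.mem_tch.2 ⟨i, hi, hv⟩)
    have h2 := M.two_le e
    rw [← M.tch_upd (M.ix_lt e w) (q e he.1)]
    by_cases haw : M.a e = w
    · rw [M.pot_fwd Val (M.nj_int e w).1 (M.nj_int e w).2.le (M.upd_succ _ _ _), oth, if_pos haw]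
      intro i hi
      rw [M.vis_upd (M.ix_lt e w) (q e he.1) hi, or_iff_right (hE i hi), ix, nj, if_pos haw,
        if_pos haw]
      omega
    · rw [M.pot_bwd Val (M.nj_int e w).2 (M.upd_succ _ _ _), oth, if_neg haw]
      intro i hi
      rw [M.vis_upd (M.ix_lt e w) (q e he.1) hi, or_iff_right (hE i hi), ix, nj, if_neg haw,
        if_neg haw]
      omega
  · have hc : ((M.inc w).card : ℝ) ≠ 0 := by exact_mod_cast (M.inc_ne w).card_pos.ne'
    have : ∑ e ∈ M.inc w, M.pot Val (t + 1) (M.upd x t (M.pt e (M.nj e w))) =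
        ∑ e ∈ M.inc w, (Val w (M.tch x t) +
          (Val (M.oth e w) (M.tch x t) - Val w (M.tch x t)) / M.len e) := by
      refine Finset.sum_congr rfl fun e he => ?_
      have hm : e ∈ M.tch x t := by
        by_contra hm
        exact hU ⟨e, Finset.mem_sdiff.2 ⟨he, hm⟩⟩
      have hF : M.Full x t e := fun i hi => (h.vis_iff hx e hi).2 hm
      have h2 := M.two_le e
      have hl : (M.len e : ℝ) ≠ 0 := by exact_mod_cast (by omega : M.len e ≠ 0)
      rw [M.pot_full Val (M.nj_int e w).2.le (M.upd_succ _ _ _)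
        (fun i hi => (M.vis_upd (M.ix_lt e w) (q e he) hi).2 (Or.inl (hF i hi))),
        M.tch_upd (M.ix_lt e w) (q e he), Finset.insert_eq_of_mem hm, itp, nj, oth]
      split_ifs with haw
      · rw [haw]; simp
      · have hb : M.b e = w := ((M.mem_inc w e).1 he).resolve_left haw
        rw [hb, Nat.cast_sub (by omega)]
        field_simp
        push_cast
        ring
    rw [this, Finset.sum_add_distrib, Finset.sum_const, nsmul_eq_mul]
    field_simp

omit [DecidableEq W] [DecidableEq E] in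
theorem le_pot {x : ℕ → M.V} {t : ℕ} {c : ℝ} (hc : ∀ w, c ≤ Val w (M.tch x t)) :
    c ≤ M.pot Val t x := by
  unfold pot
  rcases x t with w | p
  · exact hc w
  · simp only
    split_ifs
    · unfold itp
      have h1 := hc (M.a p.1.1)
      have h2 := hc (M.b p.1.1)
      have h3 : (0 : ℝ) < M.len p.1.1 := by exact_mod_cast p.2.1.trans p.2.2
      have h4 : (p.1.2 : ℝ) ≤ M.len p.1.1 := by exact_mod_cast p.2.2.le
      have h5 : (0 : ℝ) ≤ p.1.2 := Nat.cast_nonneg _
      have h6 : (p.1.2 : ℝ) / M.len p.1.1 ≤ 1 := (div_le_one h3).2 h4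
      have h7 : 0 ≤ (p.1.2 : ℝ) / M.len p.1.1 := div_nonneg h5 h3.le
      rw [← mul_div_assoc, mul_comm, mul_div_assoc]
      nlinarith
    · exact hc _
    · exact hc _

omit [DecidableEq W] in
theorem card_first {x : ℕ → M.V} {t : ℕ} (h : M.Inv x t) {w : W} (hx : x t = Sum.inl w)
    (hf : ∀ s < t, x s ≠ x t) : (M.inc w ∩ M.tch x t).card ≤ 1 := by
  have key : ∀ e ∈ M.inc w ∩ M.tch x t, M.pt e (M.nj e w) = x (t - 1) := by
    intro e he
    rw [Finset.mem_inter] at he
    obtain ⟨s, hs, q⟩ := (h.vis_iff hx e (M.ix_lt e w)).2 he.2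
    rw [← M.me_ix he.1, ← hx] at q
    rcases Sym2.eq_iff.1 q with ⟨q1, -⟩ | ⟨q1, q2⟩
    · exact absurd q1 (hf s hs)
    · have : s + 1 = t := by
        by_contra hne
        exact hf (s + 1) (by omega) q2
      rw [← q1, ← this, Nat.add_sub_cancel]
  exact Finset.card_le_one.2 fun a ha b hb => M.nx_inj w ((key a ha).trans (key b hb).symm)

end MG
end Pool.Agent.P.MP_b2ff63_pr
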