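import Pool.Agent.P.MP_b2ff63_pr.Subdiv

namespace Pool.Agent.P.MP_b2ff63_pr
open Pool.Agent.Lib.GRW

namespace MG
variable {W E : Type} (M : MG W E)

def vis (x : ℕ → M.V) (t : ℕ) (e : E) (k : ℕ) : Prop :=
  ∃ s < t, s(x s, x (s + 1)) = M.me e k

theorem vis_congr {x y : ℕ → M.V} {t : ℕ} (h : ∀ s ≤ t, x s = y s) (e : E) (k : ℕ) :
    M.vis x t e k ↔ M.vis y t e k := by
  refine exists_congr fun s => and_congr_right fun hs => ?_
  rw [h s hs.le, h (s + 1) hs]

theorem vis_succ (x : ℕ → M.V) (t : ℕ) (e : E) (k : ℕ) :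
    M.vis x (t + 1) e k ↔ M.vis x t e k ∨ s(x t, x (t + 1)) = M.me e k := by
  constructor
  · rintro ⟨s, hs, q⟩
    rcases Nat.lt_succ_iff_lt_or_eq.1 hs with hs | rfl
    · exact Or.inl ⟨s, hs, q⟩
    · exact Or.inr q
  · rintro (⟨s, hs, q⟩ | q)
    · exact ⟨s, hs.trans (Nat.lt_succ_self _), q⟩
    · exact ⟨t, Nat.lt_succ_self _, q⟩

theorem vis_step {x : ℕ → M.V} {t : ℕ} {e : E} {k : ℕ} (hk : k < M.len e)
    (q : s(x t, x (t + 1)) = M.me e k) {e' : E} {k' : ℕ} (hk' : k' < M.len e') :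
    M.vis x (t + 1) e' k' ↔ M.vis x t e' k' ∨ (e' = e ∧ k' = k) := by
  rw [vis_succ, q]
  refine or_congr_right ⟨fun h => ?_, ?_⟩
  · obtain ⟨h1, h2⟩ := M.me_inj hk hk' h
    exact ⟨h1.symm, h2.symm⟩
  · rintro ⟨rfl, rfl⟩; rfl

theorem finite_tch (x : ℕ → M.V) (t : ℕ) : {e | ∃ k < M.len e, M.vis x t e k}.Finite := by
  induction t with
  | zero => simp [vis]
  | succ t ih =>
    by_cases h : ∃ e k, k < M.len e ∧ s(x t, x (t + 1)) = M.me e k
    · obtain ⟨e, k, hk, q⟩ := h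
      refine (ih.insert e).subset ?_
      rintro e' ⟨k', hk', hv⟩
      rcases (M.vis_step hk q hk').1 hv with hv | ⟨rfl, -⟩
      · exact Or.inr ⟨k', hk', hv⟩
      · exact Or.inl rfl
    · refine ih.subset ?_
      rintro e' ⟨k', hk', hv⟩
      rcases (M.vis_succ x t e' k').1 hv with hv | q
      · exact ⟨k', hk', hv⟩
      · exact absurd ⟨e', k', hk', q⟩ h

/-- The set of touched long edges. -/
noncomputable def tch (x : ℕ → M.V) (t : ℕ) : Finset E := (M.finite_tch x t).toFinset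

theorem mem_tch {x : ℕ → M.V} {t : ℕ} {e : E} :
    e ∈ M.tch x t ↔ ∃ k < M.len e, M.vis x t e k := by simp [tch]

theorem tch_congr {x y : ℕ → M.V} {t : ℕ} (h : ∀ s ≤ t, x s = y s) : M.tch x t = M.tch y t := by
  ext e
  simp only [mem_tch, M.vis_congr h]

theorem tch_step [DecidableEq E] {x : ℕ → M.V} {t : ℕ} {e : E} {k : ℕ} (hk : k < M.len e)
    (q : s(x t, x (t + 1)) = M.me e k) : M.tch x (t + 1) = insert e (M.tch x t) := by
  ext e'
  rw [Finset.mem_insert, mem_tch, mem_tch]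
  constructor
  · rintro ⟨k', hk', hv⟩
    rcases (M.vis_step hk q hk').1 hv with hv | ⟨rfl, -⟩
    · exact Or.inr ⟨k', hk', hv⟩
    · exact Or.inl rfl
  · rintro (rfl | ⟨k', hk', hv⟩)
    · exact ⟨k, hk, (M.vis_step hk q hk).2 (Or.inr ⟨rfl, rfl⟩)⟩
    · exact ⟨k', hk', (M.vis_step hk q hk').2 (Or.inl hv)⟩

def Full (x : ℕ → M.V) (t : ℕ) (e : E) : Prop := ∀ i < M.len e, M.vis x t e i
def Emp (x : ℕ → M.V) (t : ℕ) (e : E) : Prop := ∀ i < M.len e, ¬ M.vis x t e i
def Fwd (x : ℕ → M.V) (t : ℕ) (e : E) (k : ℕ) : Prop := ∀ i < M.len e, M.vis x t e i ↔ i < k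
def Bwd (x : ℕ → M.V) (t : ℕ) (e : E) (k : ℕ) : Prop := ∀ i < M.len e, M.vis x t e i ↔ k ≤ i

def Inv (x : ℕ → M.V) (t : ℕ) : Prop :=
  ∀ e, M.Full x t e ∨ (M.Emp x t e ∧ ∀ k, 0 < k → k < M.len e → x t ≠ M.pt e k) ∨
    ∃ k, (0 < k ∧ k < M.len e) ∧ x t = M.pt e k ∧ (M.Fwd x t e k ∨ M.Bwd x t e k)

theorem Inv.at_inl {M : MG W E} {x : ℕ → M.V} {t : ℕ} (h : M.Inv x t) {w : W}
    (hw : x t = Sum.inl w) (e : E) : M.Full x t e ∨ M.Emp x t e := by
  rcases h e with h | h | ⟨k, hk, q, -⟩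
  · exact Or.inl h
  · exact Or.inr h.1
  · rw [hw, M.pt_int hk] at q; simp at q

theorem Inv.at_int {M : MG W E} {x : ℕ → M.V} {t : ℕ} (h : M.Inv x t) {e : E} {k : ℕ}
    (hk : 0 < k ∧ k < M.len e) (hx : x t = M.pt e k) :
    M.Full x t e ∨ M.Fwd x t e k ∨ M.Bwd x t e k := by
  rcases h e with h | h | ⟨k', hk', q, h⟩
  · exact Or.inl h
  · exact absurd hx (h.2 k hk.1 hk.2)
  · obtain rfl := M.pt_inj hk.2.le hk'.2.le (hx.symm.trans q)
    exact Or.inr h

theorem Inv.other {M : MG W E} {x : ℕ → M.V} {t : ℕ} (h : M.Inv x t) {e e' : E} {k : ℕ}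
    (hk : k ≤ M.len e) (hx : x t = M.pt e k) (hne : e' ≠ e) : M.Full x t e' ∨ M.Emp x t e' := by
  rcases h e' with h | h | ⟨k', hk', q, -⟩
  · exact Or.inl h
  · exact Or.inr h.1
  · exact absurd (M.pt_eq_int hk' hk (q.symm.trans hx)).1 hne

theorem mem_fresh {x : ℕ → M.V} {t : ℕ} {v : M.V} {e : E} {k : ℕ} (hk : k < M.len e)
    (q : s(x t, v) = M.me e k) : v ∈ freshNbrs M.G x t ↔ ¬ M.vis x t e k := by
  rw [mem_freshNbrs, q]
  constructor
  · rintro ⟨-, h⟩ ⟨s, hs, q'⟩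
    exact h s hs q'
  · intro h
    exact ⟨⟨e, k, hk, q⟩, fun s hs q' => h ⟨s, hs, q'⟩⟩

theorem me_fwd (e : E) (k : ℕ) : s(M.pt e k, M.pt e (k + 1)) = M.me e k := rfl

theorem me_bwd (e : E) {k : ℕ} (hk : 0 < k) :
    s(M.pt e k, M.pt e (k - 1)) = M.me e (k - 1) := by
  rw [me, Nat.sub_add_cancel hk, Sym2.eq_swap]

theorem next_fwd {x : ℕ → M.V} {t : ℕ} {e : E} {k : ℕ} (hk : 0 < k ∧ k < M.len e)
    (hx : x t = M.pt e k) (h : M.Fwd x t e k) : nextSet M.G x t = {M.pt e (k + 1)} := by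
  have h1 : freshNbrs M.G x t = {M.pt e (k + 1)} := by
    ext v
    rw [Finset.mem_singleton]
    constructor
    · intro hv
      have ha := ((mem_freshNbrs _).1 hv).1
      rw [hx, M.adj_int hk] at ha
      rcases ha with rfl | rfl
      · rw [M.mem_fresh (e := e) (k := k - 1) (by omega) (hx ▸ M.me_bwd e hk.1),
          h (k - 1) (by omega)] at hv
        omega
      · rfl
    · rintro rfl
      rw [M.mem_fresh hk.2 (hx ▸ M.me_fwd e k), h k hk.2]
      omega
  unfold nextSet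
  rw [h1, if_pos (Finset.singleton_nonempty _)]

theorem next_bwd {x : ℕ → M.V} {t : ℕ} {e : E} {k : ℕ} (hk : 0 < k ∧ k < M.len e)
    (hx : x t = M.pt e k) (h : M.Bwd x t e k) : nextSet M.G x t = {M.pt e (k - 1)} := by
  have h1 : freshNbrs M.G x t = {M.pt e (k - 1)} := by
    ext v
    rw [Finset.mem_singleton]
    constructor
    · intro hv
      have ha := ((mem_freshNbrs _).1 hv).1
      rw [hx, M.adj_int hk] at ha
      rcases ha with rfl | rfl
      · rfl
      · rw [M.mem_fresh hk.2 (hx ▸ M.me_fwd e k), h k hk.2] at hv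
        omega
    · rintro rfl
      rw [M.mem_fresh (e := e) (k := k - 1) (by omega) (hx ▸ M.me_bwd e hk.1),
        h (k - 1) (by omega)]
      omega
  unfold nextSet
  rw [h1, if_pos (Finset.singleton_nonempty _)]

theorem next_full [DecidableEq W] [DecidableEq E] {x : ℕ → M.V} {t : ℕ} {e : E} {k : ℕ} (hk : 0 < k ∧ k < M.len e)
    (hx : x t = M.pt e k) (h : M.Full x t e) :
    nextSet M.G x t = {M.pt e (k - 1), M.pt e (k + 1)} := by
  have h1 : ¬ (freshNbrs M.G x t).Nonempty := by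
    rintro ⟨v, hv⟩
    have ha := ((mem_freshNbrs _).1 hv).1
    rw [hx, M.adj_int hk] at ha
    rcases ha with rfl | rfl
    · exact (M.mem_fresh (e := e) (k := k - 1) (by omega) (hx ▸ M.me_bwd e hk.1)).1 hv
        (h _ (by omega))
    · exact (M.mem_fresh hk.2 (hx ▸ M.me_fwd e k)).1 hv (h _ hk.2)
  unfold nextSet
  rw [if_neg h1]
  ext v
  rw [SimpleGraph.mem_neighborFinset, hx, M.adj_int hk]
  simp

theorem Inv.vis_iff {M : MG W E} {x : ℕ → M.V} {t : ℕ} (h : M.Inv x t) {w : W}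
    (hw : x t = Sum.inl w) (e : E) {i : ℕ} (hi : i < M.len e) :
    M.vis x t e i ↔ e ∈ M.tch x t := by
  rw [mem_tch]
  refine ⟨fun hv => ⟨i, hi, hv⟩, fun ⟨k, hk, hv⟩ => ?_⟩
  rcases h.at_inl hw e with h | h
  · exact h i hi
  · exact absurd hv (h k hk)

theorem next_inl [DecidableEq W] [DecidableEq E] {x : ℕ → M.V} {t : ℕ} (h : M.Inv x t) {w : W} (hw : x t = Sum.inl w) :
    nextSet M.G x t = (if (M.inc w \ M.tch x t).Nonempty then M.inc w \ M.tch x t
      else M.inc w).image fun e => M.pt e (M.nj e w) := by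
  have h1 : freshNbrs M.G x t = (M.inc w \ M.tch x t).image fun e => M.pt e (M.nj e w) := by
    ext v
    rw [Finset.mem_image]
    constructor
    · intro hv
      have ha := ((mem_freshNbrs _).1 hv).1
      rw [hw, M.adj_inl] at ha
      obtain ⟨e, he, rfl⟩ := ha
      rw [M.mem_fresh (M.ix_lt e w) (hw ▸ M.me_ix he), h.vis_iff hw e (M.ix_lt e w)] at hv
      exact ⟨e, Finset.mem_sdiff.2 ⟨he, hv⟩, rfl⟩
    · rintro ⟨e, he, rfl⟩
      rw [Finset.mem_sdiff] at he
      rw [M.mem_fresh (M.ix_lt e w) (hw ▸ M.me_ix he.1), h.vis_iff hw e (M.ix_lt e w)]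
      exact he.2
  unfold nextSet
  rw [h1]
  by_cases h2 : (M.inc w \ M.tch x t).Nonempty
  · rw [if_pos h2, if_pos (Finset.image_nonempty.2 h2)]
  · rw [if_neg h2, if_neg (fun h3 => h2 (Finset.image_nonempty.1 h3))]
    ext v
    rw [SimpleGraph.mem_neighborFinset, hw, M.adj_inl, Finset.mem_image]
    simp only [eq_comm]

theorem inv_step {x : ℕ → M.V} {t : ℕ} (h : M.Inv x t) {e : E} {k j : ℕ} (hk : k < M.len e)
    (q : s(x t, x (t + 1)) = M.me e k) (hj : j ≤ M.len e) (hx : x (t + 1) = M.pt e j)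
    (hoth : ∀ e', e' ≠ e → M.Full x t e' ∨ M.Emp x t e')
    (he : M.Full x (t + 1) e ∨
      ((0 < j ∧ j < M.len e) ∧ (M.Fwd x (t + 1) e j ∨ M.Bwd x (t + 1) e j))) :
    M.Inv x (t + 1) := by
  intro e'
  by_cases hne : e' = e
  · subst hne
    rcases he with he | he
    · exact Or.inl he
    · exact Or.inr (Or.inr ⟨j, he.1, hx, he.2⟩)
  · rcases hoth e' hne with h1 | h1
    · exact Or.inl fun i hi => (M.vis_step hk q hi).2 (Or.inl (h1 i hi))
    · refine Or.inr (Or.inl ⟨fun i hi hv => ?_, fun k' h0 hk' q' => ?_⟩)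
      · rcases (M.vis_step hk q hi).1 hv with hv | hv
        · exact h1 i hi hv
        · exact hne hv.1
      · exact hne (M.pt_eq_int ⟨h0, hk'⟩ hj (q'.symm.trans hx)).1

theorem full_step {x : ℕ → M.V} {t : ℕ} {e : E} (h : M.Full x t e) : M.Full x (t + 1) e :=
  fun i hi => (M.vis_succ x t e i).2 (Or.inl (h i hi))

theorem inv_succ {x : ℕ → M.V} {t : ℕ} (h : M.Inv x t) (hn : x (t + 1) ∈ nextSet M.G x t) :
    M.Inv x (t + 1) := by
  classical
  rcases hx : x t with w | p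
  · have ha := adj_of_mem_nextSet _ hn
    rw [hx, M.adj_inl] at ha
    obtain ⟨e, he, hv⟩ := ha
    have q : s(x t, x (t + 1)) = M.me e (M.ix e w) := by rw [hx, hv]; exact M.me_ix he
    refine M.inv_step h (M.ix_lt e w) q (M.nj_int e w).2.le hv (fun e' _ => h.at_inl hx e') ?_
    rcases h.at_inl hx e with h1 | h1
    · exact Or.inl (M.full_step h1)
    · refine Or.inr ⟨M.nj_int e w, ?_⟩
      have h2 := M.two_le e
      by_cases haw : M.a e = w
      · refine Or.inl fun i hi => ?_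
        rw [M.vis_step (M.ix_lt e w) q hi, or_iff_right (h1 i hi), ix, nj, if_pos haw, if_pos haw]
        simp
      · refine Or.inr fun i hi => ?_
        rw [M.vis_step (M.ix_lt e w) q hi, or_iff_right (h1 i hi), ix, nj, if_neg haw, if_neg haw]
        simp only [true_and]; omega
  · obtain ⟨⟨e, k⟩, hk⟩ := p
    have hk : 0 < k ∧ k < M.len e := hk
    rw [← M.pt_int hk] at hx
    have hoth : ∀ e', e' ≠ e → M.Full x t e' ∨ M.Emp x t e' :=
      fun e' hne => h.other hk.2.le hx hne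
    rcases h.at_int hk hx with h1 | h1 | h1
    · rw [M.next_full hk hx h1, Finset.mem_insert, Finset.mem_singleton] at hn
      rcases hn with hn | hn
      · exact M.inv_step h (k := k - 1) (by omega) (by rw [hx, hn]; exact M.me_bwd e hk.1)
          (by omega) hn hoth (Or.inl (M.full_step h1))
      · exact M.inv_step h hk.2 (by rw [hx, hn]; rfl) hk.2 hn hoth (Or.inl (M.full_step h1))
    · rw [M.next_fwd hk hx h1, Finset.mem_singleton] at hn
      have q : s(x t, x (t + 1)) = M.me e k := by rw [hx, hn]; rfl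
      have hf : M.Fwd x (t + 1) e (k + 1) := fun i hi => by
        rw [M.vis_step hk.2 q hi, h1 i hi]; simp only [true_and]; omega
      refine M.inv_step h hk.2 q hk.2 hn hoth ?_
      by_cases h2 : k + 1 < M.len e
      · exact Or.inr ⟨⟨by omega, h2⟩, Or.inl hf⟩
      · exact Or.inl fun i hi => (hf i hi).2 (by omega)
    · rw [M.next_bwd hk hx h1, Finset.mem_singleton] at hn
      have q : s(x t, x (t + 1)) = M.me e (k - 1) := by rw [hx, hn]; exact M.me_bwd e hk.1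
      have hf : M.Bwd x (t + 1) e (k - 1) := fun i hi => by
        rw [M.vis_step (by omega) q hi, h1 i hi]; simp only [true_and]; omega
      refine M.inv_step h (by omega) q (by omega) hn hoth ?_
      by_cases h2 : 0 < k - 1
      · exact Or.inr ⟨⟨h2, by omega⟩, Or.inr hf⟩
      · exact Or.inl fun i hi => (hf i hi).2 (by omega)

theorem inv_of_valid {o : W} {t : ℕ} {x : ℕ → M.V} (h : Valid M.G (Sum.inl o) t x) :
    M.Inv x t := by
  induction t with
  | zero =>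
    intro e
    refine Or.inr (Or.inl ⟨fun i _ ⟨s, hs, _⟩ => by omega, fun k h0 hk q => ?_⟩)
    rw [h.1, M.pt_int ⟨h0, hk⟩] at q
    simp at q
  | succ t ih => exact M.inv_succ (ih (h.mono (Nat.le_succ _))) (h.2 t (Nat.lt_succ_self _))

end MG
end Pool.Agent.P.MP_b2ff63_pr
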