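import Pool.Agent.P.MP_b2ff63_pr.StepG

namespace Pool.Agent.P.MP_b2ff63_pr
namespace OG
variable {Z L : Type} [DecidableEq Z] [DecidableEq L]

/-- Analytic input for the potential. -/
structure Hyp (O : OG Z L) (f : Z → ℝ) (g : Z → Z → ℝ) (β : Z → L → ℝ) (K : Finset Z)
    (l2 cg a : ℝ) : Prop where
  hw : ∀ l, 0 ≤ O.w f l
  hK : ∀ x ∉ K, O.Pz f ∅ x ≤ 0
  hg : ∀ y x, 0 ≤ g y x ∧ g y x ≤ 1
  hβ : ∀ y l, |g y (O.out l) - g y (O.inn l)| ≤ β y l
  hsup : ∀ y x, O.Lap (g y) x ≤ 0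
  hctr : ∀ x, O.Lap (g x) x ≤ - cg
  hl2 : 0 ≤ l2
  hLf : ∀ x ∉ K, O.Lap f x ≤ l2 * cg
  hLK : ∀ x ∈ K, O.Lap f x ≤ l2 * cg + 100
  ha : ∀ x ∉ K, a ≤ ∑ l ∈ O.In x, O.w f l

noncomputable def Val (O : OG Z L) (f : Z → ℝ) (g : Z → Z → ℝ) (β : Z → L → ℝ) (l2 : ℝ)
    (v : WW Z L) (A : Finset (EE L)) : ℝ := O.ValF f v A + l2 * O.S3 g β v A

variable {O : OG Z L} {f : Z → ℝ} {g : Z → Z → ℝ} {β : Z → L → ℝ} {K : Finset Z} {l2 cg a : ℝ}

theorem Iz_first (hw : ∀ l, 0 ≤ O.w f l) {A : Finset (EE L)} {x : Z}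
    (h : (O.mg.inc (Sum.inl x) ∩ A).card ≤ 1) : 16 * ∑ l ∈ O.In x, O.w f l ≤ O.Iz f A x := by
  have h1 := Finset.sum_filter_add_sum_filter_not (O.In x ×ˢ (Finset.univ : Finset (Option (Fin 16))))
    (fun p => emb 6 p ∈ A) fun p => O.w f p.1
  have h2 : ∑ p ∈ O.In x ×ˢ (Finset.univ : Finset (Option (Fin 16))), O.w f p.1 =
      17 * ∑ l ∈ O.In x, O.w f l := by
    rw [Finset.sum_product, Finset.mul_sum]
    simp
  have h3 : ((O.In x ×ˢ (Finset.univ : Finset (Option (Fin 16)))).filter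
      fun p => emb 6 p ∈ A).card ≤ 1 := by
    refine le_trans (Finset.card_le_card_of_injOn (emb 6) (fun p hp => ?_) (emb_inj 6).injOn) h
    obtain ⟨q1, q2⟩ := Finset.mem_filter.1 hp
    exact Finset.mem_inter.2 ⟨Finset.mem_union_right _ (Finset.mem_image_of_mem _ q1), q2⟩
  have h4 := Finset.sum_le_card_nsmul ((O.In x ×ˢ (Finset.univ : Finset (Option (Fin 16)))).filter
      fun p => emb 6 p ∈ A) (fun p => O.w f p.1) (∑ l ∈ O.In x, O.w f l) fun p hp =>
    Finset.single_le_sum (fun l _ => hw l) (Finset.mem_product.1 (Finset.mem_filter.1 hp).1).1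
  have h5 : 0 ≤ ∑ l ∈ O.In x, O.w f l := Finset.sum_nonneg fun l _ => hw l
  have h6 : (((O.In x ×ˢ (Finset.univ : Finset (Option (Fin 16)))).filter
      fun p => emb 6 p ∈ A).card : ℝ) ≤ 1 := by exact_mod_cast h3
  rw [nsmul_eq_mul] at h4
  have h7 := mul_le_mul_of_nonneg_right h6 h5
  unfold Iz IU
  linarith

theorem sum_greedy (H : O.Hyp f g β K l2 cg a) (v : WW Z L) (A : Finset (EE L)) :
    ∑ e ∈ O.mg.inc v \ A, O.Val f g β l2 (O.mg.oth e v) (insert e A) ≤
      ∑ e ∈ O.mg.inc v \ A, O.ValF f (O.mg.oth e v) (insert e A) +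
        (O.mg.inc v \ A).card * (l2 * O.S3 g β v A) := by
  rw [← nsmul_eq_mul, ← Finset.sum_const, ← Finset.sum_add_distrib]
  refine Finset.sum_le_sum fun e he => ?_
  have := mul_le_mul_of_nonneg_left (S3_greedy H.hg H.hβ he) H.hl2
  unfold Val
  linarith

theorem sum_clean (v : WW Z L) (A : Finset (EE L)) :
    ∑ e ∈ O.mg.inc v, (O.Val f g β l2 (O.mg.oth e v) A - O.Val f g β l2 v A) / O.mg.len e =
      ∑ e ∈ O.mg.inc v, (O.ValF f (O.mg.oth e v) A - O.ValF f v A) / O.mg.len e +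
      l2 * ∑ y ∈ O.VA A, ∑ e ∈ O.mg.inc v,
        (O.Gx (g y) (O.mg.oth e v) - O.Gx (g y) v) / O.mg.len e := by
  rw [← S3_clean (β := β), Finset.mul_sum, ← Finset.sum_add_distrib]
  refine Finset.sum_congr rfl fun e _ => ?_
  unfold Val
  ring

theorem step_int (H : O.Hyp f g β K l2 cg a) (A : Finset (EE L)) (q : L × Fin 16 × Fin 4) :
    O.mg.mavg (O.Val f g β l2) (Sum.inr q) A ≤ O.Val f g β l2 (Sum.inr q) A := by
  obtain ⟨l, j, c⟩ := q
  unfold MG.mavg
  split_ifs with hU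
  · have h0 : (0 : ℝ) < (O.mg.inc (Sum.inr (l, j, c)) \ A).card := by exact_mod_cast hU.card_pos
    rw [div_le_iff₀ h0]
    have h1 := sum_greedy H (Sum.inr (l, j, c)) A
    have h2 := intG H.hw H.hK A l j c
    unfold Val at h1 ⊢
    linarith
  · have hA : O.mg.inc (Sum.inr (l, j, c)) ⊆ A :=
      Finset.sdiff_eq_empty_iff_subset.1 (Finset.not_nonempty_iff_eq_empty.1 hU)
    have h1 := intS H.hw hA
    rw [sum_clean]
    simp only [O.Gx_int, Finset.sum_const_zero, mul_zero, add_zero]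
    have := div_nonpos_of_nonpos_of_nonneg h1
      (Nat.cast_nonneg (α := ℝ) (O.mg.inc (Sum.inr (l, j, c))).card)
    linarith

theorem step_hub (H : O.Hyp f g β K l2 cg a) (A : Finset (EE L)) (x : Z) (p : Prop) [Decidable p]
    (hp : p → (O.mg.inc (Sum.inl x) ∩ A).card ≤ 1) :
    O.mg.mavg (O.Val f g β l2) (Sum.inl x) A +
      ((if x ∉ K ∧ p then 64 / 10000 * a else 0) - if x ∈ K then 1 else 0) ≤
        O.Val f g β l2 (Sum.inl x) A := by
  have hc := O.card_hub x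
  unfold MG.mavg
  by_cases hU : (O.mg.inc (Sum.inl x) \ A).Nonempty
  · rw [if_pos hU]
    have h0 : (0 : ℝ) < (O.mg.inc (Sum.inl x) \ A).card := by exact_mod_cast hU.card_pos
    have h0' : ((O.mg.inc (Sum.inl x) \ A).card : ℝ) ≤ 102 := by
      exact_mod_cast hc ▸ Finset.card_le_card Finset.sdiff_subset
    have h1 := sum_greedy H (Sum.inl x) A
    have h2 := hubG H.hw H.hK A x
    have h3 := Iz_nonneg H.hw A x
    have h4 : (∑ e ∈ O.mg.inc (Sum.inl x) \ A, O.Val f g β l2 (O.mg.oth e (Sum.inl x))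
        (insert e A)) / (O.mg.inc (Sum.inl x) \ A).card ≤
        O.Val f g β l2 (Sum.inl x) A - 4 / 10000 * O.Iz f A x := by
      rw [div_le_iff₀ h0]
      have := mul_le_mul_of_nonneg_left h0' h3
      simp only [Val, ValF, loc] at h1 h2 ⊢
      linarith
    have h5 : (if x ∉ K ∧ p then 64 / 10000 * a else 0) ≤ 4 / 10000 * O.Iz f A x := by
      split_ifs with h
      · have := Iz_first H.hw (hp h.2)
        have := H.ha x h.1
        linarith
      · positivity
    have h6 : (0 : ℝ) ≤ if x ∈ K then 1 else 0 := by positivity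
    linarith
  · rw [if_neg hU]
    have hA : O.mg.inc (Sum.inl x) ⊆ A :=
      Finset.sdiff_eq_empty_iff_subset.1 (Finset.not_nonempty_iff_eq_empty.1 hU)
    have hnp : ¬ p := fun q => by
      have := hp q
      rw [Finset.inter_eq_left.2 hA] at this
      omega
    have h1 := hubS H.hw hA
    have hx : x ∈ O.VA A := by
      obtain ⟨e, he⟩ := O.mg.inc_ne (Sum.inl x)
      refine Finset.mem_biUnion.2 ⟨e, hA he, ?_⟩
      rcases Finset.mem_union.1 he with h | h <;> obtain ⟨p, hp, rfl⟩ := Finset.mem_image.1 h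
      · exact Finset.mem_insert.2 (Or.inl ((O.mem_Out _ _).1 (Finset.mem_product.1 hp).1).symm)
      · exact Finset.mem_insert.2 (Or.inr (Finset.mem_singleton.2
          ((O.mem_In _ _).1 (Finset.mem_product.1 hp).1).symm))
    have h2 : ∑ y ∈ O.VA A, O.Lap (g y) x ≤ - cg := by
      rw [← Finset.add_sum_erase _ _ hx]
      have := H.hctr x
      have : ∑ y ∈ (O.VA A).erase x, O.Lap (g y) x ≤ 0 := Finset.sum_nonpos fun y _ => H.hsup y x
      linarith
    have hk : 0 ≤ kap ∧ kap ≤ 1 := by simp only [kap, cMu]; norm_num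
    have h3 := mul_le_mul_of_nonneg_left h2 H.hl2
    rw [sum_clean, hc, if_neg (fun h => hnp h.2)]
    simp only [O.Gx_hub, ← Finset.mul_sum]
    split_ifs with hK
    · have h4 := H.hLK x hK
      have h5 : kap * (O.Lap f x + l2 * ∑ y ∈ O.VA A, O.Lap (g y) x) ≤ kap * 100 :=
        mul_le_mul_of_nonneg_left (by linarith) hk.1
      push_cast
      linarith [hk.2]
    · have h4 := H.hLf x hK
      have h5 : kap * (O.Lap f x + l2 * ∑ y ∈ O.VA A, O.Lap (g y) x) ≤ kap * 0 :=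
        mul_le_mul_of_nonneg_left (by linarith) hk.1
      push_cast
      linarith

theorem ValF_ge (hw : ∀ l, 0 ≤ O.w f l) (hf : ∀ x, -1 ≤ f x) (v : WW Z L) (A : Finset (EE L)) :
    -1 ≤ O.ValF f v A := by
  have h1 : 0 ≤ O.Psi f A := finsum_nonneg fun x => le_max_right _ _
  have hr : ∀ q : L × Fin 16, 0 ≤ O.w f q.1 * (rho (sig A q.1 q.2) : ℝ) := fun q =>
    mul_nonneg (hw _) (by exact_mod_cast rho_nonneg _)
  rcases v with x | ⟨l, j, c⟩
  · have h2 : 0 ≤ O.RR f A := finsum_nonneg hr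
    have h3 : O.Iz f A x ≤ (O.IU A x).card • (f x + 1) :=
      Finset.sum_le_card_nsmul _ _ _ fun p hp => by
        have := hf (O.inn p.1)
        rw [w, (O.mem_IU.1 hp).1]; linarith
    have h4 : ((O.IU A x).card : ℝ) ≤ 102 := by
      have := Finset.card_filter_le (O.In x ×ˢ (Finset.univ : Finset (Option (Fin 16))))
        fun p => emb 6 p ∉ A
      have h5 := O.card x
      rw [Finset.card_product] at this
      simp only [Finset.card_univ, Fintype.card_option, Fintype.card_fin] at this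
      have : (O.IU A x).card ≤ 102 := by unfold IU; omega
      exact_mod_cast this
    have h5 := hf x
    rw [nsmul_eq_mul] at h3
    have := mul_le_mul_of_nonneg_right h4 (by linarith : 0 ≤ f x + 1)
    simp only [ValF, loc]
    linarith
  · have h2 : O.w f l * (rho (sig A l j) : ℝ) ≤ O.RR f A :=
      single_le_finsum (l, j) (RR_support A) hr
    have h3 : 0 ≤ O.w f l * (gv (up c) (sig A l j) : ℝ) :=
      mul_nonneg (hw _) (by exact_mod_cast gv_nonneg _ _)
    have := hf (O.inn l)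
    simp only [ValF, loc]
    linarith

theorem S3_ge (hg : ∀ y x, 0 ≤ g y x ∧ g y x ≤ 1) (v : WW Z L) (A : Finset (EE L)) {B : ℝ}
    (hB : ∀ y, ∑ e ∈ A, β y e.1 ≤ B) : - ((O.VA A).card * (B + 1)) ≤ O.S3 g β v A := by
  have := Finset.card_nsmul_le_sum (O.VA A) (fun y => O.Gx (g y) v - ∑ e ∈ A, β y e.1 - 1)
    (- (B + 1)) fun y _ => by
      have := (O.Gx_mem (hg y) v).1
      have := hB y
      linarith
  rw [nsmul_eq_mul] at this
  unfold S3
  linarith

end OG
end Pool.Agent.P.MP_b2ff63_pr
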