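import Pool.Agent.P.MP_b2ff63_pr.PotF

namespace Pool.Agent.P.MP_b2ff63_pr
namespace OG
variable {Z L : Type} [DecidableEq Z] [DecidableEq L] {O : OG Z L} {f : Z → ℝ} {K : Finset Z}

/-- The graph Laplacian of the oriented graph. -/
noncomputable def Lap (O : OG Z L) (F : Z → ℝ) (x : Z) : ℝ :=
  ∑ l ∈ O.Out x, (F (O.out l) - F x) + ∑ l ∈ O.In x, (F (O.inn l) - F x)

noncomputable def kap : ℝ := 1 / 2 + 16 * (cMu : ℝ)

theorem hubG_out (hw : ∀ l, 0 ≤ O.w f l) (hK : ∀ x ∉ K, O.Pz f ∅ x ≤ 0) {A : Finset (EE L)}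
    {x : Z} {p : L × Option (Fin 16)} (hp : p ∈ O.OU A x) :
    O.ValF f (O.mg.oth (emb 0 p) (Sum.inl x)) (insert (emb 0 p) A) ≤
      (f x + O.Psi f A + O.RR f A) + (max (O.Pz f A x - O.w f p.1 * cO p.2) 0 -
        max (O.Pz f A x) 0 + O.w f p.1 * cO p.2) := by
  obtain ⟨hx, hA⟩ := O.mem_OU.1 hp
  have h1 : O.psi f (insert (emb 0 p) A) (O.inn p.1) =
      max (O.Pz f A x - O.w f p.1 * cO p.2) 0 := by
    unfold psi Pz
    rw [hx, Oz_insert_mem hp, Iz_insert_eq fun q hq e => O.ne q.1 (by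
      rw [hq, ← hx, show q.1 = p.1 from congrArg (Prod.fst : EE L → L) e])]
    congr 1; ring
  have h2 := Psi_insert hK (emb 0 p) A
  obtain ⟨l, o⟩ := p
  subst hx
  unfold ValF
  rcases o with _ | j
  · have h3 := psi_insert_out hw (l, none) A
    have h4 := Iz_nonneg hw (insert (l, none) A) (O.out l)
    simp only [emb, Option.map_none] at *
    rw [O.oth_out_main, RR_insert_main, h2, h1]
    simp only [loc, cO, psi, w] at *
    linarith
  · have h3 := psi_insert_out_eq (O := O) (f := f) (e := (l, some (j, 0)))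
      (by rintro ⟨l', _ | j'⟩ <;> simp [emb]) A
    have h4 : (gv 1 (insert 0 (sig A l j)) : ℝ) ≤ rho (sig A l j) + cC := by
      exact_mod_cast gLO (sig A l j) (fun h => hA (mem_sig.1 h))
    have h5 := mul_le_mul_of_nonneg_left h4 (hw l)
    simp only [emb, Option.map_some] at *
    rw [O.oth_out_g, RR_insert_g, h2, h1, h3]
    simp only [loc, cO, psi, sig_insert_self]
    have : up 0 = 1 := rfl
    rw [this]
    linarith

theorem hubG_in (hw : ∀ l, 0 ≤ O.w f l) (hK : ∀ x ∉ K, O.Pz f ∅ x ≤ 0) {A : Finset (EE L)}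
    {x : Z} {p : L × Option (Fin 16)} (hp : p ∈ O.IU A x) :
    O.ValF f (O.mg.oth (emb 6 p) (Sum.inl x)) (insert (emb 6 p) A) ≤
      (f x + O.Psi f A + O.RR f A) + (max (O.Pz f A x + cB * O.w f p.1) 0 -
        max (O.Pz f A x) 0 - cG * O.w f p.1) := by
  obtain ⟨hx, hA⟩ := O.mem_IU.1 hp
  have h1 : O.psi f (insert (emb 6 p) A) (O.out p.1) =
      max (O.Pz f A x + cB * O.w f p.1) 0 := by
    unfold psi Pz
    rw [hx, Iz_insert_mem hp, Oz_insert_eq fun q hq e => O.ne q.1 (by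
      rw [hq, ← hx, show q.1 = p.1 from congrArg (Prod.fst : EE L → L) e])]
    congr 1; ring
  have h2 := Psi_insert hK (emb 6 p) A
  have h3 := psi_insert_inn hw (emb 6 p) A
  obtain ⟨l, o⟩ := p
  subst hx
  unfold ValF
  rcases o with _ | j
  · have h4 := Iz_nonneg hw (insert (l, none) A) (O.inn l)
    have h5 : (cG : ℝ) * O.w f l ≤ O.w f l :=
      mul_le_of_le_one_left (hw l) (by simp [cG]; norm_num)
    simp only [emb, Option.map_none] at *
    rw [O.oth_in_main, RR_insert_main, h2, h1]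
    simp only [loc, psi, w] at *
    linarith
  · have h4 : (gv 4 (insert 6 (sig A l j)) : ℝ) ≤ 1 + rho (sig A l j) - cG := by
      exact_mod_cast gLI (sig A l j) (fun h => hA (mem_sig.1 h))
    have h5 := mul_le_mul_of_nonneg_left h4 (hw l)
    simp only [emb, Option.map_some] at *
    rw [O.oth_in_g, RR_insert_g, h2, h1]
    simp only [loc, psi, sig_insert_self] at *
    have : up 3 = 4 := rfl
    rw [this]
    have : O.w f l = f (O.out l) - f (O.inn l) := rfl
    linarith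

theorem hubG (hw : ∀ l, 0 ≤ O.w f l) (hK : ∀ x ∉ K, O.Pz f ∅ x ≤ 0) (A : Finset (EE L)) (x : Z) :
    ∑ e ∈ O.mg.inc (Sum.inl x) \ A, O.ValF f (O.mg.oth e (Sum.inl x)) (insert e A) ≤
      (O.mg.inc (Sum.inl x) \ A).card * (f x + O.Psi f A + O.RR f A) - 9 / 100 * O.Iz f A x := by
  have hc := O.sum_hub A x fun _ => f x + O.Psi f A + O.RR f A
  rw [Finset.sum_const, nsmul_eq_mul] at hc
  have h1 := Finset.sum_le_sum fun p (hp : p ∈ O.OU A x) => hubG_out hw hK hp
  have h2 := Finset.sum_le_sum fun p (hp : p ∈ O.IU A x) => hubG_in hw hK hp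
  have h3 := psi_ineq (O.OU A x) (O.IU A x) (fun p => O.w f p.1 * cO p.2) (fun p => O.w f p.1)
    cB cG (O.Pz f A x) (by simp [cB]; norm_num) (fun _ _ => mul_nonneg (hw _) (cO_nonneg _))
    (fun _ _ => hw _) rfl
  have h4 : - ((cG : ℝ) - 2 * cB) = - (9 / 100) := by simp [cG, cB]; norm_num
  rw [O.sum_hub, hc]
  rw [Finset.sum_add_distrib] at h1 h2
  rw [h4] at h3
  unfold Iz
  linarith

theorem Iz_ge (hw : ∀ l, 0 ≤ O.w f l) (A : Finset (EE L)) (l : L) :
    ∑ j : Fin 16, (if 6 ∈ sig A l j then 0 else O.w f l) ≤ O.Iz f A (O.out l) := by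
  have h : ∑ j : Fin 16, (if 6 ∈ sig A l j then 0 else O.w f l) =
      ∑ p ∈ (Finset.univ.filter fun j => 6 ∉ sig A l j).image fun j => (l, some j), O.w f p.1 := by
    rw [Finset.sum_image (fun a _ b _ q => by simpa using q), Finset.sum_filter]
    simp only [ite_not]
  rw [h]
  refine Finset.sum_le_sum_of_subset_of_nonneg (fun p hp => ?_) fun _ _ _ => hw _
  obtain ⟨j, hj, rfl⟩ := Finset.mem_image.1 hp
  exact O.mem_IU.2 ⟨rfl, fun q => (Finset.mem_filter.1 hj).2 (mem_sig.2 q)⟩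

theorem hubS (hw : ∀ l, 0 ≤ O.w f l) {A : Finset (EE L)} {x : Z}
    (hA : O.mg.inc (Sum.inl x) ⊆ A) :
    ∑ e ∈ O.mg.inc (Sum.inl x), (O.ValF f (O.mg.oth e (Sum.inl x)) A - O.ValF f (Sum.inl x) A) /
      O.mg.len e ≤ kap * O.Lap f x := by
  have h6 : ∀ p : L × Option (Fin 16), O.out p.1 = x → emb 6 p ∈ A := fun p hp =>
    hA (Finset.mem_union_right _ (Finset.mem_image_of_mem _ (by simp [O.mem_In, hp])))
  have h0 : ∀ p : L × Option (Fin 16), O.inn p.1 = x → emb 0 p ∈ A := fun p hp =>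
    hA (Finset.mem_union_left _ (Finset.mem_image_of_mem _ (by simp [O.mem_Out, hp])))
  have hI : O.Iz f A x = 0 :=
    Finset.sum_eq_zero fun p hp => absurd (h6 p (O.mem_IU.1 hp).1) (O.mem_IU.1 hp).2
  rw [O.sum_hub_all, Lap, mul_add, Finset.mul_sum, Finset.mul_sum]
  refine add_le_add (Finset.sum_le_sum fun l hl => ?_) (Finset.sum_le_sum fun l hl => ?_)
  · obtain rfl := (O.mem_Out x l).1 hl
    have h1 := Iz_ge hw A l
    have h2 : ∑ j : Fin 16, (O.ValF f (O.mg.oth (l, some (j, 0)) (Sum.inl (O.inn l))) A -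
        O.ValF f (Sum.inl (O.inn l)) A) / (O.mg.len (l, some (j, 0)) : ℝ) ≤
        ∑ j : Fin 16, (cMu * O.w f l + 2 / 10000 * if 6 ∈ sig A l j then 0 else O.w f l) := by
      refine Finset.sum_le_sum fun j _ => ?_
      have h3 : ((gv 1 (sig A l j) : ℝ) - rho (sig A l j)) / 2 ≤
          cMu + ((if 6 ∈ sig A l j then 0 else cFee : ℚ) : ℝ) := by
        exact_mod_cast gLSy (sig A l j) (mem_sig.2 (h0 (l, some j) rfl))
      have h4 := mul_le_mul_of_nonneg_left h3 (hw l)
      have h5 : (O.mg.len (l, some (j, 0)) : ℝ) = 2 := by simp [mg, elen, glen]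
      have : up 0 = 1 := rfl
      rw [O.oth_out_g, h5]
      simp only [ValF, loc, hI, this]
      split_ifs at h4 ⊢
      · push_cast at h4; linarith
      · simp only [cFee] at h4; push_cast at h4; linarith
    have h5 : (O.mg.len (l, none) : ℝ) = 2 := by simp [mg, elen]
    rw [Finset.sum_add_distrib, ← Finset.mul_sum _ _ (2 / 10000 : ℝ), Finset.sum_const] at h2
    rw [O.oth_out_main, h5]
    simp only [Finset.card_univ, Fintype.card_fin, nsmul_eq_mul, Nat.cast_ofNat] at h2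
    have : O.w f l = f (O.out l) - f (O.inn l) := rfl
    have h7 : (O.ValF f (Sum.inl (O.out l)) A - O.ValF f (Sum.inl (O.inn l)) A) =
        O.w f l - 4 / 10000 * O.Iz f A (O.out l) := by
      simp only [ValF, loc, hI]; linarith
    rw [h7, kap, ← this]
    linarith
  · obtain rfl := (O.mem_In x l).1 hl
    have h1 := Iz_nonneg hw A (O.inn l)
    have : O.w f l = f (O.out l) - f (O.inn l) := rfl
    have h2 : ∑ j : Fin 16, (O.ValF f (O.mg.oth (l, some (j, 6)) (Sum.inl (O.out l))) A -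
        O.ValF f (Sum.inl (O.out l)) A) / (O.mg.len (l, some (j, 6)) : ℝ) ≤
        ∑ j : Fin 16, - (cMu * O.w f l) := by
      refine Finset.sum_le_sum fun j _ => ?_
      have h3 : ((gv 4 (sig A l j) : ℝ) - rho (sig A l j) - 1) / 9979996 ≤ - cMu := by
        exact_mod_cast gLSx (sig A l j) (mem_sig.2 (h6 (l, some j) rfl))
      have h4 := mul_le_mul_of_nonneg_left h3 (hw l)
      have h5 : (O.mg.len (l, some (j, 6)) : ℝ) = 9979996 := by simp [mg, elen, glen]
      have : up 3 = 4 := rfl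
      rw [O.oth_in_g, h5]
      simp only [ValF, loc, hI, this]
      linarith
    have h5 : (O.mg.len (l, none) : ℝ) = 2 := by simp [mg, elen]
    rw [Finset.sum_const] at h2
    rw [O.oth_in_main, h5]
    simp only [Finset.card_univ, Fintype.card_fin, nsmul_eq_mul, Nat.cast_ofNat] at h2
    have h7 : (O.ValF f (Sum.inl (O.inn l)) A - O.ValF f (Sum.inl (O.out l)) A) =
        - O.w f l - 4 / 10000 * O.Iz f A (O.inn l) := by
      simp only [ValF, loc, hI]; linarith
    have h8 : f (O.inn l) - f (O.out l) = - O.w f l := by linarith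
    rw [h7, kap, h8]
    linarith

theorem intG (hw : ∀ l, 0 ≤ O.w f l) (hK : ∀ x ∉ K, O.Pz f ∅ x ≤ 0) (A : Finset (EE L))
    (l : L) (j : Fin 16) (c : Fin 4) :
    ∑ e ∈ O.mg.inc (Sum.inr (l, j, c)) \ A, O.ValF f (O.mg.oth e (Sum.inr (l, j, c))) (insert e A) ≤
      (O.mg.inc (Sum.inr (l, j, c)) \ A).card * O.ValF f (Sum.inr (l, j, c)) A := by
  have hc := O.sum_int A l j c fun _ => 1
  simp only [Finset.sum_const, nsmul_eq_mul, mul_one] at hc
  have h1 : ∑ k ∈ ginc (up c) \ sig A l j, ((gv (goth k (up c)) (insert k (sig A l j)) : ℝ) +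
      ((if k = 6 then cB else 0 : ℚ) : ℝ)) ≤
      (ginc (up c) \ sig A l j).card * (gv (up c) (sig A l j) : ℝ) := by
    exact_mod_cast gLG c (sig A l j)
  have h2 := mul_le_mul_of_nonneg_left h1 (hw l)
  rw [O.sum_int, hc]
  have h3 : ∑ k ∈ ginc (up c) \ sig A l j, O.ValF f (O.mg.oth (l, some (j, k)) (Sum.inr (l, j, c)))
      (insert (l, some (j, k)) A) ≤ ∑ k ∈ ginc (up c) \ sig A l j,
        ((f (O.inn l) - O.w f l * rho (sig A l j) + O.Psi f A + O.RR f A) +
          O.w f l * ((gv (goth k (up c)) (insert k (sig A l j)) : ℝ) +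
            ((if k = 6 then cB else 0 : ℚ) : ℝ))) := by
    refine Finset.sum_le_sum fun k _ => ?_
    have h4 := loc_gvx hw l j (goth k (up c)) (insert (l, some (j, k)) A)
    have h5 := psi_insert_inn hw (l, some (j, k)) A
    have h6 : O.psi f (insert (l, some (j, k)) A) (O.out l) ≤
        O.psi f A (O.out l) + O.w f l * ((if k = 6 then cB else 0 : ℚ) : ℝ) := by
      split_ifs with hk
      · have := psi_insert_out hw (l, some (j, k)) A
        linarith
      · rw [psi_insert_out_eq (O := O) (f := f) (e := (l, some (j, k)))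
          (by rintro ⟨l', _ | j'⟩ <;> simp [emb, Ne.symm hk]) A]
        simp
    rw [← O.gvx_up, O.oth_g, ValF, RR_insert_g, Psi_insert hK]
    rw [sig_insert_self] at h4
    simp only at h5 ⊢
    linarith
  rw [Finset.sum_add_distrib, ← Finset.mul_sum, Finset.sum_const, nsmul_eq_mul] at h3
  simp only [ValF, loc] at h3 ⊢
  linarith

theorem intS (hw : ∀ l, 0 ≤ O.w f l) {A : Finset (EE L)} {l : L} {j : Fin 16} {c : Fin 4}
    (hA : O.mg.inc (Sum.inr (l, j, c)) ⊆ A) :
    ∑ e ∈ O.mg.inc (Sum.inr (l, j, c)), (O.ValF f (O.mg.oth e (Sum.inr (l, j, c))) A -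
      O.ValF f (Sum.inr (l, j, c)) A) / O.mg.len e ≤ 0 := by
  have h0 : ginc (up c) ⊆ sig A l j := fun k hk =>
    mem_sig.2 (hA (Finset.mem_image_of_mem (fun k => ((l, some (j, k)) : EE L)) hk))
  have h1 : ∑ k ∈ ginc (up c), ((gv (goth k (up c)) (sig A l j) : ℝ) - gv (up c) (sig A l j)) /
      glen k ≤ 0 := by exact_mod_cast gLS c (sig A l j) h0
  have h2 := mul_nonpos_of_nonneg_of_nonpos (hw l) h1
  have h3 := O.sum_int ∅ l j c fun e => (O.ValF f (O.mg.oth e (Sum.inr (l, j, c))) A -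
      O.ValF f (Sum.inr (l, j, c)) A) / O.mg.len e
  have h4 : sig (∅ : Finset (EE L)) l j = ∅ := by simp [sig]
  rw [Finset.sdiff_empty, h4, Finset.sdiff_empty] at h3
  rw [h3]
  rw [Finset.mul_sum] at h2
  refine le_trans (Finset.sum_le_sum fun k _ => ?_) h2
  have h5 := loc_gvx hw l j (goth k (up c)) A
  rw [← mul_div_assoc]
  refine div_le_div_of_nonneg_right ?_ (Nat.cast_nonneg _)
  rw [← O.gvx_up, O.oth_g, O.gvx_up]
  simp only [ValF, loc] at h5 ⊢
  linarith

end OG
end Pool.Agent.P.MP_b2ff63_pr
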