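import Pool.Agent.P.MP_b2ff63_pr.StepF

namespace Pool.Agent.P.MP_b2ff63_pr
namespace OG
variable {Z L : Type} [DecidableEq Z] [DecidableEq L] (O : OG Z L)

/-- Harmonic extension into the valves. -/
noncomputable def Gx (F : Z → ℝ) : WW Z L → ℝ
  | Sum.inl x => F x
  | Sum.inr (l, _, c) => F (O.inn l) + lam (up c) * (F (O.out l) - F (O.inn l))

omit [DecidableEq Z] [DecidableEq L] in
theorem Gx_gvx (F : Z → ℝ) (l : L) (j : Fin 16) (c : Fin 6) :
    O.Gx F (O.gvx l j c) = F (O.inn l) + lam c * (F (O.out l) - F (O.inn l)) := by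
  fin_cases c
  · simp [gvx, Gx, lam_zero]
  · rfl
  · rfl
  · rfl
  · rfl
  · simp [gvx, Gx, lam_five]

theorem Gx_end (F : Z → ℝ) {e : EE L} {v : WW Z L} (h : O.mg.a e = v ∨ O.mg.b e = v) :
    ∃ t : ℝ, 0 ≤ t ∧ t ≤ 1 ∧ O.Gx F v = F (O.inn e.1) + t * (F (O.out e.1) - F (O.inn e.1)) := by
  obtain ⟨l, _ | ⟨j, k⟩⟩ := e
  · rcases h with rfl | rfl
    · exact ⟨0, le_rfl, zero_le_one, by simp [mg, ea, Gx]⟩
    · exact ⟨1, zero_le_one, le_rfl, by simp [mg, eb, Gx]⟩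
  · rcases h with rfl | rfl
    · exact ⟨lam (ga k), by exact_mod_cast (lam_mem _).1, by exact_mod_cast (lam_mem _).2,
        O.Gx_gvx F l j _⟩
    · exact ⟨lam (gb k), by exact_mod_cast (lam_mem _).1, by exact_mod_cast (lam_mem _).2,
        O.Gx_gvx F l j _⟩

theorem Gx_oth (F : Z → ℝ) {e : EE L} {v : WW Z L} (h : e ∈ O.mg.inc v) :
    O.Gx F (O.mg.oth e v) ≤ O.Gx F v + |F (O.out e.1) - F (O.inn e.1)| := by
  obtain ⟨t, h0, h1, ht⟩ := O.Gx_end F ((O.mg.mem_inc v e).1 h)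
  obtain ⟨s, g0, g1, hs⟩ := O.Gx_end F (e := e) (v := O.mg.oth e v) (by
    unfold MG.oth; split_ifs <;> simp)
  rw [ht, hs]
  rcases abs_cases (F (O.out e.1) - F (O.inn e.1)) with ⟨q, q'⟩ | ⟨q, q'⟩ <;> rw [q] <;> nlinarith

omit [DecidableEq Z] [DecidableEq L] in
theorem Gx_mem {F : Z → ℝ} (h : ∀ x, 0 ≤ F x ∧ F x ≤ 1) (v : WW Z L) :
    0 ≤ O.Gx F v ∧ O.Gx F v ≤ 1 := by
  rcases v with x | ⟨l, j, c⟩
  · exact h x
  · have h0 : (0 : ℝ) ≤ lam (up c) := by exact_mod_cast (lam_mem _).1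
    have h1 : (lam (up c) : ℝ) ≤ 1 := by exact_mod_cast (lam_mem _).2
    have := h (O.inn l)
    have := h (O.out l)
    simp only [Gx]
    constructor <;> nlinarith

theorem Gx_int (F : Z → ℝ) (l : L) (j : Fin 16) (c : Fin 4) :
    ∑ e ∈ O.mg.inc (Sum.inr (l, j, c)), (O.Gx F (O.mg.oth e (Sum.inr (l, j, c))) -
      O.Gx F (Sum.inr (l, j, c))) / O.mg.len e = 0 := by
  have h1 : ∑ k ∈ ginc (up c), ((lam (goth k (up c)) : ℝ) - lam (up c)) / glen k = 0 := by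
    exact_mod_cast lam_harm c
  have h3 := O.sum_int ∅ l j c fun e => (O.Gx F (O.mg.oth e (Sum.inr (l, j, c))) -
      O.Gx F (Sum.inr (l, j, c))) / O.mg.len e
  have h4 : sig (∅ : Finset (EE L)) l j = ∅ := by simp [sig]
  rw [Finset.sdiff_empty, h4, Finset.sdiff_empty] at h3
  rw [h3, ← mul_zero (F (O.out l) - F (O.inn l)), ← h1, Finset.mul_sum]
  refine Finset.sum_congr rfl fun k _ => ?_
  rw [← O.gvx_up, O.oth_g, O.Gx_gvx, O.Gx_gvx]
  simp only [mg, elen]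
  ring

theorem Gx_hub (F : Z → ℝ) (x : Z) :
    ∑ e ∈ O.mg.inc (Sum.inl x), (O.Gx F (O.mg.oth e (Sum.inl x)) - O.Gx F (Sum.inl x)) /
      O.mg.len e = kap * O.Lap F x := by
  have a1 : (lam 1 : ℝ) / 2 = cMu := by exact_mod_cast lam_one
  have a4 : ((lam 4 : ℝ) - 1) / 9979996 = - cMu := by exact_mod_cast lam_four
  rw [O.sum_hub_all, Lap, mul_add, Finset.mul_sum, Finset.mul_sum]
  refine congrArg₂ _ (Finset.sum_congr rfl fun l hl => ?_) (Finset.sum_congr rfl fun l hl => ?_)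
  · obtain rfl := (O.mem_Out x l).1 hl
    have : up 0 = 1 := rfl
    simp only [O.oth_out_main, O.oth_out_g, Gx, this]
    simp only [mg, elen, glen, Finset.sum_const, Finset.card_univ, Fintype.card_fin, nsmul_eq_mul,
      Matrix.cons_val_zero, kap, ← a1]
    push_cast; ring
  · obtain rfl := (O.mem_In x l).1 hl
    have : up 3 = 4 := rfl
    have h5 : ∀ j, (O.mg.len (l, some (j, 6)) : ℝ) = 9979996 := fun j => by simp [mg, elen, glen]
    have a5 : (cMu : ℝ) = - (((lam 4 : ℝ) - 1) / 9979996) := by linarith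
    simp only [O.oth_in_main, O.oth_in_g, Gx, this, h5]
    simp only [mg, elen, Finset.sum_const, Finset.card_univ, Fintype.card_fin, nsmul_eq_mul,
      kap, a5]
    push_cast; ring

def VA (A : Finset (EE L)) : Finset Z := A.biUnion fun e => {O.inn e.1, O.out e.1}

variable (g : Z → Z → ℝ) (β : Z → L → ℝ)

noncomputable def S3 (v : WW Z L) (A : Finset (EE L)) : ℝ :=
  ∑ y ∈ O.VA A, (O.Gx (g y) v - ∑ e ∈ A, β y e.1 - 1)

variable {O g β}

theorem S3_greedy (hg : ∀ y x, 0 ≤ g y x ∧ g y x ≤ 1)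
    (hβ : ∀ y l, |g y (O.out l) - g y (O.inn l)| ≤ β y l) {e : EE L} {v : WW Z L}
    {A : Finset (EE L)} (he : e ∈ O.mg.inc v \ A) :
    O.S3 g β (O.mg.oth e v) (insert e A) ≤ O.S3 g β v A := by
  obtain ⟨h1, h2⟩ := Finset.mem_sdiff.1 he
  have hβ0 : ∀ y l, 0 ≤ β y l := fun y l => (abs_nonneg _).trans (hβ y l)
  have hsub : O.VA A ⊆ O.VA (insert e A) :=
    Finset.biUnion_subset_biUnion_of_subset_left _ (Finset.subset_insert _ _)
  unfold S3
  refine (Finset.sum_le_sum_of_subset_of_nonpos' hsub fun y _ _ => ?_).trans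
    (Finset.sum_le_sum fun y _ => ?_)
  · have := (O.Gx_mem (hg y) (O.mg.oth e v)).2
    have : 0 ≤ ∑ e' ∈ insert e A, β y e'.1 := Finset.sum_nonneg fun _ _ => hβ0 _ _
    linarith
  · rw [Finset.sum_insert h2]
    have := O.Gx_oth (g y) h1
    have := hβ y e.1
    linarith

theorem S3_clean (v : WW Z L) (A : Finset (EE L)) :
    ∑ e ∈ O.mg.inc v, (O.S3 g β (O.mg.oth e v) A - O.S3 g β v A) / O.mg.len e =
      ∑ y ∈ O.VA A, ∑ e ∈ O.mg.inc v, (O.Gx (g y) (O.mg.oth e v) - O.Gx (g y) v) / O.mg.len e := by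
  rw [Finset.sum_comm]
  refine Finset.sum_congr rfl fun e _ => ?_
  unfold S3
  rw [← Finset.sum_sub_distrib, Finset.sum_div]
  refine Finset.sum_congr rfl fun y _ => ?_
  ring

end OG
end Pool.Agent.P.MP_b2ff63_pr
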