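import Pool.Agent.Lib.GRW.Stop

namespace Pool.Agent.P.MP_b2ff63_pr
open Pool.Agent.Lib.GRW

/-- A locally finite loopless multigraph with edge lengths at least two. -/
structure MG (W E : Type) where
  a : E → W
  b : E → W
  len : E → ℕ
  two_le : ∀ e, 2 ≤ len e
  ne : ∀ e, a e ≠ b e
  inc : W → Finset E
  mem_inc : ∀ w e, e ∈ inc w ↔ a e = w ∨ b e = w
  inc_ne : ∀ w, (inc w).Nonempty

namespace MG
variable {W E : Type} (M : MG W E)

/-- Vertices of the subdivision. -/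
abbrev V : Type := W ⊕ {p : E × ℕ // 0 < p.2 ∧ p.2 < M.len p.1}

def pt (e : E) (k : ℕ) : M.V :=
  if h : 0 < k ∧ k < M.len e then Sum.inr ⟨(e, k), h⟩
  else if k = 0 then Sum.inl (M.a e) else Sum.inl (M.b e)

theorem pt_int {e : E} {k : ℕ} (h : 0 < k ∧ k < M.len e) : M.pt e k = Sum.inr ⟨(e, k), h⟩ :=
  dif_pos h

theorem pt_zero (e : E) : M.pt e 0 = Sum.inl (M.a e) := by simp [pt]

theorem pt_len (e : E) : M.pt e (M.len e) = Sum.inl (M.b e) := by
  have := M.two_le e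
  have h : M.len e ≠ 0 := by omega
  simp [pt, h]

theorem pt_cases (e : E) {k : ℕ} (hk : k ≤ M.len e) :
    (k = 0 ∧ M.pt e k = Sum.inl (M.a e)) ∨ (k = M.len e ∧ M.pt e k = Sum.inl (M.b e)) ∨
      ∃ h : 0 < k ∧ k < M.len e, M.pt e k = Sum.inr ⟨(e, k), h⟩ := by
  rcases Nat.eq_zero_or_pos k with rfl | h0
  · exact Or.inl ⟨rfl, M.pt_zero e⟩
  · rcases Nat.eq_or_lt_of_le hk with rfl | h1
    · exact Or.inr (Or.inl ⟨rfl, M.pt_len e⟩)
    · exact Or.inr (Or.inr ⟨⟨h0, h1⟩, M.pt_int ⟨h0, h1⟩⟩)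

theorem pt_eq_int {e e' : E} {k k' : ℕ} (h : 0 < k ∧ k < M.len e) (hk' : k' ≤ M.len e')
    (q : M.pt e k = M.pt e' k') : e = e' ∧ k = k' := by
  rw [M.pt_int h] at q
  rcases M.pt_cases e' hk' with ⟨-, h1⟩ | ⟨-, h1⟩ | ⟨h', h1⟩ <;> rw [h1] at q
  · simp at q
  · simp at q
  · simpa using q

theorem pt_inj {e : E} {k k' : ℕ} (hk : k ≤ M.len e) (hk' : k' ≤ M.len e)
    (q : M.pt e k = M.pt e k') : k = k' := by
  rcases M.pt_cases e hk with ⟨h0, h1⟩ | ⟨h0, h1⟩ | ⟨h, h1⟩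
  · rcases M.pt_cases e hk' with ⟨h2, h3⟩ | ⟨h2, h3⟩ | ⟨h', h3⟩
    · omega
    · rw [h1, h3] at q; exact absurd (Sum.inl_injective q) (M.ne e)
    · rw [h1, h3] at q; simp at q
  · rcases M.pt_cases e hk' with ⟨h2, h3⟩ | ⟨h2, h3⟩ | ⟨h', h3⟩
    · rw [h1, h3] at q; exact absurd (Sum.inl_injective q).symm (M.ne e)
    · omega
    · rw [h1, h3] at q; simp at q
  · exact (M.pt_eq_int h hk' q).2

/-- The `k`-th small edge of `e`. -/
def me (e : E) (k : ℕ) : Sym2 M.V := s(M.pt e k, M.pt e (k + 1))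

theorem me_inj {e e' : E} {k k' : ℕ} (hk : k < M.len e) (hk' : k' < M.len e')
    (q : M.me e k = M.me e' k') : e = e' ∧ k = k' := by
  have h2 := M.two_le e
  have he : e = e' := by
    rcases Sym2.eq_iff.1 q with ⟨q1, q2⟩ | ⟨q1, q2⟩
    · by_cases h : 0 < k
      · exact (M.pt_eq_int ⟨h, hk⟩ hk'.le q1).1
      · exact (M.pt_eq_int ⟨by omega, by omega⟩ hk' q2).1
    · by_cases h : 0 < k
      · exact (M.pt_eq_int ⟨h, hk⟩ hk' q1).1
      · exact (M.pt_eq_int ⟨by omega, by omega⟩ hk'.le q2).1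
  subst he
  refine ⟨rfl, ?_⟩
  rcases Sym2.eq_iff.1 q with ⟨q1, -⟩ | ⟨q1, q2⟩
  · exact M.pt_inj hk.le hk'.le q1
  · have := M.pt_inj hk.le hk' q1
    have := M.pt_inj hk hk'.le q2
    omega

/-- The subdivision as a simple graph. -/
def G : SimpleGraph M.V where
  Adj u v := ∃ e k, k < M.len e ∧ s(u, v) = M.me e k
  symm := ⟨fun _ _ ⟨e, k, hk, q⟩ => ⟨e, k, hk, Sym2.eq_swap.trans q⟩⟩
  loopless := ⟨fun u ⟨e, k, hk, q⟩ => by
    have : M.pt e k = M.pt e (k + 1) := by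
      rcases Sym2.eq_iff.1 q with ⟨q1, q2⟩ | ⟨q1, q2⟩
      · exact q1.symm.trans q2
      · exact q2.symm.trans q1
    have := M.pt_inj hk.le hk this
    omega⟩

open Classical in
/-- Index of the small edge of `e` at its endpoint `w`. -/
noncomputable def ix (e : E) (w : W) : ℕ := if M.a e = w then 0 else M.len e - 1

open Classical in
/-- Position index of the neighbour of `w` along `e`. -/
noncomputable def nj (e : E) (w : W) : ℕ := if M.a e = w then 1 else M.len e - 1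

open Classical in
noncomputable def oth (e : E) (w : W) : W := if M.a e = w then M.b e else M.a e

theorem ix_lt (e : E) (w : W) : M.ix e w < M.len e := by
  have := M.two_le e
  unfold ix; split_ifs <;> omega

theorem nj_int (e : E) (w : W) : 0 < M.nj e w ∧ M.nj e w < M.len e := by
  have := M.two_le e
  unfold nj; split_ifs <;> omega

theorem me_ix {e : E} {w : W} (he : e ∈ M.inc w) :
    s(Sum.inl w, M.pt e (M.nj e w)) = M.me e (M.ix e w) := by
  have h2 := M.two_le e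
  unfold me ix nj
  split_ifs with h
  · rw [M.pt_zero, h]
  · have hb : M.b e = w := ((M.mem_inc w e).1 he).resolve_left h
    rw [Nat.sub_add_cancel (by omega), M.pt_len, hb, Sym2.eq_swap]

theorem adj_inl {w : W} {v : M.V} :
    M.G.Adj (Sum.inl w) v ↔ ∃ e ∈ M.inc w, v = M.pt e (M.nj e w) := by
  constructor
  · rintro ⟨e, k, hk, q⟩
    have h2 := M.two_le e
    rcases Sym2.eq_iff.1 q with ⟨q1, q2⟩ | ⟨q1, q2⟩
    · rcases M.pt_cases e hk.le with ⟨h0, h1⟩ | ⟨h0, h1⟩ | ⟨h, h1⟩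
      · have ha : M.a e = w := (Sum.inl_injective (q1.trans h1)).symm
        exact ⟨e, (M.mem_inc w e).2 (Or.inl ha), by rw [q2, nj, if_pos ha, h0]⟩
      · omega
      · rw [h1] at q1; simp at q1
    · rcases M.pt_cases e (k := k + 1) hk with ⟨h0, h1⟩ | ⟨h0, h1⟩ | ⟨h, h1⟩
      · omega
      · have hb : M.b e = w := (Sum.inl_injective (q1.trans h1)).symm
        have ha : M.a e ≠ w := hb ▸ M.ne e
        refine ⟨e, (M.mem_inc w e).2 (Or.inr hb), ?_⟩
        rw [q2, nj, if_neg ha, ← h0, Nat.add_sub_cancel]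
      · rw [h1] at q1; simp at q1
  · rintro ⟨e, he, rfl⟩
    exact ⟨e, _, M.ix_lt e w, M.me_ix he⟩

theorem adj_int {e : E} {k : ℕ} (h : 0 < k ∧ k < M.len e) {v : M.V} :
    M.G.Adj (M.pt e k) v ↔ v = M.pt e (k - 1) ∨ v = M.pt e (k + 1) := by
  constructor
  · rintro ⟨e', k', hk', q⟩
    rcases Sym2.eq_iff.1 q with ⟨q1, q2⟩ | ⟨q1, q2⟩
    · obtain ⟨rfl, rfl⟩ := M.pt_eq_int h hk'.le q1
      exact Or.inr q2
    · obtain ⟨rfl, rfl⟩ := M.pt_eq_int h hk' q1
      exact Or.inl q2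
  · rintro (rfl | rfl)
    · refine ⟨e, k - 1, by omega, ?_⟩
      rw [me, Nat.sub_add_cancel h.1, Sym2.eq_swap]
    · exact ⟨e, k, h.2, rfl⟩

theorem inr_eq_pt (p : {p : E × ℕ // 0 < p.2 ∧ p.2 < M.len p.1}) :
    (Sum.inr p : M.V) = M.pt p.1.1 p.1.2 := (M.pt_int p.2).symm

theorem finite_nbr (v : M.V) : (M.G.neighborSet v).Finite := by
  rcases v with w | p
  · refine ((M.inc w).finite_toSet.image fun e => M.pt e (M.nj e w)).subset fun v hv => ?_
    obtain ⟨e, he, rfl⟩ := M.adj_inl.1 hv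
    exact ⟨e, he, rfl⟩
  · refine (Set.toFinite {M.pt p.1.1 (p.1.2 - 1), M.pt p.1.1 (p.1.2 + 1)}).subset fun v hv => ?_
    rw [SimpleGraph.mem_neighborSet, M.inr_eq_pt, M.adj_int p.2] at hv
    exact hv

noncomputable instance locFin : M.G.LocallyFinite := fun v => (M.finite_nbr v).fintype

theorem exists_adj (v : M.V) : ∃ w, M.G.Adj v w := by
  rcases v with w | p
  · obtain ⟨e, he⟩ := M.inc_ne w
    exact ⟨_, M.adj_inl.2 ⟨e, he, rfl⟩⟩
  · exact ⟨_, by rw [M.inr_eq_pt, M.adj_int p.2]; exact Or.inr rfl⟩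

theorem nx_inj (w : W) : Function.Injective fun e => M.pt e (M.nj e w) :=
  fun e e' q => (M.pt_eq_int (M.nj_int e w) (M.nj_int e' w).2.le q).1

end MG
end Pool.Agent.P.MP_b2ff63_pr
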