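import Pool.Agent.P.MP_b2ff63_pr.Near

open MeasureTheory

namespace Pool.Agent.P.MP_b2ff63_pr
open Pool.Agent.Lib.GRW
namespace OG
variable {Z L : Type} [DecidableEq Z] [DecidableEq L] (O : OG Z L) (K : Finset Z)

open Classical in
noncomputable def rF (t : ℕ) (x : ℕ → O.mg.V) : ℕ :=
  if ∃ z ∉ K, x t = O.hub z ∧ ∀ s < t, x s ≠ x t then 1 else 0

open Classical in
noncomputable def rK (t : ℕ) (x : ℕ → O.mg.V) : ℕ := if ∃ z ∈ K, x t = O.hub z then 1 else 0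

noncomputable def cF (t : ℕ) (x : ℕ → O.mg.V) : ℕ := ∑ u ∈ Finset.range t, O.rF K u x
noncomputable def cK (t : ℕ) (x : ℕ → O.mg.V) : ℕ := ∑ u ∈ Finset.range t, O.rK K u x

theorem rF_congr (t : ℕ) (x y : ℕ → O.mg.V) (h : ∀ s ≤ t, x s = y s) :
    O.rF K t x = O.rF K t y := by
  have : (∀ s < t, x s ≠ x t) ↔ ∀ s < t, y s ≠ y t :=
    forall₂_congr fun s hs => by rw [h s hs.le, h t le_rfl]
  have h2 : (∃ z ∉ K, x t = O.hub z ∧ ∀ s < t, x s ≠ x t) ↔
      (∃ z ∉ K, y t = O.hub z ∧ ∀ s < t, y s ≠ y t) :=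
    exists_congr fun z => by rw [this, h t le_rfl]
  unfold rF
  by_cases q : ∃ z ∉ K, x t = O.hub z ∧ ∀ s < t, x s ≠ x t
  · rw [if_pos q, if_pos (h2.1 q)]
  · rw [if_neg q, if_neg fun r => q (h2.2 r)]

theorem rK_congr (t : ℕ) (x y : ℕ → O.mg.V) (h : ∀ s ≤ t, x s = y s) :
    O.rK K t x = O.rK K t y := by
  unfold rK
  rw [h t le_rfl]

theorem cF_congr (t : ℕ) (x y : ℕ → O.mg.V) (h : ∀ s ≤ t, x s = y s) :
    O.cF K t x = O.cF K t y :=
  Finset.sum_congr rfl fun u hu => O.rF_congr K u x y fun s hs =>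
    h s (hs.trans (Finset.mem_range.1 hu).le)

theorem cK_congr (t : ℕ) (x y : ℕ → O.mg.V) (h : ∀ s ≤ t, x s = y s) :
    O.cK K t x = O.cK K t y :=
  Finset.sum_congr rfl fun u hu => O.rK_congr K u x y fun s hs =>
    h s (hs.trans (Finset.mem_range.1 hu).le)

theorem cF_succ (t : ℕ) (x : ℕ → O.mg.V) :
    O.cF K t x ≤ O.cF K (t + 1) x ∧ O.cF K (t + 1) x ≤ O.cF K t x + 1 := by
  unfold cF; rw [Finset.sum_range_succ]; unfold rF; split_ifs <;> omega

theorem cK_succ (t : ℕ) (x : ℕ → O.mg.V) :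
    O.cK K t x ≤ O.cK K (t + 1) x ∧ O.cK K (t + 1) x ≤ O.cK K t x + 1 := by
  unfold cK; rw [Finset.sum_range_succ]; unfold rK; split_ifs <;> omega

theorem cF_mono (x : ℕ → O.mg.V) : Monotone fun t => O.cF K t x :=
  monotone_nat_of_le_succ fun t => (O.cF_succ K t x).1

theorem cK_mono (x : ℕ → O.mg.V) : Monotone fun t => O.cK K t x :=
  monotone_nat_of_le_succ fun t => (O.cK_succ K t x).1

theorem hub_inj : Function.Injective O.hub := fun _ _ h => Sum.inl_injective (Sum.inl_injective h)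

theorem card_Hs (t : ℕ) (x : ℕ → O.mg.V) : (O.Hs x t \ K).card = O.cF K t x := by
  induction t with
  | zero =>
    have : O.Hs x 0 = ∅ := Finset.eq_empty_of_forall_notMem fun z hz => by
      simpa using O.mem_Hs.1 hz
    simp [this, cF]
  | succ t ih =>
    rw [show O.cF K (t + 1) x = O.cF K t x + O.rF K t x from Finset.sum_range_succ _ _, ← ih]
    unfold rF
    split_ifs with h
    · obtain ⟨z, hz, q, hf⟩ := h
      have : O.Hs x (t + 1) \ K = insert z (O.Hs x t \ K) := by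
        ext y
        simp only [Finset.mem_sdiff, Finset.mem_insert, mem_Hs]
        constructor
        · rintro ⟨⟨s, hs, e⟩, hy⟩
          rcases Nat.lt_succ_iff_lt_or_eq.1 hs with hs | rfl
          · exact Or.inr ⟨⟨s, hs, e⟩, hy⟩
          · exact Or.inl (O.hub_inj (e.symm.trans q))
        · rintro (rfl | ⟨⟨s, hs, e⟩, hy⟩)
          · exact ⟨⟨t, Nat.lt_succ_self _, q⟩, hz⟩
          · exact ⟨⟨s, hs.trans (Nat.lt_succ_self _), e⟩, hy⟩
      rw [this, Finset.card_insert_of_notMem]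
      intro hm
      obtain ⟨s, hs, e⟩ := O.mem_Hs.1 (Finset.mem_sdiff.1 hm).1
      exact hf s hs (e.trans q.symm)
    · congr 1
      ext y
      simp only [Finset.mem_sdiff, mem_Hs]
      refine and_congr_left fun hy => ⟨?_, fun ⟨s, hs, e⟩ => ⟨s, hs.trans (Nat.lt_succ_self _), e⟩⟩
      rintro ⟨s, hs, e⟩
      rcases Nat.lt_succ_iff_lt_or_eq.1 hs with hs | rfl
      · exact ⟨s, hs, e⟩
      · by_contra hn
        exact h ⟨y, hy, e, fun r hr q => hn ⟨r, hr, q.trans e⟩⟩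

variable {O K} {f : Z → ℝ} {g : Z → Z → ℝ} {b0 : Z → Z → ℝ} {l2 cg a : ℝ}

theorem pot_super (H : O.Hyp f g (fun y l => b0 y (O.inn l)) K l2 cg a) {o : Z} {t : ℕ}
    {x : ℕ → O.mg.V} (h : Valid O.mg.G (O.hub o) t x) :
    avg O.mg.G x t (fun v => O.mg.pot (O.Val f g (fun y l => b0 y (O.inn l)) l2) (t + 1)
      (Function.update x (t + 1) v)) + (64 / 10000 * a * O.rF K t x - O.rK K t x) ≤
      O.mg.pot (O.Val f g (fun y l => b0 y (O.inn l)) l2) t x := by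
  classical
  have hI := O.mg.inv_of_valid h
  rcases hx : x t with (z | q) | ⟨⟨e, k⟩, hk⟩
  · have h1 := step_hub H (O.mg.tch x t) z (∀ s < t, x s ≠ x t)
      fun hf => O.mg.card_first hI hx hf
    rw [O.mg.avg_inl _ hI hx, O.mg.pot_inl _ hx]
    have h2 : 64 / 10000 * a * O.rF K t x =
        if z ∉ K ∧ ∀ s < t, x s ≠ x t then 64 / 10000 * a else 0 := by
      have : (∃ z' ∉ K, x t = O.hub z' ∧ ∀ s < t, x s ≠ x t) ↔ (z ∉ K ∧ ∀ s < t, x s ≠ x t) :=
        ⟨fun ⟨z', h1, h2, h3⟩ => ⟨(O.hub_inj (hx.symm.trans h2)) ▸ h1, h3⟩,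
          fun ⟨h1, h2⟩ => ⟨z, h1, hx, h2⟩⟩
      unfold rF
      simp only [this]
      split_ifs <;> simp
    have h3 : (O.rK K t x : ℝ) = if z ∈ K then 1 else 0 := by
      have : (∃ z' ∈ K, x t = O.hub z') ↔ z ∈ K :=
        ⟨fun ⟨z', h1, h2⟩ => (O.hub_inj (hx.symm.trans h2)) ▸ h1, fun h1 => ⟨z, h1, hx⟩⟩
      unfold rK
      simp only [this]
      split_ifs <;> simp
    rw [h2, h3]
    exact h1
  · have h2 : O.rF K t x = 0 := if_neg fun ⟨z, _, q, _⟩ => by simp [hx, hub] at q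
    have h3 : O.rK K t x = 0 := if_neg fun ⟨z, _, q⟩ => by simp [hx, hub] at q
    rw [O.mg.avg_inl _ hI hx, O.mg.pot_inl _ hx, h2, h3]
    simpa using step_int H (O.mg.tch x t) q
  · have h2 : O.rF K t x = 0 := if_neg fun ⟨z, _, q, _⟩ => by simp [hx, hub] at q
    have h3 : O.rK K t x = 0 := if_neg fun ⟨z, _, q⟩ => by simp [hx, hub] at q
    rw [O.mg.avg_int _ hI hk (hx.trans (O.mg.pt_int hk).symm), h2, h3]
    simp

theorem pot_ge (H : O.Hyp f g (fun y l => b0 y (O.inn l)) K l2 cg a) (hf : ∀ x, -1 ≤ f x)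
    (hb0 : ∀ y z, 0 ≤ b0 y z) {Cb : ℝ} (hCb : 0 ≤ Cb)
    (hsum : ∀ (y : Z) (S : Finset Z) (ν : ℕ), 1 ≤ ν → S.card ≤ ν ^ 3 → ∑ z ∈ S, b0 y z ≤ Cb * ν)
    {n : ℕ} (hn : 7 * (K.card + 1) ≤ n) {o : Z} {t : ℕ}
    {x : ℕ → O.mg.V} (h : Valid O.mg.G (O.hub o) t x) (hc : O.cF K t x ≤ n ^ 3) :
    - (1 + l2 * (8 * n ^ 3 * (1356 * Cb * n + 1))) ≤
      O.mg.pot (O.Val f g (fun y l => b0 y (O.inn l)) l2) t x := by
  refine O.mg.le_pot _ fun w => ?_
  have h1 := O.card_VA h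
  have h2 := O.card_Hs K t x
  have h3 := Finset.le_card_sdiff K (O.Hs x t)
  have h4 : n ≤ n ^ 3 := Nat.le_self_pow (by norm_num) n
  have h5 : (O.VA (O.mg.tch x t)).card ≤ (2 * n) ^ 3 := by
    rw [mul_pow]; omega
  have h6 : ∀ y, ∑ e ∈ O.mg.tch x t, b0 y (O.inn e.1) ≤ 1356 * Cb * n := fun y => by
    have q1 := O.sum_le_VA (O.mg.tch x t) (b0 y) (hb0 y)
    have q2 := hsum y _ (2 * n) (by omega) h5
    push_cast at q2
    linarith
  have h7 := S3_ge (O := O) (β := fun y l => b0 y (O.inn l)) H.hg w (O.mg.tch x t) h6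
  have h8 := ValF_ge H.hw hf w (O.mg.tch x t)
  have h9 : ((O.VA (O.mg.tch x t)).card : ℝ) ≤ 8 * n ^ 3 := by
    have : ((O.VA (O.mg.tch x t)).card : ℝ) ≤ (2 * n) ^ 3 := by exact_mod_cast h5
    linarith
  have h10 := mul_le_mul_of_nonneg_right h9 (by positivity : 0 ≤ 1356 * Cb * n + 1)
  have h11 := mul_le_mul_of_nonneg_left (le_trans (neg_le_neg h10) h7) H.hl2
  unfold Val
  linarith

theorem prob_bound [Countable Z] [Countable L]
    (H : O.Hyp f g (fun y l => b0 y (O.inn l)) K l2 cg a) (hf : ∀ x, -1 ≤ f x)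
    (hb0 : ∀ y z, 0 ≤ b0 y z) {Cb : ℝ} (hCb : 0 ≤ Cb)
    (hsum : ∀ (y : Z) (S : Finset Z) (ν : ℕ), 1 ≤ ν → S.card ≤ ν ^ 3 → ∑ z ∈ S, b0 y z ≤ Cb * ν)
    (ha : 0 < a) {n : ℕ} (hn : 7 * (K.card + 1) ≤ n) (m : ℕ) {o : Z}
    {Ω : Type} [MeasurableSpace Ω] {P : Measure Ω} {X : ℕ → Ω → O.mg.V}
    (hX : IsGRW O.mg.G (O.hub o) P X) (t : ℕ) :
    P {ω | n ^ 3 ≤ O.cF K t (fun s => X s ω) ∧ O.cK K t (fun s => X s ω) < m} ≤
      ENNReal.ofReal ((1 + l2 * (8 * n ^ 3 * (1356 * Cb * n + 1)) + m + (f o + O.Psi f ∅)) /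
        (64 / 10000 * a * n ^ 3)) := by
  classical
  set S := O.mg.pot (O.Val f g (fun y l => b0 y (O.inn l)) l2) with hS
  set r : ℕ → (ℕ → O.mg.V) → ℝ := fun t x => 64 / 10000 * a * O.rF K t x - O.rK K t x with hr
  set St : ℕ → (ℕ → O.mg.V) → Prop := fun t x => n ^ 3 ≤ O.cF K t x ∨ m ≤ O.cK K t x with hSt
  set c : ℝ := 1 + l2 * (8 * n ^ 3 * (1356 * Cb * n + 1)) + m with hc
  have dS : ∀ (t : ℕ) (y z : ℕ → O.mg.V), (∀ s ≤ t, y s = z s) → S t y = S t z :=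
    O.mg.pot_congr _
  have dr : ∀ (t : ℕ) (y z : ℕ → O.mg.V), (∀ s ≤ t, y s = z s) → r t y = r t z :=
    fun t y z h => by simp only [hr, O.rF_congr K t y z h, O.rK_congr K t y z h]
  have dSt : ∀ (t : ℕ) (y z : ℕ → O.mg.V), (∀ s ≤ t, y s = z s) → (St t y ↔ St t z) :=
    fun t y z h => by simp only [hSt, O.cF_congr K t y z h, O.cK_congr K t y z h]
  have key : ∀ t x, Valid O.mg.G (O.hub o) t x → ∃ τ ≤ t, (τ = t ∨ St τ x) ∧
      64 / 10000 * a * O.cF K τ x ≤ c + stopped S r St t x := by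
    intro t x hx
    obtain ⟨τ, h1, h2, h3, -, h5⟩ := stopped_eq (S := S) (r := r) (St := St) (x := x)
      (fun t h => h.imp (fun q => q.trans (O.cF_succ K t x).1)
        fun q => q.trans (O.cK_succ K t x).1) t
    refine ⟨τ, h1, h3, ?_⟩
    have h6 : O.cF K τ x ≤ n ^ 3 ∧ O.cK K τ x ≤ m := by
      rcases τ with _ | τ
      · simp [cF, cK]
      · have q := h2 τ (Nat.lt_succ_self _)
        have q1 := (O.cF_succ K τ x).2
        have q2 := (O.cK_succ K τ x).2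
        simp only [hSt, not_or, not_le] at q
        omega
    have h7 := pot_ge H hf hb0 hCb hsum hn (hx.mono h1) h6.1
    have h8 : ∑ u ∈ Finset.range τ, r u x = 64 / 10000 * a * O.cF K τ x - O.cK K τ x := by
      simp only [hr, cF, cK, Finset.sum_sub_distrib, Nat.cast_sum, Finset.mul_sum]
    have h9 : (O.cK K τ x : ℝ) ≤ m := by exact_mod_cast h6.2
    rw [h5, h8]
    linarith
  have hn0 : (0 : ℝ) < n := by exact_mod_cast (by omega : 0 < n)
  refine (hX.measure_le_of_super (fun t x => c + stopped S r St t x)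
    (fun t y z h => by simp only [stopped_det dS dr dSt t y z h]) (fun t x hx => ?_)
    (fun t x hx => stopped_super O.mg.exists_adj dS dr dSt t x (pot_super H hx) c) t
    (64 / 10000 * a * n ^ 3) (by positivity) _ (fun ω hω hv => ?_)).trans
    (ENNReal.ofReal_le_ofReal (div_le_div_of_nonneg_right ?_ (by positivity)))
  · obtain ⟨τ, -, -, h⟩ := key t x hx
    exact le_trans (by positivity) h
  · obtain ⟨τ, h1, h2, h3⟩ := key t _ hv
    have h4 : n ^ 3 ≤ O.cF K τ fun s => X s ω := by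
      rcases h2 with rfl | h2 | h2
      · exact hω.1
      · exact h2
      · exact absurd (h2.trans (O.cK_mono K _ h1)) (not_le.2 hω.2)
    have h5 : (n : ℝ) ^ 3 ≤ O.cF K τ fun s => X s ω := by exact_mod_cast h4
    exact le_trans (mul_le_mul_of_nonneg_left h5 (by positivity)) h3
  · have h1 : O.mg.tch (fun _ => O.hub o) 0 = ∅ :=
      Finset.eq_empty_of_forall_notMem fun e he => by
        obtain ⟨k, -, s, hs, -⟩ := O.mg.mem_tch.1 he
        omega
    have h2 : O.RR f ∅ = 0 := by simp [RR, sig, rho_empty]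
    have h3 := Iz_nonneg H.hw ∅ o
    simp only [stopped, hS]
    rw [O.mg.pot_inl _ (w := Sum.inl o) rfl, h1]
    simp only [Val, ValF, loc, S3, VA, h2, Finset.biUnion_empty, Finset.sum_empty]
    linarith

end OG
end Pool.Agent.P.MP_b2ff63_pr
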